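import Pool.Agent.UBC.ResField

set_option autoImplicit false
set_option linter.unusedSectionVars false

/-!
# Multiplicative congruence in an ultrametric field
-/

namespace Pool.Agent.UBC

variable {L : Type*} [NormedField L] [IsUltrametricDist L]

/-- `a` and `b` are nonzero and `a / b` is congruent to `1`. -/
def Near (a b : L) : Prop := ‖a - b‖ < ‖b‖

theorem Near.ne_right {a b : L} (h : Near a b) : b ≠ 0 := by
  rintro rfl
  unfold Near at h
  rw [norm_zero] at h
  exact absurd h (not_lt.mpr (norm_nonneg _))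

theorem Near.norm_eq {a b : L} (h : Near a b) : ‖a‖ = ‖b‖ := by
  unfold Near at h
  have h1 : ‖b - a‖ < ‖b - 0‖ := by rw [norm_sub_rev, sub_zero]; exact h
  have := norm_sub_eq_of_lt h1
  simpa using this

theorem Near.ne_left {a b : L} (h : Near a b) : a ≠ 0 := by
  intro e
  have := h.norm_eq
  rw [e, norm_zero] at this
  exact h.ne_right (norm_eq_zero.mp this.symm)

theorem near_refl {a : L} (h : a ≠ 0) : Near a a := by
  unfold Near
  rw [sub_self, norm_zero]
  exact norm_pos_iff.mpr h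

theorem Near.symm {a b : L} (h : Near a b) : Near b a := by
  have := h.norm_eq
  unfold Near at *
  rw [norm_sub_rev, this]
  exact h

theorem Near.trans {a b c : L} (h : Near a b) (h' : Near b c) : Near a c := by
  have e := h'.norm_eq
  unfold Near at *
  exact lt_of_le_of_lt (norm_sub_le_max' a b c) (max_lt (by rw [← e]; exact h) h')

theorem Near.mul {a b c d : L} (h : Near a b) (h' : Near c d) : Near (a * c) (b * d) := by
  have hb : 0 < ‖b‖ := norm_pos_iff.mpr h.ne_right
  have hd : 0 < ‖d‖ := norm_pos_iff.mpr h'.ne_right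
  have e1 : a * c - b * d = (a - b) * c + b * (c - d) := by ring
  have e := h'.norm_eq
  unfold Near at *
  rw [e1, norm_mul b d]
  refine lt_of_le_of_lt (IsUltrametricDist.norm_add_le_max _ _) (max_lt ?_ ?_)
  · rw [norm_mul, e]
    exact mul_lt_mul_of_pos_right h hd
  · rw [norm_mul]
    exact mul_lt_mul_of_pos_left h' hb

theorem Near.inv {a b : L} (h : Near a b) : Near a⁻¹ b⁻¹ := by
  have ha := h.ne_left
  have hb := h.ne_right
  have e : a⁻¹ - b⁻¹ = -((a - b) * (a⁻¹ * b⁻¹)) := by field_simp; ring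
  unfold Near at *
  rw [e, norm_neg, norm_mul, norm_mul]
  have h1 : 0 < ‖a⁻¹‖ * ‖b⁻¹‖ := by
    have := norm_pos_iff.mpr (inv_ne_zero ha)
    have := norm_pos_iff.mpr (inv_ne_zero hb)
    positivity
  have e2 : ‖a⁻¹‖ = ‖b⁻¹‖ := by rw [norm_inv, norm_inv, Near.norm_eq h]
  calc ‖a - b‖ * (‖a⁻¹‖ * ‖b⁻¹‖) < ‖b‖ * (‖a⁻¹‖ * ‖b⁻¹‖) := mul_lt_mul_of_pos_right h h1
    _ = (‖b‖ * ‖b⁻¹‖) * ‖a⁻¹‖ := by ring
    _ = ‖b⁻¹‖ := by
      rw [← norm_mul, mul_inv_cancel₀ hb, norm_one, one_mul, e2]

theorem Near.div {a b c d : L} (h : Near a b) (h' : Near c d) : Near (a / c) (b / d) := by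
  rw [div_eq_mul_inv, div_eq_mul_inv]
  exact h.mul h'.inv

theorem Near.pow {a b : L} (h : Near a b) (n : ℕ) : Near (a ^ n) (b ^ n) := by
  induction n with
  | zero => simpa using near_refl (one_ne_zero : (1 : L) ≠ 0)
  | succ n ih => rw [pow_succ, pow_succ]; exact ih.mul h

theorem Near.mul_left {b c : L} (a : L) (ha : a ≠ 0) (h : Near b c) : Near (a * b) (a * c) :=
  (near_refl ha).mul h

/-- cross-multiplied form -/
theorem near_div_iff {a b c d : L} (hb : b ≠ 0) (hc : c ≠ 0) (hd : d ≠ 0) :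
    Near (a / b) (c / d) ↔ ‖a * d - c * b‖ < ‖c * b‖ := by
  have e : a / b - c / d = (a * d - c * b) / (b * d) := by field_simp
  have hbn : 0 < ‖b‖ := norm_pos_iff.mpr hb
  have hdn : 0 < ‖d‖ := norm_pos_iff.mpr hd
  unfold Near
  rw [e, norm_div, norm_div, norm_mul b d, div_lt_div_iff₀ (by positivity) hdn, norm_mul c b]
  constructor
  · intro h
    have : ‖a * d - c * b‖ * ‖d‖ < (‖c‖ * ‖b‖) * ‖d‖ := by linarith
    exact lt_of_mul_lt_mul_right this hdn.le
  · intro h
    have := mul_lt_mul_of_pos_right h hdn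
    linarith

/-- A sum of `m` terms near to `a` has norm `‖m a‖` if `m` is a unit. -/
theorem sum_near {a : L} (ha : a ≠ 0) {m : ℕ} (hm : ‖(m : L)‖ = 1) {f : ℕ → L}
    (hf : ∀ k < m, Near (f k) a) : ∑ k ∈ Finset.range m, f k ≠ 0 := by
  intro h0
  have hm0 : 0 < m := by
    rcases Nat.eq_zero_or_pos m with h | h
    · subst h; simp at hm
    · exact h
  have e : (m : L) * a = - ∑ k ∈ Finset.range m, (f k - a) := by
    rw [Finset.sum_sub_distrib, h0]
    simp
  have h1 : ‖(m : L) * a‖ = ‖a‖ := by rw [norm_mul, hm, one_mul]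
  have h2 : ‖∑ k ∈ Finset.range m, (f k - a)‖ < ‖a‖ := by
    have hne : (Finset.range m).Nonempty := ⟨0, by simpa using hm0⟩
    obtain ⟨k, hk, hle⟩ := IsUltrametricDist.exists_norm_finset_sum_le_of_nonempty hne
      (fun k => f k - a)
    exact lt_of_le_of_lt hle (hf k (by simpa using hk))
  rw [e, norm_neg] at h1
  exact absurd h1 h2.ne

end Pool.Agent.UBC
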