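import Mathlib

set_option autoImplicit false

/-!
# Invariant four point functions on a cyclic group
-/

namespace Pool.Agent.UBC

section
variable {q : ℕ} [NeZero q]

/-- A symmetric function on pairs of elements of a cyclic group whose cross differences are
invariant under translation is, up to a function of the single points, invariant. -/
theorem exists_normal (hq : 4 ≤ q) (L : ZMod q → ZMod q → ℝ) (hs : ∀ a b, L a b = L b a)
    (h0 : ∀ a, L a a = 0)
    (hcr : ∀ a b c d, a ≠ b → a ≠ c → a ≠ d → b ≠ c → b ≠ d → c ≠ d →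
      L (a + 1) (b + 1) + L (c + 1) (d + 1) - L (a + 1) (c + 1) - L (b + 1) (d + 1) =
        L a b + L c d - L a c - L b d) :
    ∃ ν u : ZMod q → ℝ, ∀ a b, a ≠ b → L a b = ν (b - a) + u a + u b := by
  classical
  have h1 : (1 : ZMod q) ≠ 0 := by
    intro h
    have : ((1 : ℕ) : ZMod q) = 0 := by simpa using h
    rw [ZMod.natCast_eq_zero_iff] at this
    have := Nat.le_of_dvd one_pos this
    omega
  have h2 : (2 : ZMod q) ≠ 0 := by
    intro h
    have : ((2 : ℕ) : ZMod q) = 0 := by simpa using h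
    rw [ZMod.natCast_eq_zero_iff] at this
    have := Nat.le_of_dvd two_pos this
    omega
  set δ : ZMod q → ZMod q → ℝ := fun a b => L (a + 1) (b + 1) - L a b with hδ
  have δs : ∀ a b, δ a b = δ b a := fun a b => by simp only [hδ]; rw [hs (a + 1), hs a]
  have δcr : ∀ a b c d, a ≠ b → a ≠ c → a ≠ d → b ≠ c → b ≠ d → c ≠ d →
      δ a b + δ c d = δ a c + δ b d := by
    intro a b c d k1 k2 k3 k4 k5 k6
    have := hcr a b c d k1 k2 k3 k4 k5 k6
    simp only [hδ]
    linarith
  set w : ZMod q → ℝ := fun a => (δ a (a + 1) + δ a (a + 2) - δ (a + 1) (a + 2)) / 2 with hw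
  have G : ∀ a b c c', b ≠ a → c ≠ a → c' ≠ a → b ≠ c → b ≠ c' →
      δ a b + δ a c - δ b c = δ a b + δ a c' - δ b c' := by
    intro a b c c' k1 k2 k3 k4 k5
    by_cases hcc : c = c'
    · rw [hcc]
    · have := δcr a c c' b (Ne.symm k2) (Ne.symm k3) (Ne.symm k1) hcc (Ne.symm k4) (Ne.symm k5)
      rw [δs b c, δs b c']
      linarith
  have e12 : ∀ a : ZMod q, a + 1 ≠ a + 2 := by
    intro a h
    have : (1 : ZMod q) = 2 := add_left_cancel h
    apply h1
    have h3 : (2 : ZMod q) - 1 = 0 := by rw [← this]; ring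
    have h4 : (2 : ZMod q) - 1 = 1 := by norm_num
    rw [← h4, h3]
  have e1 : ∀ a : ZMod q, a + 1 ≠ a := fun a h => h1 (by simpa using h)
  have e2 : ∀ a : ZMod q, a + 2 ≠ a := fun a h => h2 (by simpa using h)
  have F : ∀ a b c, b ≠ a → c ≠ a → b ≠ c → δ a b + δ a c - δ b c = 2 * w a := by
    intro a b c k1 k2 k3
    have hwa : 2 * w a = δ a (a + 2) + δ a (a + 1) - δ (a + 2) (a + 1) := by
      simp only [hw]; rw [δs (a + 2) (a + 1)]; ring
    rw [hwa]
    by_cases hb : b = a + 2
    · rw [hb] at k3 ⊢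
      exact G a (a + 2) c (a + 1) (e2 a) k2 (e1 a) k3 (Ne.symm (e12 a))
    · rw [G a b c (a + 2) k1 k2 (e2 a) k3 hb]
      have := G a (a + 2) b (a + 1) (e2 a) k1 (e1 a) (Ne.symm hb) (Ne.symm (e12 a))
      rw [δs b (a + 2)]
      linarith
  have hδw : ∀ a b, a ≠ b → δ a b = w a + w b := by
    intro a b hab
    obtain ⟨c, hca, hcb⟩ : ∃ c, c ≠ a ∧ c ≠ b := by
      by_cases hb : b = a + 1
      · exact ⟨a + 2, e2 a, by rw [hb]; exact Ne.symm (e12 a)⟩
      · exact ⟨a + 1, e1 a, Ne.symm hb⟩
    have f1 := F a b c (Ne.symm hab) hca (Ne.symm hcb)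
    have f2 := F b a c hab hcb (Ne.symm hca)
    rw [δs b a] at f2
    linarith
  set S : ZMod q → ℝ := fun a => ∑ c, L a c with hS
  set W : ℝ := ∑ c, w c with hW
  have hS1 : ∀ a, S (a + 1) = S a + ((q : ℝ) - 2) * w a + W := by
    intro a
    have r1 : S (a + 1) = ∑ c, L (a + 1) (c + 1) :=
      (Equiv.sum_comp (Equiv.addRight (1 : ZMod q)) (fun c => L (a + 1) c)).symm
    have r2 : ∀ c, L (a + 1) (c + 1) = (L a c + (w a + w c)) - (if c = a then 2 * w a else 0) := by
      intro c
      by_cases hc : c = a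
      · subst hc; rw [if_pos rfl, h0, h0]; ring
      · rw [if_neg hc]
        have := hδw a c (Ne.symm hc)
        simp only [hδ] at this
        linarith
    rw [r1, Finset.sum_congr rfl (fun c _ => r2 c), Finset.sum_sub_distrib,
      Finset.sum_add_distrib, Finset.sum_add_distrib]
    simp only [Finset.sum_ite_eq', Finset.mem_univ, if_true, Finset.sum_const, Finset.card_univ,
      ZMod.card, nsmul_eq_mul]
    ring
  have hq2 : (0 : ℝ) < (q : ℝ) - 2 := by
    have : (4 : ℝ) ≤ q := by exact_mod_cast hq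
    linarith
  set u : ZMod q → ℝ := fun a => S a / ((q : ℝ) - 2) with hu
  set γ : ZMod q → ZMod q → ℝ := fun a b => L a b - u a - u b with hγ
  set κ : ℝ := 2 * W / ((q : ℝ) - 2) with hκ
  have hγ1 : ∀ a b, a ≠ b → γ (a + 1) (b + 1) = γ a b - κ := by
    intro a b hab
    have h3 := hδw a b hab
    simp only [hδ] at h3
    have h4 : ∀ a, u (a + 1) = u a + w a + W / ((q : ℝ) - 2) := by
      intro a
      simp only [hu]
      rw [hS1]
      field_simp
    simp only [hγ, hκ]
    rw [h4, h4]
    have : 2 * W / ((q : ℝ) - 2) = W / ((q : ℝ) - 2) + W / ((q : ℝ) - 2) := by ring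
    rw [this]
    linarith
  have hγn : ∀ n : ℕ, ∀ a b, a ≠ b → γ (a + n) (b + n) = γ a b - n * κ := by
    intro n
    induction n with
    | zero => intro a b _; simp
    | succ n ih =>
      intro a b hab
      have h5 : a + ((n + 1 : ℕ) : ZMod q) = (a + n) + 1 := by push_cast; ring
      have h6 : b + ((n + 1 : ℕ) : ZMod q) = (b + n) + 1 := by push_cast; ring
      rw [h5, h6, hγ1 _ _ (fun h => hab (add_right_cancel h)), ih a b hab]
      push_cast
      ring
  have hκ0 : κ = 0 := by
    have h3 := hγn q 0 1 (Ne.symm h1)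
    rw [ZMod.natCast_self, add_zero, add_zero] at h3
    have h4 : (q : ℝ) * κ = 0 := by linarith
    rcases mul_eq_zero.mp h4 with h5 | h5
    · have : (4 : ℝ) ≤ q := by exact_mod_cast hq
      linarith
    · exact h5
  refine ⟨fun s => γ 0 s, u, ?_⟩
  intro a b hab
  have h3 := hγn a.val 0 (b - a) (by
    intro h
    exact hab (sub_eq_zero.mp h.symm).symm)
  rw [ZMod.natCast_zmod_val, zero_add, sub_add_cancel, hκ0] at h3
  have h4 : γ 0 (b - a) = γ a b := by linarith
  simp only
  rw [h4]
  simp only [hγ]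
  ring

/-- The function `ν` of a pair function with the four point property is an ultrametric one. -/
theorem normal_ultra (L : ZMod q → ZMod q → ℝ) (hs : ∀ a b, L a b = L b a) (ν u : ZMod q → ℝ)
    (hν : ∀ a b, a ≠ b → L a b = ν (b - a) + u a + u b)
    (h4 : ∀ a b c d, a ≠ b → a ≠ c → a ≠ d → b ≠ c → b ≠ d → c ≠ d →
      L a c + L b d ≤ max (L a b + L c d) (L a d + L b c)) :
    (∀ s, s ≠ 0 → ν (-s) = ν s) ∧
    (∀ a b, a ≠ 0 → b ≠ 0 → a + b ≠ 0 → ν (a + b) ≤ max (ν a) (ν b)) := by
  have hev : ∀ s, s ≠ 0 → ν (-s) = ν s := by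
    intro s hs0
    have e1 := hν 0 s (Ne.symm hs0)
    have e2 := hν s 0 hs0
    rw [hs s 0, e1] at e2
    rw [sub_zero, zero_sub] at e2
    linarith
  refine ⟨hev, ?_⟩
  -- the four point inequality for ν
  have k4 : ∀ a b c d, a ≠ b → a ≠ c → a ≠ d → b ≠ c → b ≠ d → c ≠ d →
      ν (c - a) + ν (d - b) ≤ max (ν (b - a) + ν (d - c)) (ν (d - a) + ν (c - b)) := by
    intro a b c d e1 e2 e3 e4 e5 e6
    have := h4 a b c d e1 e2 e3 e4 e5 e6
    rw [hν a c e2, hν b d e5, hν a b e1, hν c d e6, hν a d e3, hν b c e4] at this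
    rcases le_max_iff.mp this with h | h
    · apply le_max_of_le_left; linarith
    · apply le_max_of_le_right; linarith
  -- parallelogram
  have par : ∀ s t : ZMod q, s ≠ 0 → t ≠ 0 → s + t ≠ 0 → s ≠ t →
      ν (s + t) + ν (s - t) ≤ max (2 * ν s) (2 * ν t) ∧
      2 * ν s ≤ max (ν (s + t) + ν (s - t)) (2 * ν t) := by
    intro s t hs0 ht0 hst hne
    have n1 : (0 : ZMod q) ≠ s := Ne.symm hs0
    have n2 : (0 : ZMod q) ≠ t := Ne.symm ht0
    have n3 : (0 : ZMod q) ≠ s + t := Ne.symm hst
    have n4 : s ≠ s + t := fun h => ht0 (by simpa using h.symm)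
    have n5 : t ≠ s + t := fun h => hs0 (by simpa using h.symm)
    constructor
    · -- a = 0, c = s + t, b = s, d = t
      have := k4 0 s (s + t) t n1 n3 n2 n4 hne (Ne.symm n5)
      have e1 : s + t - 0 = s + t := by ring
      have e2 : t - s = -(s - t) := by ring
      have e3 : s - 0 = s := by ring
      have e4 : t - (s + t) = -s := by ring
      have e5 : t - 0 = t := by ring
      have e6 : s + t - s = t := by ring
      rw [e1, e2, e3, e4, e5, e6, hev _ (sub_ne_zero.mpr hne), hev s hs0] at this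
      refine this.trans (le_of_eq ?_)
      congr 1 <;> ring
    · -- a = 0, c = s, b = t, d = s + t
      have := k4 0 t s (s + t) n2 n1 n3 (Ne.symm hne) n5 n4
      have e3 : s - 0 = s := by ring
      have e5 : t - 0 = t := by ring
      have e1 : s + t - 0 = s + t := by ring
      have e6 : s + t - t = s := by ring
      have e7 : s + t - s = t := by ring
      rw [e1, e3, e5, e6, e7] at this
      have h : 2 * ν s ≤ max (2 * ν t) (ν (s + t) + ν (s - t)) := by
        refine le_trans (le_of_eq ?_) (this.trans (le_of_eq ?_))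
        · ring
        · congr 1; ring
      rw [max_comm]
      exact h
  intro a b ha hb hab
  by_contra hcon
  rw [not_le] at hcon
  have hma : ν a < ν (a + b) := lt_of_le_of_lt (le_max_left _ _) hcon
  have hmb : ν b < ν (a + b) := lt_of_le_of_lt (le_max_right _ _) hcon
  set δ := ν (a + b) - ν a with hδ
  have hδ0 : 0 < δ := by rw [hδ]; linarith
  have key : ∀ n : ℕ, a + n * b ≠ 0 ∧ a + (n + 1) * b ≠ 0 ∧
      ν (a + (n + 1) * b) - ν (a + n * b) = δ ∧ ν b < ν (a + (n + 1) * b) := by
    intro n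
    induction n with
    | zero =>
      have e1 : a + ((0 : ℕ) : ZMod q) * b = a := by simp
      have e2 : a + (((0 : ℕ) : ZMod q) + 1) * b = a + b := by simp
      rw [e1, e2]
      exact ⟨ha, hab, rfl, hmb⟩
    | succ n ih =>
      obtain ⟨i1, i2, i3, i4⟩ := ih
      have e0 : a + (((n + 1 : ℕ) : ZMod q)) * b = a + ((n : ZMod q) + 1) * b := by push_cast; ring
      have e1 : a + (((n + 1 : ℕ) : ZMod q) + 1) * b = (a + ((n : ZMod q) + 1) * b) + b := by
        push_cast; ring
      set s := a + ((n : ZMod q) + 1) * b with hsdef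
      have hsb : s - b = a + n * b := by rw [hsdef]; ring
      rw [e0, e1]
      have hne0 : s + b ≠ 0 := by
        intro h
        have : s = -b := eq_neg_of_add_eq_zero_left h
        rw [this, hev b hb] at i4
        exact lt_irrefl _ i4
      have hsne : s ≠ b := by
        intro h
        apply i1
        rw [← hsb, h, sub_self]
      obtain ⟨p1, p2⟩ := par s b i2 hb hne0 hsne
      rw [hsb] at p1 p2
      have h5 : ν (s + b) + ν (a + n * b) ≤ 2 * ν s := by
        rcases le_max_iff.mp p1 with h | h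
        · exact h
        · linarith
      have h6 : 2 * ν s ≤ ν (s + b) + ν (a + n * b) := by
        rcases le_max_iff.mp p2 with h | h
        · exact h
        · linarith
      refine ⟨i2, hne0, by linarith, by linarith⟩
  have grow : ∀ n : ℕ, ν (a + n * b) = ν a + n * δ := by
    intro n
    induction n with
    | zero => simp
    | succ n ih =>
      have := (key n).2.2.1
      have e0 : a + (((n + 1 : ℕ) : ZMod q)) * b = a + ((n : ZMod q) + 1) * b := by push_cast; ring
      rw [e0]
      push_cast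
      linarith
  have := grow q
  rw [ZMod.natCast_self, zero_mul, add_zero] at this
  have hq0 : (0 : ℝ) < q := by exact_mod_cast Nat.pos_of_ne_zero (NeZero.ne q)
  nlinarith

end

end Pool.Agent.UBC
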