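import Pool.Agent.UBC.PLine.Approx
import Pool.Agent.UBC.PLine.Four

set_option autoImplicit false
set_option linter.unusedSectionVars false

/-!
# Cycles of compositions of good steps on the projective line, abstractly
-/

namespace Pool.Agent.UBC

/-- A cycle of length `q` of a composition of `R` steps, with the wedge products `W T a b` of the
points of the cycle after `T` steps. -/
structure Cyc (L : Type*) [NormedField L] (q : ℕ) where
  R : ℕ
  W : ℕ → ZMod q → ZMod q → L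
  P : ℕ → ZMod q → ZMod q → L
  j : ℕ → ZMod q → L
  rel : ℕ → ZMod q → ZMod q → Prop
  R_pos : 0 < R
  W_eq_zero : ∀ T a b, W T a b = 0 ↔ a = b
  W_swap : ∀ T a b, W T b a = - W T a b
  plucker : ∀ T a b c d, W T a b * W T c d - W T a c * W T b d + W T a d * W T b c = 0
  step : ∀ T a b, W (T + 1) a b = P T a b * W T a b * (j T a * j T b)
  cyc : ∀ T a b, W (T + R) a b = W T (a + 1) (b + 1)
  j_ne : ∀ T a, j T a ≠ 0
  P_ne : ∀ T a b, a ≠ b → P T a b ≠ 0
  P_symm : ∀ T a b, P T a b = P T b a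
  mono : ∀ T a b c d, a ≠ b → a ≠ c → a ≠ d → b ≠ c → b ≠ d → c ≠ d →
    ‖W T a b‖ * ‖W T c d‖ ≤ ‖W T a c‖ * ‖W T b d‖ → ‖P T a b‖ * ‖P T c d‖ ≤ ‖P T a c‖ * ‖P T b d‖
  near : ∀ T a b c, b ≠ c → rel T b c → Near (P T a b) (P T a c)
  tri : ∀ T a b c d, a ≠ b → a ≠ c → a ≠ d → b ≠ c → b ≠ d → c ≠ d → ¬ rel T a b → ¬ rel T c d →
    ‖W T a b‖ * ‖W T c d‖ < ‖W T a c‖ * ‖W T b d‖ → ‖P T a b‖ * ‖P T c d‖ < ‖P T a c‖ * ‖P T b d‖

namespace Cyc

variable {L : Type*} [NormedField L] [IsUltrametricDist L] {q : ℕ} [NeZero q] (C : Cyc L q)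

/-- logarithm of the distance -/
noncomputable def lg (T : ℕ) (a b : ZMod q) : ℝ := Real.log ‖C.W T a b‖

/-- logarithm of the cross ratio -/
noncomputable def cr (T : ℕ) (a b c d : ZMod q) : ℝ :=
  C.lg T a b + C.lg T c d - C.lg T a c - C.lg T b d

theorem W_pos (T : ℕ) {a b : ZMod q} (h : a ≠ b) : 0 < ‖C.W T a b‖ :=
  norm_pos_iff.mpr (fun e => h ((C.W_eq_zero T a b).mp e))

theorem W_ne (T : ℕ) {a b : ZMod q} (h : a ≠ b) : C.W T a b ≠ 0 :=
  fun e => h ((C.W_eq_zero T a b).mp e)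

theorem W_norm_swap (T : ℕ) (a b : ZMod q) : ‖C.W T b a‖ = ‖C.W T a b‖ := by
  rw [C.W_swap, norm_neg]

theorem lg_swap (T : ℕ) (a b : ZMod q) : C.lg T b a = C.lg T a b := by
  unfold lg; rw [W_norm_swap]

theorem lg_self (T : ℕ) (a : ZMod q) : C.lg T a a = 0 := by
  unfold lg; rw [(C.W_eq_zero T a a).mpr rfl]; simp

theorem cr_swap (T : ℕ) (a b c d : ZMod q) : C.cr T a c b d = - C.cr T a b c d := by
  unfold cr; ring

theorem lg_step (T : ℕ) {a b : ZMod q} (h : a ≠ b) :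
    C.lg (T + 1) a b = Real.log ‖C.P T a b‖ + C.lg T a b +
      (Real.log ‖C.j T a‖ + Real.log ‖C.j T b‖) := by
  have h1 := C.W_pos T h
  have h2 : 0 < ‖C.P T a b‖ := norm_pos_iff.mpr (C.P_ne T a b h)
  have h3 : 0 < ‖C.j T a‖ := norm_pos_iff.mpr (C.j_ne T a)
  have h4 : 0 < ‖C.j T b‖ := norm_pos_iff.mpr (C.j_ne T b)
  unfold lg
  rw [C.step, norm_mul, norm_mul, norm_mul, Real.log_mul (by positivity) (by positivity),
    Real.log_mul h2.ne' h1.ne', Real.log_mul h3.ne' h4.ne']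

theorem prod_le_iff {x y z t : ℝ} (hx : 0 < x) (hy : 0 < y) (hz : 0 < z) (ht : 0 < t) :
    x * y ≤ z * t ↔ Real.log x + Real.log y - Real.log z - Real.log t ≤ 0 := by
  rw [← Real.log_le_log_iff (by positivity) (by positivity), Real.log_mul hx.ne' hy.ne',
    Real.log_mul hz.ne' ht.ne']
  constructor <;> intro h <;> linarith

theorem prod_lt_iff {x y z t : ℝ} (hx : 0 < x) (hy : 0 < y) (hz : 0 < z) (ht : 0 < t) :
    x * y < z * t ↔ Real.log x + Real.log y - Real.log z - Real.log t < 0 := by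
  rw [← Real.log_lt_log_iff (by positivity) (by positivity), Real.log_mul hx.ne' hy.ne',
    Real.log_mul hz.ne' ht.ne']
  constructor <;> intro h <;> linarith

section distinct
variable {a b c d : ZMod q} (e1 : a ≠ b) (e2 : a ≠ c) (e3 : a ≠ d) (e4 : b ≠ c) (e5 : b ≠ d)
  (e6 : c ≠ d)
include e1 e2 e3 e4 e5 e6

theorem cr_succ_le (T : ℕ) (h : C.cr T a b c d ≤ 0) : C.cr (T + 1) a b c d ≤ C.cr T a b c d := by
  have h1 := (prod_le_iff (C.W_pos T e1) (C.W_pos T e6) (C.W_pos T e2) (C.W_pos T e5)).mpr h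
  have h2 := C.mono T a b c d e1 e2 e3 e4 e5 e6 h1
  have p : ∀ {a b : ZMod q}, a ≠ b → 0 < ‖C.P T a b‖ := fun h => norm_pos_iff.mpr (C.P_ne T _ _ h)
  have h3 := (prod_le_iff (p e1) (p e6) (p e2) (p e5)).mp h2
  unfold cr
  rw [C.lg_step T e1, C.lg_step T e6, C.lg_step T e2, C.lg_step T e5]
  linarith

end distinct

theorem W_cyc_mul (T k : ℕ) (a b : ZMod q) : C.W (T + C.R * k) a b = C.W T (a + k) (b + k) := by
  induction k generalizing a b with
  | zero => simp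
  | succ k ih =>
    have e : T + C.R * (k + 1) = (T + C.R * k) + C.R := by ring
    rw [e, C.cyc, ih]
    push_cast
    congr 1 <;> ring

theorem cr_cyc (T k : ℕ) (a b c d : ZMod q) :
    C.cr (T + C.R * k) a b c d = C.cr T (a + k) (b + k) (c + k) (d + k) := by
  unfold cr lg
  simp only [W_cyc_mul]

section distinct
variable {a b c d : ZMod q} (e1 : a ≠ b) (e2 : a ≠ c) (e3 : a ≠ d) (e4 : b ≠ c) (e5 : b ≠ d)
  (e6 : c ≠ d)
include e1 e2 e3 e4 e5 e6

theorem cr_const_of_nonpos (h : C.cr 0 a b c d ≤ 0) (T : ℕ) : C.cr T a b c d = C.cr 0 a b c d := by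
  have hle : ∀ T, C.cr T a b c d ≤ 0 := by
    intro T
    induction T with
    | zero => exact h
    | succ T ih => exact (C.cr_succ_le e1 e2 e3 e4 e5 e6 T ih).trans ih
  have hanti : Antitone (fun T => C.cr T a b c d) :=
    antitone_nat_of_succ_le (fun T => C.cr_succ_le e1 e2 e3 e4 e5 e6 T (hle T))
  have hper : ∀ k : ℕ, C.cr (0 + C.R * (q * k)) a b c d = C.cr 0 a b c d := by
    intro k
    rw [cr_cyc]
    have : (((q * k : ℕ)) : ZMod q) = 0 := by push_cast; rw [ZMod.natCast_self, zero_mul]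
    rw [this]
    simp
  have hRq : 0 < C.R * q := Nat.mul_pos C.R_pos (Nat.pos_of_ne_zero (NeZero.ne q))
  apply le_antisymm
  · exact hanti (Nat.zero_le T)
  · have h1 : T ≤ 0 + C.R * (q * T) := by nlinarith
    have h2 := hanti h1
    simp only at h2
    rw [hper T] at h2
    exact h2

theorem cr_const (T : ℕ) : C.cr T a b c d = C.cr 0 a b c d := by
  rcases le_total (C.cr 0 a b c d) 0 with h | h
  · exact C.cr_const_of_nonpos e1 e2 e3 e4 e5 e6 h T
  · have h1 : C.cr 0 a c b d ≤ 0 := by rw [cr_swap]; linarith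
    have h2 := C.cr_const_of_nonpos e2 e1 e3 (Ne.symm e4) e6 e5 h1 T
    rw [cr_swap, C.cr_swap 0] at h2
    linarith

/-- The cross ratios of the factors `P` are trivial. -/
theorem P_trivial (T : ℕ) : ¬ (‖C.P T a b‖ * ‖C.P T c d‖ < ‖C.P T a c‖ * ‖C.P T b d‖) := by
  have p : ∀ {a b : ZMod q}, a ≠ b → 0 < ‖C.P T a b‖ := fun h => norm_pos_iff.mpr (C.P_ne T _ _ h)
  rw [prod_lt_iff (p e1) (p e6) (p e2) (p e5)]
  have h1 := C.cr_const e1 e2 e3 e4 e5 e6 T
  have h2 := C.cr_const e1 e2 e3 e4 e5 e6 (T + 1)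
  rw [← h1] at h2
  unfold cr at h2
  rw [C.lg_step T e1, C.lg_step T e6, C.lg_step T e2, C.lg_step T e5] at h2
  linarith

end distinct

/-- The normalised distance. -/
structure Normal (ν u : ZMod q → ℝ) : Prop where
  eq : ∀ a b, a ≠ b → C.lg 0 a b = ν (b - a) + u a + u b
  even : ∀ s, s ≠ 0 → ν (-s) = ν s
  ultra : ∀ a b, a ≠ 0 → b ≠ 0 → a + b ≠ 0 → ν (a + b) ≤ max (ν a) (ν b)

theorem exists_normal (hq : 4 ≤ q) : ∃ ν u, C.Normal ν u := by
  obtain ⟨ν, u, h⟩ := Pool.Agent.UBC.exists_normal hq (C.lg 0) (fun a b => C.lg_swap 0 b a)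
    (C.lg_self 0) (by
      intro a b c d e1 e2 e3 e4 e5 e6
      have h1 := C.cr_cyc 0 1 a b c d
      rw [C.cr_const e1 e2 e3 e4 e5 e6] at h1
      unfold cr at h1
      push_cast at h1
      linarith)
  have hmain := normal_ultra (C.lg 0) (fun a b => C.lg_swap 0 b a) ν u h (by
    intro a b c d e1 e2 e3 e4 e5 e6
    have hp := C.plucker 0 a b c d
    have h1 : C.W 0 a c * C.W 0 b d = C.W 0 a b * C.W 0 c d + C.W 0 a d * C.W 0 b c := by
      linear_combination -hp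
    have h2 : ‖C.W 0 a c‖ * ‖C.W 0 b d‖ ≤
        max (‖C.W 0 a b‖ * ‖C.W 0 c d‖) (‖C.W 0 a d‖ * ‖C.W 0 b c‖) := by
      rw [← norm_mul, ← norm_mul, ← norm_mul, h1]
      exact IsUltrametricDist.norm_add_le_max _ _
    have p : ∀ {a b : ZMod q}, a ≠ b → 0 < ‖C.W 0 a b‖ := fun h => C.W_pos 0 h
    rcases le_max_iff.mp h2 with h3 | h3
    · apply le_max_of_le_left
      have := (prod_le_iff (p e2) (p e5) (p e1) (p e6)).mp h3
      unfold lg; linarith
    · apply le_max_of_le_right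
      have := (prod_le_iff (p e2) (p e5) (p e3) (p e4)).mp h3
      unfold lg; linarith)
  exact ⟨ν, u, h, hmain.1, hmain.2⟩

variable {C} {ν u : ZMod q → ℝ} (N : C.Normal ν u)
include N

theorem Normal.cr_eq {a b c d : ZMod q} (e1 : a ≠ b) (e2 : a ≠ c) (e3 : a ≠ d) (e4 : b ≠ c)
    (e5 : b ≠ d) (e6 : c ≠ d) (T : ℕ) :
    C.cr T a b c d = ν (b - a) + ν (d - c) - ν (c - a) - ν (d - b) := by
  rw [C.cr_const e1 e2 e3 e4 e5 e6]
  unfold cr
  rw [N.eq a b e1, N.eq c d e6, N.eq a c e2, N.eq b d e5]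
  ring

theorem Normal.W_lt {a b c d : ZMod q} (e1 : a ≠ b) (e2 : a ≠ c) (e3 : a ≠ d) (e4 : b ≠ c)
    (e5 : b ≠ d) (e6 : c ≠ d) (T : ℕ)
    (h : ν (b - a) + ν (d - c) < ν (c - a) + ν (d - b)) :
    ‖C.W T a b‖ * ‖C.W T c d‖ < ‖C.W T a c‖ * ‖C.W T b d‖ := by
  rw [prod_lt_iff (C.W_pos T e1) (C.W_pos T e6) (C.W_pos T e2) (C.W_pos T e5)]
  have := N.cr_eq e1 e2 e3 e4 e5 e6 T
  unfold cr lg at this
  linarith

/-- Balls are subgroups. -/
def Normal.ball (U : Set ℝ) (hU : IsLowerSet U) : AddSubgroup (ZMod q) where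
  carrier := {s | s = 0 ∨ ν s ∈ U}
  zero_mem' := Or.inl rfl
  add_mem' := by
    intro a b ha hb
    simp only [Set.mem_setOf_eq] at *
    by_cases h1 : a = 0
    · rw [h1, zero_add]; exact hb
    by_cases h2 : b = 0
    · rw [h2, add_zero]; exact ha
    by_cases h3 : a + b = 0
    · exact Or.inl h3
    right
    have hA := ha.resolve_left h1
    have hB := hb.resolve_left h2
    rcases le_max_iff.mp (N.ultra a b h1 h2 h3) with h | h
    · exact hU h hA
    · exact hU h hB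
  neg_mem' := by
    intro a ha
    simp only [Set.mem_setOf_eq] at *
    rcases ha with h | h
    · left; rw [h, neg_zero]
    · by_cases h1 : a = 0
      · left; rw [h1, neg_zero]
      · right; rw [N.even a h1]; exact h

theorem Normal.mem_ball {U : Set ℝ} {hU : IsLowerSet U} {s : ZMod q} :
    s ∈ N.ball U hU ↔ s = 0 ∨ ν s ∈ U := Iff.rfl

omit N in
/-- The ball property. -/
def IsBall (ν : ZMod q → ℝ) (H : AddSubgroup (ZMod q)) : Prop :=
  ∀ s ∈ H, s ≠ 0 → ∀ t, t ∉ H → ν s < ν t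

theorem Normal.isBall (U : Set ℝ) (hU : IsLowerSet U) : IsBall ν (N.ball U hU) := by
  intro s hs hs0 t ht
  rw [N.mem_ball] at hs ht
  push Not at ht
  have h1 := hs.resolve_left hs0
  by_contra hcon
  rw [not_lt] at hcon
  exact ht.2 (hU hcon h1)

/-- For every coset of a ball, the coset or its complement lies in a class. -/
theorem Normal.dich {H : AddSubgroup (ZMod q)} (hH : IsBall ν H) (T : ℕ) (c : ZMod q) :
    (∀ a b, a - c ∈ H → b - c ∈ H → a ≠ b → C.rel T a b) ∨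
    (∀ a b, a - c ∉ H → b - c ∉ H → a ≠ b → C.rel T a b) := by
  by_contra hcon
  push Not at hcon
  obtain ⟨⟨a, b, ha, hb, hab, hr⟩, ⟨x, y, hx, hy, hxy, hr'⟩⟩ := hcon
  have hba : b - a ∈ H := by
    have : b - a = (b - c) - (a - c) := by ring
    rw [this]; exact H.sub_mem hb ha
  have hba0 : b - a ≠ 0 := sub_ne_zero.mpr (Ne.symm hab)
  have out : ∀ s t, s - c ∈ H → t - c ∉ H → t - s ∉ H ∧ s ≠ t := by
    intro s t hs ht
    have h1 : t - s ∉ H := by
      intro h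
      apply ht
      have : t - c = (t - s) + (s - c) := by ring
      rw [this]; exact H.add_mem h hs
    exact ⟨h1, fun e => h1 (by rw [e, sub_self]; exact H.zero_mem)⟩
  obtain ⟨o1, e2⟩ := out a x ha hx
  obtain ⟨o2, e3⟩ := out a y ha hy
  obtain ⟨o3, e4⟩ := out b x hb hx
  obtain ⟨o4, e5⟩ := out b y hb hy
  apply C.P_trivial hab e2 e3 e4 e5 hxy T
  apply C.tri T a b x y hab e2 e3 e4 e5 hxy hr hr'
  apply N.W_lt hab e2 e3 e4 e5 hxy
  have n1 := hH _ hba hba0 _ o1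
  have n2 := hH _ hba hba0 _ o4
  -- ν (y - x) ≤ max (ν (y - b)) (ν (x - b))
  have m1 : ν (y - x) ≤ max (ν (y - b)) (ν (x - b)) := by
    have h1 : y - x = (y - b) + (-(x - b)) := by ring
    have h2 : x - b ≠ 0 := sub_ne_zero.mpr (Ne.symm e4)
    have := N.ultra (y - b) (-(x - b)) (sub_ne_zero.mpr (Ne.symm e5)) (neg_ne_zero.mpr h2)
      (by rw [← h1]; exact sub_ne_zero.mpr (Ne.symm hxy))
    rw [← h1, N.even _ h2] at this
    exact this
  have m2 : ν (x - b) ≤ ν (x - a) := by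
    have h1 : x - b = (x - a) + (-(b - a)) := by ring
    have := N.ultra (x - a) (-(b - a)) (sub_ne_zero.mpr (Ne.symm e2)) (neg_ne_zero.mpr hba0)
      (by rw [← h1]; exact sub_ne_zero.mpr (Ne.symm e4))
    rw [← h1, N.even _ hba0] at this
    exact this.trans (max_le le_rfl n1.le)
  rcases le_max_iff.mp m1 with h | h
  · linarith
  · linarith

end Cyc

end Pool.Agent.UBC
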