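import Pool.Agent.UBC.PLine.Rat

set_option autoImplicit false
set_option linter.unusedSectionVars false

/-!
# The generators as rational functions
-/

namespace Pool.Agent.UBC

open OnePoint Polynomial

section
variable {K : Type*} [Field K]

theorem isRat_mobius [DecidableEq K] (g : GL (Fin 2) K) : IsRat 1 (fun z : OnePoint K => g • z) := by
  have hdet : g 0 0 * g 1 1 - g 0 1 * g 1 0 ≠ 0 := by
    have := g.det_ne_zero
    rwa [Matrix.det_fin_two] at this
  refine ⟨C (g 0 0) * X + C (g 0 1), C (g 1 0) * X + C (g 1 1), natDegree_linear_le,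
    natDegree_linear_le, ?_, ?_⟩
  · refine ⟨C (- g 1 0 / (g 0 0 * g 1 1 - g 0 1 * g 1 0)),
      C (g 0 0 / (g 0 0 * g 1 1 - g 0 1 * g 1 0)), ?_⟩
    have e1 : C (- g 1 0 / (g 0 0 * g 1 1 - g 0 1 * g 1 0)) * C (g 0 0) +
        C (g 0 0 / (g 0 0 * g 1 1 - g 0 1 * g 1 0)) * C (g 1 0) = 0 := by
      rw [← C_mul, ← C_mul, ← C_add]
      have : - g 1 0 / (g 0 0 * g 1 1 - g 0 1 * g 1 0) * g 0 0 +
          g 0 0 / (g 0 0 * g 1 1 - g 0 1 * g 1 0) * g 1 0 = 0 := by
        rw [div_mul_eq_mul_div, div_mul_eq_mul_div, ← add_div]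
        have : - g 1 0 * g 0 0 + g 0 0 * g 1 0 = 0 := by ring
        rw [this, zero_div]
      rw [this, C_0]
    have e2 : C (- g 1 0 / (g 0 0 * g 1 1 - g 0 1 * g 1 0)) * C (g 0 1) +
        C (g 0 0 / (g 0 0 * g 1 1 - g 0 1 * g 1 0)) * C (g 1 1) = 1 := by
      rw [← C_mul, ← C_mul, ← C_add]
      have : - g 1 0 / (g 0 0 * g 1 1 - g 0 1 * g 1 0) * g 0 1 +
          g 0 0 / (g 0 0 * g 1 1 - g 0 1 * g 1 0) * g 1 1 = 1 := by
        rw [div_mul_eq_mul_div, div_mul_eq_mul_div, ← add_div, div_eq_one_iff_eq hdet]; ring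
      rw [this, C_1]
    linear_combination X * e1 + e2
  · intro z
    obtain ⟨c, hc, h1, h2⟩ := mobius_coords g z
    refine ⟨c⁻¹, inv_ne_zero hc, ?_, ?_⟩
    · rw [h1, inv_mul_cancel_left₀ hc]
      induction z using OnePoint.rec with
      | coe x => simp [ev_coe]
      | infty => simp [ev_infty, coeff_C]
    · rw [h2, inv_mul_cancel_left₀ hc]
      induction z using OnePoint.rec with
      | coe x => simp [ev_coe]
      | infty => simp [ev_infty, coeff_C]

theorem dickson_monic' (h : K) (n : ℕ) :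
    (Polynomial.dickson 1 h (n + 1)).Monic ∧ (Polynomial.dickson 1 h (n + 1)).natDegree = n + 1 ∧
      (Polynomial.dickson 1 h n).natDegree ≤ n := by
  induction n with
  | zero =>
    refine ⟨?_, ?_, ?_⟩
    · simp
    · simp
    · rw [Polynomial.dickson_zero]
      have : (3 - ((1 : ℕ) : K[X])) = C (2 : K) := by
        rw [map_ofNat]; norm_num
      rw [this, natDegree_C]
  | succ n ih =>
    obtain ⟨h1, h2, h3⟩ := ih
    have e := Polynomial.dickson_add_two 1 h n
    have hX : (X * Polynomial.dickson 1 h (n + 1)).Monic := monic_X.mul h1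
    have hXd : (X * Polynomial.dickson 1 h (n + 1)).natDegree = n + 2 := by
      rw [monic_X.natDegree_mul h1, natDegree_X, h2]; ring
    have hlt : (C h * Polynomial.dickson 1 h n).degree <
        (X * Polynomial.dickson 1 h (n + 1)).degree := by
      rw [degree_eq_natDegree hX.ne_zero, hXd]
      apply lt_of_le_of_lt degree_le_natDegree
      have : (C h * Polynomial.dickson 1 h n).natDegree ≤ n := (natDegree_C_mul_le _ _).trans h3
      exact_mod_cast (by omega : (C h * Polynomial.dickson 1 h n).natDegree < n + 2)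
    refine ⟨?_, ?_, ?_⟩
    · rw [e]; exact hX.sub_of_left hlt
    · rw [e]
      have := natDegree_eq_of_degree_eq (degree_sub_eq_left_of_degree_lt hlt)
      rw [this, hXd]
    · rw [h2]

/-- polynomial maps with monic polynomials -/
theorem isRat_monic {n : ℕ} (hn : 1 ≤ n) {P : K[X]} (hP : P.Monic) (hd : P.natDegree = n) :
    IsRat n (OnePoint.map (fun x => P.eval x)) := by
  refine ⟨P, 1, hd.le, by simp, isCoprime_one_right, ?_⟩
  intro z
  refine ⟨1, one_ne_zero, ?_, ?_⟩
  · induction z using OnePoint.rec with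
    | coe x => simp [ev_coe]
    | infty =>
      rw [ev_infty]
      have : P.coeff n = 1 := by rw [← hd]; exact hP
      simp [this]
  · induction z using OnePoint.rec with
    | coe x => simp [ev_coe]
    | infty =>
      rw [ev_infty, coeff_one, if_neg (by omega)]
      simp

theorem isRat_dickson (h : K) {n : ℕ} (hn : 1 ≤ n) :
    IsRat n (OnePoint.map (fun x => (Polynomial.dickson 1 h n).eval x)) := by
  obtain ⟨m, rfl⟩ : ∃ m, n = m + 1 := ⟨n - 1, by omega⟩
  obtain ⟨h1, h2, _⟩ := dickson_monic' h m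
  exact isRat_monic hn h1 h2

/-- numerator and denominator of the Rédei function -/
noncomputable def rdN (α : K) : ℕ → K[X] × K[X]
  | 0 => (1, 0)
  | n + 1 => (X * (rdN α n).1 + C α * (rdN α n).2, (rdN α n).1 + X * (rdN α n).2)

theorem rdN_deg (α : K) (n : ℕ) : (rdN α n).1.natDegree ≤ n ∧ (rdN α n).1.coeff n = 1 ∧
    (rdN α n).2.natDegree ≤ n ∧ (rdN α n).2.coeff n = 0 := by
  induction n with
  | zero => simp [rdN]
  | succ n ih =>
    obtain ⟨h1, h2, h3, h4⟩ := ih
    have hX : ∀ P : K[X], P.natDegree ≤ n → (X * P).natDegree ≤ n + 1 := by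
      intro P hP
      refine natDegree_mul_le.trans ?_
      rw [natDegree_X]; omega
    refine ⟨?_, ?_, ?_, ?_⟩
    · rw [rdN]
      refine (natDegree_add_le _ _).trans (max_le (hX _ h1) ?_)
      exact ((natDegree_C_mul_le _ _).trans h3).trans (Nat.le_succ n)
    · rw [rdN]
      simp only [coeff_add, coeff_X_mul, coeff_C_mul, h2]
      rw [coeff_eq_zero_of_natDegree_lt (Nat.lt_succ_of_le h3)]
      ring
    · rw [rdN]
      exact (natDegree_add_le _ _).trans (max_le (h1.trans (Nat.le_succ n)) (hX _ h3))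
    · rw [rdN]
      simp only [coeff_add, coeff_X_mul, h4]
      rw [coeff_eq_zero_of_natDegree_lt (Nat.lt_succ_of_le h1)]
      ring

theorem rdN_eval (α x : K) (n : ℕ) : (rdN α n).1.eval x =
    ((⟨x, 1⟩ : QuadraticAlgebra K α 0) ^ n).re ∧ (rdN α n).2.eval x =
    ((⟨x, 1⟩ : QuadraticAlgebra K α 0) ^ n).im := by
  induction n with
  | zero => simp [rdN, QuadraticAlgebra.re_one, QuadraticAlgebra.im_one]
  | succ n ih =>
    rw [rdN, pow_succ]
    simp only [eval_add, eval_mul, eval_X, eval_C, QuadraticAlgebra.re_mul,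
      QuadraticAlgebra.im_mul, ih.1, ih.2]
    constructor <;> ring

theorem rdN_coprime {α : K} (hα : ¬ IsSquare α) (h2 : (2 : K) ≠ 0) (n : ℕ) :
    IsCoprime (rdN α n).1 (rdN α n).2 := by
  refine (isCoprime_iff_aeval_ne_zero_of_isAlgClosed K (AlgebraicClosure K) _ _).mpr ?_
  intro a
  by_contra hcon
  push Not at hcon
  obtain ⟨e1, e2⟩ := hcon
  set i := algebraMap K (AlgebraicClosure K) with hi
  have hnorm : ∀ n, aeval a (rdN α n).1 ^ 2 - i α * aeval a (rdN α n).2 ^ 2 = (a ^ 2 - i α) ^ n := by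
    intro n
    induction n with
    | zero => simp [rdN]
    | succ n ih =>
      rw [pow_succ (a ^ 2 - i α) n, ← ih, rdN]
      simp only [map_add, map_mul, aeval_X, aeval_C]
      ring
  have h1 := hnorm n
  rw [e1, e2] at h1
  have h3 : a ^ 2 - i α = 0 := by
    by_contra h
    apply pow_ne_zero n h
    rw [← h1]; ring
  have hsum : ∀ n, aeval a (rdN α n).1 + a * aeval a (rdN α n).2 = (2 * a) ^ n := by
    intro n
    induction n with
    | zero => simp [rdN]
    | succ n ih =>
      rw [pow_succ (2 * a) n, ← ih, rdN]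
      simp only [map_add, map_mul, aeval_X, aeval_C]
      linear_combination (- aeval a (rdN α n).2) * h3
  have h4 := hsum n
  rw [e1, e2] at h4
  have h5 : 2 * a = 0 := by
    by_contra h
    apply pow_ne_zero n h
    rw [← h4]; ring
  have h6 : (2 : AlgebraicClosure K) ≠ 0 := by
    intro h
    apply h2
    have h7 : i 2 = 0 := by rw [map_ofNat, h]
    exact (map_eq_zero i).mp h7
  have h7 : a = 0 := by
    rcases mul_eq_zero.mp h5 with h | h
    · exact absurd h h6
    · exact h
  rw [h7] at h3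
  have h8 : i α = 0 := by linear_combination -h3
  have h9 : α = 0 := (map_eq_zero i).mp h8
  exact hα ⟨0, by rw [h9]; ring⟩

theorem isRat_redei {α : K} (hα : ¬ IsSquare α) (h2 : (2 : K) ≠ 0) (n : ℕ) :
    IsRat n (redeiMap α n) := by
  obtain ⟨d1, d2, d3, d4⟩ := rdN_deg α n
  refine ⟨(rdN α n).1, (rdN α n).2, d1, d3, rdN_coprime hα h2 n, ?_⟩
  intro z
  obtain ⟨c, hc, h1, h3⟩ := redei_coords hα n z
  refine ⟨c⁻¹, inv_ne_zero hc, ?_, ?_⟩
  · rw [h1, inv_mul_cancel_left₀ hc]
    induction z using OnePoint.rec with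
    | coe x => rw [ev_coe]; exact (rdN_eval α x n).1
    | infty =>
      have : qA α (∞ : OnePoint K) = 1 := by
        ext <;> simp [qA, QuadraticAlgebra.re_one, QuadraticAlgebra.im_one]
      rw [this, one_pow, ev_infty, d2, QuadraticAlgebra.re_one]
  · rw [h3, inv_mul_cancel_left₀ hc]
    induction z using OnePoint.rec with
    | coe x => rw [ev_coe]; exact (rdN_eval α x n).2
    | infty =>
      have : qA α (∞ : OnePoint K) = 1 := by
        ext <;> simp [qA, QuadraticAlgebra.re_one, QuadraticAlgebra.im_one]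
      rw [this, one_pow, ev_infty, d4, QuadraticAlgebra.im_one]

end

end Pool.Agent.UBC
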