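import Pool.Agent.UBC.PLine.Orbit

set_option autoImplicit false
set_option linter.unusedSectionVars false

/-!
# Étale permutations of the residual projective line as steps
-/

namespace Pool.Agent.UBC

open OnePoint Polynomial

section ring
variable {R : Type*} [CommRing R]

/-- value of the form of degree `n` with coefficients `f` -/
def hv (n : ℕ) (f : ℕ → R) (a b : R) : R := ∑ i ∈ Finset.range (n + 1), f i * (a ^ i * b ^ (n - i))

/-- the Bezoutian of two forms -/
def bez (n : ℕ) (f g : ℕ → R) (a b a' b' : R) : R :=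
  ∑ i ∈ Finset.range (n + 1), ∑ j ∈ Finset.range i, (f i * g j - f j * g i) *
    ((a * a') ^ j * (b * b') ^ (n - i) *
      ∑ k ∈ Finset.range (i - j), (a * b') ^ k * (b * a') ^ (i - j - 1 - k))

theorem bez_eq (n : ℕ) (f g : ℕ → R) (a b a' b' : R) :
    hv n f a b * hv n g a' b' - hv n g a b * hv n f a' b' =
      bez n f g a b a' b' * (a * b' - b * a') := by
  -- term for a pair of indices
  have key : ∀ i j, j ≤ i → i ≤ n → (a ^ i * b ^ (n - i)) * (a' ^ j * b' ^ (n - j)) -
      (a ^ j * b ^ (n - j)) * (a' ^ i * b' ^ (n - i)) =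
      ((a * a') ^ j * (b * b') ^ (n - i) *
        ∑ k ∈ Finset.range (i - j), (a * b') ^ k * (b * a') ^ (i - j - 1 - k)) *
        (a * b' - b * a') := by
    intro i j hji hin
    rw [mul_assoc _ (∑ k ∈ Finset.range (i - j), _), geom_sum₂_mul]
    have e1 : a ^ i = a ^ j * a ^ (i - j) := by rw [← pow_add]; congr 1; omega
    have e2 : a' ^ i = a' ^ j * a' ^ (i - j) := by rw [← pow_add]; congr 1; omega
    have e3 : b ^ (n - j) = b ^ (n - i) * b ^ (i - j) := by rw [← pow_add]; congr 1; omega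
    have e4 : b' ^ (n - j) = b' ^ (n - i) * b' ^ (i - j) := by rw [← pow_add]; congr 1; omega
    rw [e1, e2, e3, e4]
    simp only [mul_pow]
    ring
  unfold hv bez
  rw [Finset.sum_mul_sum, Finset.sum_mul_sum, Finset.sum_mul]
  -- antisymmetrise
  set T : ℕ → ℕ → R := fun i j => (a ^ i * b ^ (n - i)) * (a' ^ j * b' ^ (n - j)) with hT
  have e1 : ∑ i ∈ Finset.range (n + 1), ∑ j ∈ Finset.range (n + 1),
      f i * (a ^ i * b ^ (n - i)) * (g j * (a' ^ j * b' ^ (n - j))) =
      ∑ i ∈ Finset.range (n + 1), ∑ j ∈ Finset.range (n + 1), f i * g j * T i j := by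
    apply Finset.sum_congr rfl; intro i _; apply Finset.sum_congr rfl; intro j _
    simp only [hT]; ring
  have e2 : ∑ i ∈ Finset.range (n + 1), ∑ j ∈ Finset.range (n + 1),
      g i * (a ^ i * b ^ (n - i)) * (f j * (a' ^ j * b' ^ (n - j))) =
      ∑ i ∈ Finset.range (n + 1), ∑ j ∈ Finset.range (n + 1), f i * g j * T j i := by
    rw [Finset.sum_comm]
    apply Finset.sum_congr rfl; intro i _; apply Finset.sum_congr rfl; intro j _
    simp only [hT]; ring
  rw [e1, e2, ← Finset.sum_sub_distrib]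
  have e3 : ∀ i ∈ Finset.range (n + 1), (∑ j ∈ Finset.range (n + 1), f i * g j * T i j) -
      (∑ j ∈ Finset.range (n + 1), f i * g j * T j i) =
      ∑ j ∈ Finset.range (n + 1), f i * g j * (T i j - T j i) := by
    intro i _
    rw [← Finset.sum_sub_distrib]
    apply Finset.sum_congr rfl; intro j _; ring
  rw [Finset.sum_congr rfl e3]
  -- split the square
  have split : ∀ (s : ℕ → ℕ → R), (∀ i, s i i = 0) → ∀ m,
      ∑ i ∈ Finset.range m, ∑ j ∈ Finset.range m, s i j =
      ∑ i ∈ Finset.range m, ∑ j ∈ Finset.range i, (s i j + s j i) := by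
    intro s hs m
    induction m with
    | zero => simp
    | succ m ih =>
      have h1 : ∀ i ∈ Finset.range m, ∑ j ∈ Finset.range (m + 1), s i j =
          (∑ j ∈ Finset.range m, s i j) + s i m := fun i _ => Finset.sum_range_succ _ _
      have h2 : ∑ i ∈ Finset.range (m + 1), ∑ j ∈ Finset.range i, (s i j + s j i) =
          ∑ i ∈ Finset.range m, ∑ j ∈ Finset.range i, (s i j + s j i) +
            ∑ j ∈ Finset.range m, (s m j + s j m) := Finset.sum_range_succ _ _
      rw [h2, Finset.sum_range_succ, Finset.sum_congr rfl h1, Finset.sum_add_distrib, ih,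
        Finset.sum_range_succ (s m), hs m, Finset.sum_add_distrib]
      ring
  rw [split (fun i j => f i * g j * (T i j - T j i)) (fun i => by ring) (n + 1)]
  apply Finset.sum_congr rfl
  intro i hi
  rw [Finset.sum_mul]
  apply Finset.sum_congr rfl
  intro j hj
  have hi' : i ≤ n := by simpa [Nat.lt_succ_iff] using hi
  have hj' : j ≤ i := by
    have : j < i := by simpa using hj
    omega
  have h2 := key i j hj' hi'
  have h4 : f i * g j * (T i j - T j i) + f j * g i * (T j i - T i j) =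
      (f i * g j - f j * g i) * ((a ^ i * b ^ (n - i)) * (a' ^ j * b' ^ (n - j)) -
      (a ^ j * b ^ (n - j)) * (a' ^ i * b' ^ (n - i))) := by
    simp only [hT]; ring
  refine h4.trans ?_
  rw [h2]
  ring

theorem bez_symm (n : ℕ) (f g : ℕ → R) (a b a' b' : R) :
    bez n f g a b a' b' = bez n f g a' b' a b := by
  unfold bez
  apply Finset.sum_congr rfl
  intro i _
  apply Finset.sum_congr rfl
  intro j _
  have e : ∑ k ∈ Finset.range (i - j), (a * b') ^ k * (b * a') ^ (i - j - 1 - k) =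
      ∑ k ∈ Finset.range (i - j), (a' * b) ^ k * (b' * a) ^ (i - j - 1 - k) := by
    rw [← Finset.sum_range_reflect]
    apply Finset.sum_congr rfl
    intro k hk
    have hk' : k < i - j := by simpa using hk
    have e1 : i - j - 1 - (i - j - 1 - k) = k := by omega
    rw [e1, mul_comm b a', mul_comm a b']
    ring
  rw [e, mul_comm a a', mul_comm b b']

theorem bez_map {S : Type*} [CommRing S] (τ : R →+* S) (n : ℕ) (f g : ℕ → R) (a b a' b' : R) :
    τ (bez n f g a b a' b') = bez n (fun i => τ (f i)) (fun i => τ (g i)) (τ a) (τ b) (τ a')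
      (τ b') := by
  simp only [bez, map_sum, map_mul, map_pow, map_sub]

theorem hv_smul (n : ℕ) (f : ℕ → R) (c a b : R) : hv n f (c * a) (c * b) = c ^ n * hv n f a b := by
  unfold hv
  rw [Finset.mul_sum]
  apply Finset.sum_congr rfl
  intro i hi
  have hi' : i ≤ n := by simpa [Nat.lt_succ_iff] using hi
  have : c ^ n = c ^ i * c ^ (n - i) := by rw [← pow_add]; congr 1; omega
  rw [this, mul_pow, mul_pow]
  ring

end ring

section step
variable {K : Type*} [NormedField K] [IsUltrametricDist K] {L : Type*} [NormedField L]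
  [IsUltrametricDist L]

/-- the factor which makes the coordinates primitive -/
noncomputable def mu (z : OnePoint K) : K := z.elim 1 (fun x => if ‖x‖ ≤ 1 then 1 else x⁻¹)

/-- primitive coordinates -/
noncomputable def q1 (z : OnePoint K) : K := mu z * c1 z
/-- primitive coordinates -/
noncomputable def q2 (z : OnePoint K) : K := mu z * c2 z

theorem mu_ne (z : OnePoint K) : mu z ≠ 0 := by
  induction z using OnePoint.rec with
  | infty => simp [mu]
  | coe x =>
    simp only [mu, OnePoint.elim_some]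
    by_cases h : ‖x‖ ≤ 1
    · rw [if_pos h]; exact one_ne_zero
    · rw [if_neg h]
      apply inv_ne_zero
      rintro rfl
      apply h
      simp

/-- the two charts -/
theorem chart (z : OnePoint K) : (‖q1 z‖ ≤ 1 ∧ q2 z = 1) ∨ (q1 z = 1 ∧ ‖q2 z‖ < 1) := by
  induction z using OnePoint.rec with
  | infty => right; simp [q1, q2, mu]
  | coe x =>
    by_cases h : ‖x‖ ≤ 1
    · left
      simp [q1, q2, mu, h]
    · right
      have hx : x ≠ 0 := by
        rintro rfl
        apply h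
        simp
      have hx1 : 1 < ‖x‖ := not_le.mp h
      simp only [q1, q2, mu, OnePoint.elim_some, if_neg h, c1_coe, c2_coe, mul_one]
      refine ⟨inv_mul_cancel₀ hx, ?_⟩
      rw [norm_inv]
      exact inv_lt_one_of_one_lt₀ hx1

theorem norm_q1_le (z : OnePoint K) : ‖q1 z‖ ≤ 1 := by
  rcases chart z with h | h
  · exact h.1
  · rw [h.1, norm_one]

theorem norm_q2_le (z : OnePoint K) : ‖q2 z‖ ≤ 1 := by
  rcases chart z with h | h
  · rw [h.2, norm_one]
  · exact h.2.le

theorem max_q (z : OnePoint K) : max ‖q1 z‖ ‖q2 z‖ = 1 := by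
  rcases chart z with h | h
  · rw [h.2, norm_one]; exact max_eq_right h.1
  · rw [h.1, norm_one]; exact max_eq_left h.2.le

/-- wedge product of the primitive coordinates -/
noncomputable def wq (z z' : OnePoint K) : K := q1 z * q2 z' - q2 z * q1 z'

theorem wq_eq (z z' : OnePoint K) : wq z z' = mu z * mu z' * wd z z' := by
  unfold wq q1 q2 wd; ring

theorem norm_wq_le (z z' : OnePoint K) : ‖wq z z'‖ ≤ 1 := by
  unfold wq
  refine (norm_sub_le_max' (q1 z * q2 z') 0 (q2 z * q1 z')).trans (max_le ?_ ?_)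
  · rw [sub_zero, norm_mul]; exact mul_le_one₀ (norm_q1_le _) (norm_nonneg _) (norm_q2_le _)
  · rw [zero_sub, norm_neg, norm_mul]
    exact mul_le_one₀ (norm_q2_le _) (norm_nonneg _) (norm_q1_le _)

/-- Points in the same residue class have congruent primitive coordinates. -/
theorem same_class {z z' : OnePoint K} (h : ‖wq z z'‖ < 1) :
    ‖q1 z - q1 z'‖ < 1 ∧ ‖q2 z - q2 z'‖ < 1 := by
  unfold wq at h
  rcases chart z with ⟨h1, h2⟩ | ⟨h1, h2⟩
  · rcases chart z' with ⟨h3, h4⟩ | ⟨h3, h4⟩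
    · rw [h2, h4, mul_one, one_mul] at h
      rw [h2, h4, sub_self, norm_zero]
      exact ⟨h, one_pos⟩
    · exfalso
      rw [h2, h3, one_mul] at h
      have e1 : ‖q1 z * q2 z'‖ < 1 := by
        rw [norm_mul]
        calc ‖q1 z‖ * ‖q2 z'‖ ≤ 1 * ‖q2 z'‖ := mul_le_mul_of_nonneg_right h1 (norm_nonneg _)
          _ < 1 := by rw [one_mul]; exact h4
      have e2 : ‖(1 : K)‖ < 1 := by
        have : (1 : K) = q1 z * q2 z' - (q1 z * q2 z' - 1) := by ring
        rw [this]
        refine lt_of_le_of_lt (norm_sub_le_max' (q1 z * q2 z') 0 (q1 z * q2 z' - 1)) ?_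
        rw [sub_zero, zero_sub, norm_neg]
        exact max_lt e1 h
      rw [norm_one] at e2
      exact lt_irrefl _ e2
  · rcases chart z' with ⟨h3, h4⟩ | ⟨h3, h4⟩
    · exfalso
      rw [h1, h4, one_mul] at h
      have e1 : ‖q2 z * q1 z'‖ < 1 := by
        rw [norm_mul]
        calc ‖q2 z‖ * ‖q1 z'‖ ≤ ‖q2 z‖ * 1 := mul_le_mul_of_nonneg_left h3 (norm_nonneg _)
          _ < 1 := by rw [mul_one]; exact h2
      have e2 : ‖(1 : K)‖ < 1 := by
        have : (1 : K) = (1 - q2 z * q1 z') + q2 z * q1 z' := by ring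
        rw [this]
        exact lt_of_le_of_lt (IsUltrametricDist.norm_add_le_max _ _) (max_lt h e1)
      rw [norm_one] at e2
      exact lt_irrefl _ e2
    · rw [h1, h3, one_mul, mul_one, norm_sub_rev] at h
      rw [h1, h3, sub_self, norm_zero]
      exact ⟨one_pos, h⟩

/-- congruent arguments give congruent values of the Bezoutian -/
theorem bez_congr {n : ℕ} {f g : ℕ → K} (hf : ∀ i, ‖f i‖ ≤ 1) (hg : ∀ i, ‖g i‖ ≤ 1)
    {a b x y x' y' : K} (ha : ‖a‖ ≤ 1) (hb : ‖b‖ ≤ 1) (hx : ‖x‖ ≤ 1) (hy : ‖y‖ ≤ 1)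
    (hx' : ‖x'‖ ≤ 1) (hy' : ‖y'‖ ≤ 1) (h1 : ‖x - x'‖ < 1) (h2 : ‖y - y'‖ < 1) :
    ‖bez n f g a b x y - bez n f g a b x' y'‖ < 1 := by
  let F : ℕ → unitBall K := fun i => ⟨f i, hf i⟩
  let G : ℕ → unitBall K := fun i => ⟨g i, hg i⟩
  let A : unitBall K := ⟨a, ha⟩
  let B : unitBall K := ⟨b, hb⟩
  let X : unitBall K := ⟨x, hx⟩
  let Y : unitBall K := ⟨y, hy⟩
  let X' : unitBall K := ⟨x', hx'⟩
  let Y' : unitBall K := ⟨y', hy'⟩
  have e1 : ((bez n F G A B X Y : unitBall K) : K) = bez n f g a b x y :=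
    bez_map (unitBall K).subtype n F G A B X Y
  have e2 : ((bez n F G A B X' Y' : unitBall K) : K) = bez n f g a b x' y' :=
    bez_map (unitBall K).subtype n F G A B X' Y'
  have hX : Ideal.Quotient.mk (openIdeal K) X = Ideal.Quotient.mk (openIdeal K) X' := by
    rw [Ideal.Quotient.eq, mem_openIdeal]; exact h1
  have hY : Ideal.Quotient.mk (openIdeal K) Y = Ideal.Quotient.mk (openIdeal K) Y' := by
    rw [Ideal.Quotient.eq, mem_openIdeal]; exact h2
  have h3 : Ideal.Quotient.mk (openIdeal K) (bez n F G A B X Y) =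
      Ideal.Quotient.mk (openIdeal K) (bez n F G A B X' Y') := by
    rw [bez_map, bez_map, hX, hY]
  rw [Ideal.Quotient.eq, mem_openIdeal] at h3
  rw [← e1, ← e2]
  exact h3

theorem iso_isStep (σ : K →+* L) (hσ : ∀ x, ‖σ x‖ = ‖x‖) {n : ℕ} (hn : 1 ≤ n) {f g : ℕ → K}
    (hf : ∀ i, ‖f i‖ ≤ 1) (hg : ∀ i, ‖g i‖ ≤ 1) {φ : OnePoint K → OnePoint K}
    (hφ : ∀ z, ∃ c : K, c ≠ 0 ∧ hv n f (c1 z) (c2 z) = c * c1 (φ z) ∧
      hv n g (c1 z) (c2 z) = c * c2 (φ z))
    (H : ∀ z z' : OnePoint K, ‖hv n f (q1 z) (q2 z) * hv n g (q1 z') (q2 z') -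
      hv n g (q1 z) (q2 z) * hv n f (q1 z') (q2 z')‖ = ‖q1 z * q2 z' - q2 z * q1 z'‖) :
    ∃ j P rel, IsStep σ φ (2 ≤ n) j P rel := by
  choose c hc0 hc1 hc2 using hφ
  have hwd : ∀ {z z' : OnePoint K}, z ≠ z' → wd z z' ≠ 0 := fun h e => h (wd_eq_zero.mp e)
  have hwq : ∀ {z z' : OnePoint K}, z ≠ z' → wq z z' ≠ 0 := by
    intro z z' h
    rw [wq_eq]
    exact mul_ne_zero (mul_ne_zero (mu_ne z) (mu_ne z')) (hwd h)
  set B : OnePoint K → OnePoint K → K := fun z z' => bez n f g (q1 z) (q2 z) (q1 z') (q2 z') with hB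
  have hB1 : ∀ {z z' : OnePoint K}, z ≠ z' → ‖B z z'‖ = 1 := by
    intro z z' h
    have h1 := H z z'
    rw [bez_eq, norm_mul] at h1
    have h2 : 0 < ‖q1 z * q2 z' - q2 z * q1 z'‖ := norm_pos_iff.mpr (hwq h)
    have h3 : (‖B z z'‖ - 1) * ‖q1 z * q2 z' - q2 z * q1 z'‖ = 0 := by
      simp only [hB]; rw [sub_mul, h1, one_mul, sub_self]
    rcases mul_eq_zero.mp h3 with h4 | h4
    · linarith
    · exact absurd h4 h2.ne'
  have hhv : ∀ (f : ℕ → K) z, hv n f (q1 z) (q2 z) = mu z ^ n * hv n f (c1 z) (c2 z) := by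
    intro f z
    unfold q1 q2
    rw [hv_smul]
  have hstep : ∀ z z', wd (φ z) (φ z') = B z z' * wd z z' *
      ((mu z / (mu z ^ n * c z)) * (mu z' / (mu z' ^ n * c z'))) := by
    intro z z'
    have h1 := bez_eq n f g (q1 z) (q2 z) (q1 z') (q2 z')
    rw [hhv f, hhv g, hhv f, hhv g, hc1, hc2, hc1, hc2] at h1
    have h2 : mu z ^ n * c z * (mu z' ^ n * c z') * wd (φ z) (φ z') =
        B z z' * (mu z * mu z' * wd z z') := by
      rw [← wq_eq]
      simp only [hB, wq, wd]
      rw [← h1]; ring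
    have m1 := mu_ne z
    have m2 := mu_ne z'
    have k1 := hc0 z
    have k2 := hc0 z'
    field_simp
    linear_combination h2
  refine ⟨fun z => σ (mu z / (mu z ^ n * c z)), fun z z' => σ (B z z'),
    fun z z' => n = 1 ∨ ‖wq z z'‖ < 1, ?_⟩
  refine ⟨?_, ?_, ?_, ?_, ?_, ?_, ?_, ?_⟩
  · intro z z'
    rw [← map_mul, ← map_mul, ← map_mul, hstep]
  · intro z
    rw [Ne, map_eq_zero]
    exact div_ne_zero (mu_ne z) (mul_ne_zero (pow_ne_zero _ (mu_ne z)) (hc0 z))
  · intro z z' h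
    rw [Ne, map_eq_zero, ← norm_eq_zero, hB1 h]
    exact one_ne_zero
  · intro z z'
    congr 1
    exact bez_symm _ _ _ _ _ _ _
  · intro a b c d e1 e2 e3 e4 e5 e6 _
    rw [hσ, hσ, hσ, hσ, hB1 e1, hB1 e6, hB1 e2, hB1 e5]
  · intro a b c' hbc hr
    have goal : Near (B a b) (B a c') := by
      rcases hr with hn1 | hr
      · subst hn1
        have hconst : ∀ z z', B z z' = f 1 * g 0 - f 0 * g 1 := by
          intro z z'
          simp [hB, bez, Finset.sum_range_succ]
        have hne : f 1 * g 0 - f 0 * g 1 ≠ 0 := by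
          rw [← hconst b c', ← norm_ne_zero_iff, hB1 hbc]
          exact one_ne_zero
        rw [hconst, hconst]
        exact near_refl hne
      · obtain ⟨h1, h2⟩ := same_class hr
        have h3 : ‖B a b - B a c'‖ < 1 := bez_congr hf hg (norm_q1_le _) (norm_q2_le _)
          (norm_q1_le _) (norm_q2_le _) (norm_q1_le _) (norm_q2_le _) h1 h2
        by_cases hac : a = c'
        · have hab : a ≠ b := fun e => hbc (by rw [← e, hac])
          apply Near.symm
          unfold Near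
          rw [norm_sub_rev, hB1 hab]
          exact h3
        · unfold Near
          rw [hB1 hac]
          exact h3
    unfold Near at goal ⊢
    rw [← map_sub, hσ, hσ]
    exact goal
  · intro a b c' d e1 e2 e3 e4 e5 e6 r1 r2 hlt
    exfalso
    push Not at r1 r2
    have w1 : ‖wq a b‖ = 1 := le_antisymm (norm_wq_le _ _) r1.2
    have w2 : ‖wq c' d‖ = 1 := le_antisymm (norm_wq_le _ _) r2.2
    have w3 := norm_wq_le a c'
    have w4 := norm_wq_le b d
    have hM : 0 < ‖mu a‖ * ‖mu b‖ * (‖mu c'‖ * ‖mu d‖) := by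
      have := norm_pos_iff.mpr (mu_ne a)
      have := norm_pos_iff.mpr (mu_ne b)
      have := norm_pos_iff.mpr (mu_ne c')
      have := norm_pos_iff.mpr (mu_ne d)
      positivity
    have h1 := mul_lt_mul_of_pos_left hlt hM
    have e1' : ‖mu a‖ * ‖mu b‖ * (‖mu c'‖ * ‖mu d‖) * (‖wd a b‖ * ‖wd c' d‖) =
        ‖wq a b‖ * ‖wq c' d‖ := by
      rw [wq_eq, wq_eq]; simp only [norm_mul]; ring
    have e2' : ‖mu a‖ * ‖mu b‖ * (‖mu c'‖ * ‖mu d‖) * (‖wd a c'‖ * ‖wd b d‖) =
        ‖wq a c'‖ * ‖wq b d‖ := by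
      rw [wq_eq, wq_eq]; simp only [norm_mul]; ring
    rw [e1', e2', w1, w2, one_mul] at h1
    have h2 : ‖wq a c'‖ * ‖wq b d‖ ≤ 1 := mul_le_one₀ w3 (norm_nonneg _) w4
    linarith
  · intro hw a b
    left
    omega

/-- tame power maps -/
theorem power_isStep (σ : K →+* L) (hσ : ∀ x, ‖σ x‖ = ‖x‖) {k : ℕ}
    (hres : ∀ ρ : K, ‖ρ‖ = 1 → ‖ρ ^ (k + 1) - 1‖ = ‖ρ - 1‖) :
    ∃ j P rel, IsStep σ (OnePoint.map (fun x : K => x ^ (k + 1))) (2 ≤ k + 1) j P rel := by
  have e1 : (fun x : K => x ^ (k + 1)) =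
      (fun x : K => (Polynomial.dickson 1 (0 : K) (k + 1)).eval x) := by
    funext x; rw [dk_eval, dk_zero_param]
  rw [e1]
  exact dickson_isStep (0 : K) σ hσ (fun x y hxy => norm_dd_zero_param hres hxy)

end step

end Pool.Agent.UBC
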