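import Pool.Agent.UBC.PLine.Period

set_option autoImplicit false
set_option linter.unusedSectionVars false

/-!
# The length of a cycle
-/

namespace Pool.Agent.UBC

namespace Cyc

variable {K : Type*} [NormedField K] [IsUltrametricDist K] {L : Type*} [NormedField L]
  [IsUltrametricDist L] {q : ℕ} [NeZero q] {C : Cyc L q} (σ : K →+* L)
  {ν u : ZMod q → ℝ} (N : C.Normal ν u)

theorem natCast_mul_mem (H : AddSubgroup (ZMod q)) (n : ℕ) {x : ZMod q} (hx : x ∈ H) :
    (n : ZMod q) * x ∈ H := by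
  rw [← nsmul_eq_mul]; exact H.nsmul_mem hx n

theorem del_mem (hW : ∀ a b, C.W 0 a b ∈ σ.fieldRange) (a b c : ZMod q) :
    C.del 0 a b c ∈ σ.fieldRange :=
  div_mem (hW _ _) (mul_mem (hW _ _) (hW _ _))

include N

/-- Among `Q + 2` points in arithmetic progression two are close. -/
theorem Normal.pigeon (hσ : ∀ x, ‖σ x‖ = ‖x‖) (hW : ∀ a b, C.W 0 a b ∈ σ.fieldRange) {ε : ℝ}
    (hε1 : ε < 1) {Q : ℕ} (hQ : FewClasses K ε Q) (g : ZMod q) :
    (((Q + 1).factorial : ℕ) : ZMod q) * g ∈ N.ball (Set.Iio (ν g)) (isLowerSet_Iio _) := by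
  by_contra hcon
  have hk : ∀ k : ℕ, 1 ≤ k → k ≤ Q + 1 → (k : ZMod q) * g ≠ 0 ∧ ν ((k : ZMod q) * g) = ν g := by
    intro k hk1 hk2
    have h1 : (k : ZMod q) * g ∉ N.ball (Set.Iio (ν g)) (isLowerSet_Iio _) := by
      intro h
      apply hcon
      obtain ⟨c, hc⟩ := Nat.dvd_factorial (by omega : 0 < k) hk2
      have e : (((Q + 1).factorial : ℕ) : ZMod q) * g = (c : ZMod q) * ((k : ZMod q) * g) := by
        rw [hc]; push_cast; ring
      rw [e]
      exact natCast_mul_mem _ c h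
    have h2 : (k : ZMod q) * g ∈ N.ball (Set.Iic (ν g)) (isLowerSet_Iic _) :=
      natCast_mul_mem _ k (Or.inr (Set.mem_Iic.mpr le_rfl))
    rw [N.mem_ball] at h1 h2
    push Not at h1
    have h3 := h2.resolve_left h1.1
    refine ⟨h1.1, le_antisymm h3 ?_⟩
    have := h1.2
    rw [Set.mem_Iio, not_lt] at this
    exact this
  have hsub : ∀ k l : ℕ, k < l → (l : ZMod q) * g - (k : ZMod q) * g = ((l - k : ℕ) : ZMod q) * g := by
    intro k l hkl
    rw [Nat.cast_sub hkl.le]; ring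
  have hne : ∀ k l : ℕ, k < l → l ≤ Q + 1 → (k : ZMod q) * g ≠ (l : ZMod q) * g := by
    intro k l hkl hl e
    have := (hk (l - k) (by omega) (by omega)).1
    rw [← hsub k l hkl, e, sub_self] at this
    exact this rfl
  have hlg : ∀ k l : ℕ, k < l → l ≤ Q + 1 → C.lg 0 ((k : ZMod q) * g) ((l : ZMod q) * g) =
      ν g + u ((k : ZMod q) * g) + u ((l : ZMod q) * g) := by
    intro k l hkl hl
    rw [N.eq _ _ (hne k l hkl hl), hsub k l hkl, (hk (l - k) (by omega) (by omega)).2]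
  set c : ZMod q := ((Q + 1 : ℕ) : ZMod q) * g with hc
  have hdel : ∀ k l : ℕ, k < l → l ≤ Q →
      Real.log ‖C.del 0 ((k : ZMod q) * g) ((l : ZMod q) * g) c‖ = - ν g - 2 * u c := by
    intro k l hkl hl
    have n1 := C.W_pos 0 (hne k l hkl (by omega))
    have n2 := C.W_pos 0 (hne k (Q + 1) (by omega) le_rfl)
    have n3 := C.W_pos 0 (hne l (Q + 1) (by omega) le_rfl)
    have l1 := hlg k l hkl (by omega)
    have l2 := hlg k (Q + 1) (by omega) le_rfl
    have l3 := hlg l (Q + 1) (by omega) le_rfl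
    unfold del
    rw [norm_div, norm_mul, Real.log_div n1.ne' (mul_ne_zero n2.ne' n3.ne'),
      Real.log_mul n2.ne' n3.ne']
    unfold lg at l1 l2 l3
    rw [l1, l2, l3]
    ring
  have hQ1 : 1 ≤ Q := by
    by_contra h
    have : Q = 0 := by omega
    subst this
    obtain ⟨i, j, hij, _⟩ := hQ (fun _ => 0) (fun _ => by simp)
    have h1 := i.2
    have h2 := j.2
    have : (i : ℕ) < j := hij
    omega
  have hdne : ∀ k l : ℕ, k < l → l ≤ Q → C.del 0 ((k : ZMod q) * g) ((l : ZMod q) * g) c ≠ 0 := by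
    intro k l hkl hl
    exact C.del_ne 0 (hne k l hkl (by omega)) (hne k (Q + 1) (by omega) le_rfl)
      (hne l (Q + 1) (by omega) le_rfl)
  have hnorm : ∀ k l : ℕ, k < l → l ≤ Q → ‖C.del 0 ((k : ZMod q) * g) ((l : ZMod q) * g) c‖ =
      ‖C.del 0 (((0 : ℕ) : ZMod q) * g) (((1 : ℕ) : ZMod q) * g) c‖ := by
    intro k l hkl hl
    apply Real.log_injOn_pos (norm_pos_iff.mpr (hdne k l hkl hl))
      (norm_pos_iff.mpr (hdne 0 1 one_pos hQ1))
    rw [hdel k l hkl hl, hdel 0 1 one_pos hQ1]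
  set D : L := C.del 0 (((0 : ℕ) : ZMod q) * g) (((1 : ℕ) : ZMod q) * g) c with hD
  have hD0 : D ≠ 0 := hdne 0 1 one_pos hQ1
  have hDpos : 0 < ‖D‖ := norm_pos_iff.mpr hD0
  -- coordinates
  have hex : ∀ k : ℕ, ∃ x : K, σ x = C.del 0 (((0 : ℕ) : ZMod q) * g) ((k : ZMod q) * g) c / D := by
    intro k
    have : C.del 0 (((0 : ℕ) : ZMod q) * g) ((k : ZMod q) * g) c / D ∈ σ.fieldRange :=
      div_mem (del_mem σ hW _ _ _) (del_mem σ hW _ _ _)
    exact this
  choose x hx using hex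
  have hdiff : ∀ k l : ℕ, k < l → l ≤ Q → ‖x k - x l‖ = 1 := by
    intro k l hkl hl
    rw [← hσ, map_sub, hx, hx, ← sub_div]
    have hadd := C.del_add 0 (a := ((0 : ℕ) : ZMod q) * g) (b := (k : ZMod q) * g)
      (e := (l : ZMod q) * g) (c := c) (hne 0 (Q + 1) (by omega) le_rfl)
      (hne k (Q + 1) (by omega) le_rfl) (hne l (Q + 1) (by omega) le_rfl)
    have e : C.del 0 (((0 : ℕ) : ZMod q) * g) ((k : ZMod q) * g) c -
        C.del 0 (((0 : ℕ) : ZMod q) * g) ((l : ZMod q) * g) c =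
        - C.del 0 ((k : ZMod q) * g) ((l : ZMod q) * g) c := by
      linear_combination hadd
    rw [e, norm_div, norm_neg, hnorm k l hkl hl, div_self hDpos.ne']
  have hle : ∀ k : ℕ, k ≤ Q → ‖x k‖ ≤ 1 := by
    intro k hkQ
    rcases Nat.eq_zero_or_pos k with h | h
    · subst h
      rw [← hσ, hx, del_self, zero_div, norm_zero]
      exact zero_le_one
    · rw [← hσ, hx, norm_div, hnorm 0 k h hkQ, div_self hDpos.ne']
  obtain ⟨i, j, hij, h⟩ := hQ (fun i => x i) (fun i => hle i (by have := i.2; omega))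
  have h1 := hdiff i j hij (by have := j.2; omega)
  rw [h1] at h
  linarith

end Cyc

open Cyc in
/-- The main theorem on cycles: the part of the length prime to `p` is bounded. -/
theorem Cyc.period {K : Type*} [NormedField K] [IsUltrametricDist K] {L : Type*} [NormedField L]
    [IsUltrametricDist L] {q : ℕ} [NeZero q] (C : Cyc L q) (hq : 4 ≤ q) (σ : K →+* L)
    (hσ : ∀ x, ‖σ x‖ = ‖x‖) (hW : ∀ a b, C.W 0 a b ∈ σ.fieldRange) {ε : ℝ} (hε0 : 0 ≤ ε)
    (hε1 : ε < 1) {Q : ℕ} (hQ : FewClasses K ε Q) {p v m r : ℕ} (hp : 0 < p) (hqm : q = p ^ v * m)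
    (hm : ‖(m : L)‖ = 1) (s : Finset ℕ) (hs : s.card ≤ r)
    (hrel : ∀ T < C.R, T ∉ s → ∀ a b, a ≠ b → C.rel T a b) :
    m ∣ (Q + 1).factorial ^ (2 * r + 2) := by
  classical
  obtain ⟨ν, u, N⟩ := C.exists_normal hq
  by_contra hcon
  set A := (Q + 1).factorial with hA
  set g : ℕ → ZMod q := fun i => ((A ^ i * p ^ v : ℕ) : ZMod q) with hg
  have hpv : 0 < p ^ v := Nat.pow_pos hp
  have hg0 : ∀ i ≤ 2 * r + 2, g i ≠ 0 := by
    intro i hi h
    simp only [hg] at h
    rw [ZMod.natCast_eq_zero_iff, hqm, mul_comm (A ^ i)] at h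
    have h1 := Nat.dvd_of_mul_dvd_mul_left hpv h
    exact hcon (h1.trans (pow_dvd_pow A hi))
  have hgs : ∀ i, g (i + 1) = (A : ZMod q) * g i := by
    intro i
    simp only [hg]
    push_cast
    ring
  have hlt1 : ∀ i, i + 1 ≤ 2 * r + 2 → ν (g (i + 1)) < ν (g i) := by
    intro i hi
    have h1 := N.pigeon σ hσ hW hε1 hQ (g i)
    rw [← hA, ← hgs, N.mem_ball] at h1
    exact h1.resolve_left (hg0 (i + 1) hi)
  have hlt : ∀ i j, i < j → j ≤ 2 * r + 2 → ν (g j) < ν (g i) := by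
    intro i j hij
    induction j with
    | zero => omega
    | succ j ih =>
      intro hj
      rcases Nat.lt_or_ge i j with h | h
      · exact (hlt1 j hj).trans (ih h (by omega))
      · have : i = j := by omega
        subst this
        exact hlt1 i hj
  set Hc : ℕ → AddSubgroup (ZMod q) := fun i => N.ball (Set.Iic (ν (g i))) (isLowerSet_Iic _)
    with hHc
  set Ho : ℕ → AddSubgroup (ZMod q) := fun i => N.ball (Set.Iio (ν (g i))) (isLowerSet_Iio _)
    with hHo
  have hcb : ∀ i, IsBall ν (Hc i) := fun i => N.isBall _ _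
  have hob : ∀ i, IsBall ν (Ho i) := fun i => N.isBall _ _
  have hsubHo : ∀ i j, i < j → j ≤ 2 * r + 2 → Hc j ≤ Ho i := by
    intro i j hij hj x hx
    rcases hx with h | h
    · exact Or.inl h
    · right
      exact lt_of_le_of_lt h (hlt i j hij hj)
  have hHoHc : ∀ i, Ho i ≤ Hc i := by
    intro i x hx
    rcases hx with h | h
    · exact Or.inl h
    · exact Or.inr (Set.mem_Iic.mpr (le_of_lt (Set.mem_Iio.mp h)))
  have hHoHc' : ∀ i j, i < j → j ≤ 2 * r + 2 → Ho j ≤ Hc i := fun i j hij hj =>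
    (hHoHc j).trans ((hsubHo i j hij hj).trans (hHoHc i))
  -- choice of a good index
  have hgood : ∃ k ≤ r, ∀ T < C.R,
      (∀ a b, b - a ∈ Hc (2 * k + 1) → a ≠ b → C.rel T a b) ∨
      (∃ c, ∀ a b, a - c ∉ Ho (2 * k + 2) → b - c ∉ Ho (2 * k + 2) → a ≠ b → C.rel T a b) := by
    by_contra hbad
    push Not at hbad
    choose! f hf using hbad
    have hmem : ∀ k ∈ Finset.range (r + 1), f k ∈ s := by
      intro k hk
      have hk' : k ≤ r := by simpa [Nat.lt_succ_iff] using hk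
      obtain ⟨h1, ⟨a, b, _, hab, hr⟩, _⟩ := hf k hk'
      by_contra hns
      exact hr (hrel _ h1 hns a b hab)
    have hinj : Set.InjOn f (Finset.range (r + 1)) := by
      have aux : ∀ k l : ℕ, l ≤ r → k < l → f k ≠ f l := by
        intro k l hl hkl e
        obtain ⟨h1, _, hB⟩ := hf k (by omega)
        obtain ⟨h1', ⟨a, b, hab', hab, hr⟩, _⟩ := hf l hl
        rw [← e] at hr
        rcases N.dich (hob (2 * k + 2)) (f k) a with h | h
        · apply hr
          apply h a b _ _ hab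
          · rw [sub_self]; exact (Ho (2 * k + 2)).zero_mem
          · exact hsubHo (2 * k + 2) (2 * l + 1) (by omega) (by omega) hab'
        · obtain ⟨x, y, hx, hy, hxy, hr'⟩ := hB a
          exact hr' (h x y hx hy hxy)
      intro k hk l hl e
      simp only [Finset.coe_range, Set.mem_Iio] at hk hl
      rcases lt_trichotomy k l with h | h | h
      · exact absurd e (aux k l (by omega) h)
      · exact h
      · exact absurd e.symm (aux l k (by omega) h)
    have := Finset.card_le_card_of_injOn f hmem hinj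
    rw [Finset.card_range] at this
    omega
  obtain ⟨k, hkr, hAB⟩ := hgood
  set H := Hc (2 * k + 1) with hH
  set H' := Ho (2 * k + 2) with hH'
  set w := g 0 with hw
  set g' := g (2 * k + 2) with hg'
  have hle : H' ≤ H := hHoHc' (2 * k + 1) (2 * k + 2) (by omega) (by omega)
  have hg'0 : g' ≠ 0 := hg0 _ (by omega)
  have hgH : g (2 * k + 1) ∈ H := Or.inr (Set.mem_Iic.mpr le_rfl)
  have hg'e : g' = (A : ZMod q) * g (2 * k + 1) := hgs (2 * k + 1)
  have hg'H : g' ∈ H := by rw [hg'e]; exact natCast_mul_mem H A hgH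
  have hg'H' : g' ∉ H' := by
    intro h
    rcases h with h | h
    · exact hg'0 h
    · exact lt_irrefl _ (Set.mem_Iio.mp h)
  have hwH : w ∉ H := by
    intro h
    rcases h with h | h
    · exact hg0 0 (by omega) h
    · exact absurd (hlt 0 (2 * k + 1) (by omega) (by omega)) (not_lt.mpr h)
  have hrat : ∀ T < C.R, ∀ n, ∀ h ∈ H, Near (C.rat T g' w n h) (C.rat T g' w n 0) :=
    fun T hT n h hh => rat_near hle hg'H hg'H' hwH (hAB T hT) n hh
  set U : ZMod q → L := fun x => C.del 0 x (x + g') w / C.del 0 0 g' w with hU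
  have hhom : ∀ x ∈ H, ∀ y ∈ H, Near (U (x + y)) (U x * U y) := fun x hx y hy =>
    N.hom (hcb _) hg'H hg'0 hwH hrat hx hy
  have hnew : ∀ a ∈ H, a ≠ w := fun a ha e => hwH (by rw [← e]; exact ha)
  have hd0 : C.del 0 0 g' w ≠ 0 :=
    C.del_ne 0 (Ne.symm hg'0) (hnew 0 H.zero_mem) (hnew g' hg'H)
  have hU0 : U 0 = 1 := by
    simp only [hU]
    rw [zero_add, div_self hd0]
  have hUne : ∀ x ∈ H, U x ≠ 0 := by
    intro x hx
    have h1 := hhom x hx (-x) (H.neg_mem hx)
    rw [add_neg_cancel, hU0] at h1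
    exact left_ne_zero_of_mul h1.ne_right
  have hpow : ∀ n : ℕ, ∀ x ∈ H, Near (U ((n : ZMod q) * x)) (U x ^ n) := by
    intro n x hx
    induction n with
    | zero =>
      rw [Nat.cast_zero, zero_mul, hU0, pow_zero]
      exact near_refl one_ne_zero
    | succ n ih =>
      have e : ((n + 1 : ℕ) : ZMod q) * x = (n : ZMod q) * x + x := by push_cast; ring
      rw [e, pow_succ]
      exact (hhom _ (natCast_mul_mem H n hx) x hx).trans (ih.mul (near_refl (hUne x hx)))
  have hU1 : ∀ x ∈ H, ‖U x‖ = 1 := by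
    intro x hx
    have h1 := (hpow q x hx).norm_eq
    rw [ZMod.natCast_self, zero_mul, hU0, norm_one, norm_pow] at h1
    exact (pow_eq_one_iff_of_nonneg (norm_nonneg _) (NeZero.ne q)).mp h1.symm
  -- multiplier of `g'`
  have hUg' : Near (U g') 1 := by
    have h1 := hpow A _ hgH
    rw [← hg'e] at h1
    refine h1.trans ?_
    have hmem : U (g (2 * k + 1)) ∈ σ.fieldRange :=
      div_mem (del_mem σ hW _ _ _) (del_mem σ hW _ _ _)
    obtain ⟨x, hx⟩ := hmem
    have hx1 : ‖x‖ = 1 := by rw [← hσ, hx]; exact hU1 _ hgH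
    have h2 := pow_factorial_near_one hε0 hQ hx1
    have h3 : Near (U (g (2 * k + 1)) ^ Q.factorial) 1 := by
      unfold Near
      rw [norm_one, ← hx, ← map_pow, ← map_one σ, ← map_sub, hσ]
      exact lt_of_le_of_lt h2 hε1
    have h4 := h3.pow (Q + 1)
    rw [one_pow, ← pow_mul] at h4
    have h5 : Q.factorial * (Q + 1) = A := by rw [hA, Nat.factorial_succ, mul_comm]
    rw [h5] at h4
    exact h4
  have hall : ∀ n : ℕ, Near (C.del 0 ((n : ZMod q) * g') ((n : ZMod q) * g' + g') w)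
      (C.del 0 0 g' w) := by
    intro n
    have h1 := (hpow n g' hg'H).trans (hUg'.pow n)
    rw [one_pow] at h1
    have h2 := h1.mul (near_refl hd0)
    rw [one_mul] at h2
    simp only [hU] at h2
    rwa [div_mul_cancel₀ _ hd0] at h2
  have hsum := sum_near hd0 hm (f := fun n => C.del 0 ((n : ZMod q) * g') ((n : ZMod q) * g' + g') w)
    (fun n _ => hall n)
  rw [C.del_sum 0 w g' (fun n => hnew _ (natCast_mul_mem H n hg'H)) m] at hsum
  apply hsum
  have hmg : (m : ZMod q) * g' = 0 := by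
    have e : (m : ZMod q) * g' = ((m * (A ^ (2 * k + 2) * p ^ v) : ℕ) : ZMod q) := by
      simp only [hg', hg]; push_cast; ring
    rw [e, ZMod.natCast_eq_zero_iff]
    conv_lhs => rw [hqm]
    exact ⟨A ^ (2 * k + 2), by ring⟩
  rw [hmg]
  exact C.del_self 0 0 w

end Pool.Agent.UBC
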