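import Pool.Agent.UBC.PLine.Orbit
import Pool.Agent.UBC.PLine.Gens
import Pool.Agent.UBC.NumField

set_option autoImplicit false
set_option linter.unusedSectionVars false

/-!
# Periods for compositions of Möbius, power, Dickson and Rédei maps over number fields
-/

namespace Pool.Agent.UBC

open OnePoint

section prime

/-- A prime larger than `N` with the properties of `exists_prime_order`. -/
theorem exists_prime_order_gt {d : ℕ} (hd : 0 < d) (N : ℕ) : ∃ p : ℕ, p.Prime ∧ N < p ∧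
    ∀ ℓ : ℕ, ℓ.Prime → ℓ ∣ d → ℓ ≠ p ∧ ∀ f : ℕ, 0 < f → ℓ ∣ p ^ f - 1 → ℓ - 1 ≤ f := by
  obtain ⟨p0, hp0, h0⟩ := exists_prime_order hd
  set n := ∏ ℓ ∈ d.primeFactors, ℓ with hn
  have hpr : ∀ ℓ ∈ d.primeFactors, ℓ.Prime := fun ℓ h => Nat.prime_of_mem_primeFactors h
  have hn0 : n ≠ 0 := Finset.prod_ne_zero_iff.mpr (fun ℓ hℓ => (hpr ℓ hℓ).ne_zero)
  have : NeZero n := ⟨hn0⟩
  have hcop : Nat.Coprime p0 n := by
    apply Nat.Coprime.prod_right
    intro ℓ hℓ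
    rw [Nat.coprime_primes hp0 (hpr ℓ hℓ)]
    exact Ne.symm (h0 ℓ (hpr ℓ hℓ) (Nat.dvd_of_mem_primeFactors hℓ)).1
  have hunit : IsUnit ((p0 : ℕ) : ZMod n) := (ZMod.isUnit_iff_coprime p0 n).mpr hcop
  obtain ⟨p, hpd, hp, hpa⟩ := Nat.forall_exists_prime_gt_and_eq_mod hunit (max d N)
  refine ⟨p, hp, lt_of_le_of_lt (le_max_right _ _) hpd, ?_⟩
  intro ℓ hℓ hℓd
  have hℓS : ℓ ∈ d.primeFactors := by
    rw [Nat.mem_primeFactors]; exact ⟨hℓ, hℓd, hd.ne'⟩
  refine ⟨?_, ?_⟩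
  · have h1 := Nat.le_of_dvd hd hℓd
    have h2 := lt_of_le_of_lt (le_max_left d N) hpd
    omega
  · intro f hf hdiv
    apply (h0 ℓ hℓ hℓd).2 f hf
    have hℓn : ℓ ∣ n := Finset.dvd_prod_of_mem _ hℓS
    have h1 : p ≡ p0 [MOD ℓ] := by
      have : p ≡ p0 [MOD n] := (ZMod.natCast_eq_natCast_iff _ _ _).mp hpa
      exact this.of_dvd hℓn
    have h2 : p ^ f ≡ p0 ^ f [MOD ℓ] := h1.pow f
    have h3 : 1 ≤ p ^ f := Nat.one_le_pow _ _ hp.pos
    have h4 : 1 ≤ p0 ^ f := Nat.one_le_pow _ _ hp0.pos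
    have h5 : 1 ≡ p ^ f [MOD ℓ] := (Nat.modEq_iff_dvd' h3).mpr hdiv
    exact (Nat.modEq_iff_dvd' h4).mp (h5.trans h2)

theorem exists_prime_coprime_gt {d : ℕ} (hd : 0 < d) (N : ℕ) : ∃ p : ℕ, p.Prime ∧ N < p ∧
    ∀ B : ℕ, ∀ m : ℕ, m ∣ d → (∀ ℓ : ℕ, ℓ.Prime → ℓ ∣ m → B + 1 < ℓ) →
      ∀ f : ℕ, 1 ≤ f → f ≤ B → Nat.Coprime m (p * (p ^ f - 1)) := by
  obtain ⟨p, hp, hN, h⟩ := exists_prime_order_gt hd N
  refine ⟨p, hp, hN, ?_⟩
  intro B m hmd hB f hf1 hfB
  by_contra hcon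
  obtain ⟨ℓ, hℓ, hℓm, hℓp⟩ := Nat.Prime.not_coprime_iff_dvd.mp hcon
  obtain ⟨h1, h2⟩ := h ℓ hℓ (hℓm.trans hmd)
  have hBℓ := hB ℓ hℓ hℓm
  rcases (Nat.Prime.dvd_mul hℓ).mp hℓp with h3 | h3
  · exact h1 ((Nat.prime_dvd_prime_iff_eq hℓ hp).mp h3)
  · have := h2 f hf1 h3
    omega

end prime

section fields
variable {p : ℕ} [Fact p.Prime]

theorem norm_p_lt_one {F : Type*} [Field F] (τ : F →+* PadicAlgCl p) : ‖τ (p : F)‖ < 1 := by
  rw [map_natCast]
  have h1 : ‖((p : ℚ_[p]) : PadicAlgCl p)‖ = ‖(p : ℚ_[p])‖ := PadicAlgCl.norm_extends p _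
  have h2 : ((p : ℚ_[p]) : PadicAlgCl p) = (p : PadicAlgCl p) := map_natCast _ _
  rw [h2] at h1
  rw [h1, Padic.norm_p]
  exact inv_lt_one_of_one_lt₀ (by exact_mod_cast (Fact.out : p.Prime).one_lt)

/-- Power maps of suitable degrees on subfields of bounded degree of the algebraic closure of the
`p`-adic numbers. -/
theorem power_dd (F : Type*) [Field F] [CharZero F] [Algebra ℚ F] [FiniteDimensional ℚ F] {D : ℕ}
    (hD : Module.finrank ℚ F ≤ D) (τ : F →+* PadicAlgCl p) {k : ℕ}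
    (hcop : ∀ f : ℕ, 1 ≤ f → f ≤ D → Nat.Coprime (k + 1) (p * (p ^ f - 1))) (u v : F)
    (huv : u ≠ v) : ‖dd (0 : PadicAlgCl p) (k + 1) (τ u) (τ v)‖ =
      (scl (Real.sqrt ‖(0 : PadicAlgCl p)‖) (τ u) (τ v)) ^ k := by
  have hp : p.Prime := Fact.out
  let nf : NormedField F := NormedField.induced F (PadicAlgCl p) τ τ.injective
  have hnorm : ∀ x : F, ‖x‖ = ‖τ x‖ := fun x => rfl
  have hult : IsUltrametricDist F := by
    apply IsUltrametricDist.isUltrametricDist_of_forall_norm_add_le_max_norm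
    intro x y
    rw [hnorm, hnorm, hnorm, map_add]
    exact IsUltrametricDist.norm_add_le_max _ _
  have hpn : ‖(p : F)‖ < 1 := by rw [hnorm]; exact norm_p_lt_one τ
  obtain ⟨f0, hf1, hfD, hcard⟩ := res_finite_card (K := F) hp hpn hD
  have hfin : Finite (ResField F) := by
    apply Nat.finite_of_card_ne_zero
    rw [hcard]
    exact pow_ne_zero _ hp.ne_zero
  have hc := hcop f0 hf1 hfD
  have hm1 : ‖((k + 1 : ℕ) : F)‖ = 1 := by
    have := norm_int_eq_one (K := F) hp hpn (a := ((k + 1 : ℕ) : ℤ))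
      (fun h => card_ne_zero_of_coprime hp hc (by exact_mod_cast h))
    simpa using this
  have hc' : Nat.Coprime (k + 1) (Nat.card (ResField F) - 1) := by
    rw [hcard]; exact Nat.Coprime.coprime_mul_left_right hc
  have hmain := norm_dd_zero_param (k := k)
    (fun ρ hρ => norm_pow_sub_one (p := p) hm1 hc' hρ) huv
  rw [hnorm, dd_map, map_zero] at hmain
  rw [hmain]
  unfold scl
  rw [hnorm u, hnorm v, hnorm 0, map_zero]

end fields

section gens

/-- The generators: Möbius transformations, power maps, Dickson maps and Rédei maps; for the last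
two all prime factors of the degree exceed `E`. -/
inductive Gen (K : Type) [Field K] (E : ℕ) : (OnePoint K → OnePoint K) → ℕ → Prop
  | mob (_ : DecidableEq K) (g : GL (Fin 2) K) : Gen K E (fun z => g • z) 1
  | pow (n : ℕ) (hn : 1 ≤ n) : Gen K E (OnePoint.map fun x => x ^ n) n
  | dick (h : K) (n : ℕ) (hn : 1 ≤ n) (hE : ∀ ℓ : ℕ, ℓ.Prime → ℓ ∣ n → E < ℓ) :
      Gen K E (OnePoint.map fun x => (Polynomial.dickson 1 h n).eval x) n
  | red (α : K) (n : ℕ) (hα : ¬ IsSquare α) (hn : 1 ≤ n)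
      (hE : ∀ ℓ : ℕ, ℓ.Prime → ℓ ∣ n → E < ℓ) : Gen K E (redeiMap α n) n

theorem Gen.isRat {K : Type} [Field K] (h2 : (2 : K) ≠ 0) {E n : ℕ}
    {φ : OnePoint K → OnePoint K} (h : Gen K E φ n) : IsRat n φ := by
  cases h with
  | mob _ g => exact isRat_mobius g
  | pow _ hn =>
    have := isRat_monic hn (Polynomial.monic_X_pow (R := K) n) (Polynomial.natDegree_X_pow n)
    simpa using this
  | dick h _ hn _ => exact isRat_dickson h hn
  | red α _ hα _ _ => exact isRat_redei hα h2 n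

/-- The main theorem on periods over number fields: prime-to-`p` parts of cycle lengths. -/
theorem nf_period {p : ℕ} (hp : p.Prime) (D d : ℕ) (K : Type) [Field K] [NumberField K]
    (hD : Module.finrank ℚ K ≤ D)
    (hcop : ∀ B : ℕ, ∀ m : ℕ, m ∣ d → (∀ ℓ : ℕ, ℓ.Prime → ℓ ∣ m → B + 1 < ℓ) →
      ∀ f : ℕ, 1 ≤ f → f ≤ B → Nat.Coprime m (p * (p ^ f - 1)))
    (hdD : ∀ ℓ : ℕ, ℓ.Prime → ℓ ∣ d → D + 1 < ℓ)
    (l : List ((OnePoint K → OnePoint K) × ℕ)) (hl : l ≠ [])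
    (hs : ∀ e ∈ l, Gen K (2 * D + 1) e.1 e.2) (hd : (l.map Prod.snd).prod = d) :
    Function.Injective (app l) ∧
    ∀ (x : OnePoint K) (q : ℕ), 4 ≤ q → (app l)^[q] x = x →
      (∀ k, 0 < k → k < q → (app l)^[k] x ≠ x) → ∀ v m : ℕ, q = p ^ v * m → ¬ p ∣ m →
        m ∣ (p ^ (2 * D) + 1).factorial ^ (2 * d + 2) := by
  classical
  have : Fact p.Prime := ⟨hp⟩
  obtain ⟨σ⟩ : Nonempty (K →+* PadicAlgCl p) :=
    ⟨(IsAlgClosed.lift (R := ℚ) (S := K) (M := PadicAlgCl p)).toRingHom⟩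
  let nf : NormedField K := NormedField.induced K (PadicAlgCl p) σ σ.injective
  have hnorm : ∀ x : K, ‖x‖ = ‖σ x‖ := fun x => rfl
  have hult : IsUltrametricDist K := by
    apply IsUltrametricDist.isUltrametricDist_of_forall_norm_add_le_max_norm
    intro x y
    rw [hnorm, hnorm, hnorm, map_add]
    exact IsUltrametricDist.norm_add_le_max _ _
  have hpn : ‖(p : K)‖ < 1 := by rw [hnorm]; exact norm_p_lt_one σ
  have hQ := fewClasses (K := K) hp hpn hD
  have hε0 : 0 ≤ ‖(p : K)‖ ^ 2 := by positivity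
  have hε1 : ‖(p : K)‖ ^ 2 < 1 := by nlinarith [norm_nonneg (p : K)]
  obtain ⟨f0, hf1, hfD, hcard⟩ := res_finite_card (K := K) hp hpn hD
  have hfin : Finite (ResField K) := by
    apply Nat.finite_of_card_ne_zero
    rw [hcard]
    exact pow_ne_zero _ hp.ne_zero
  have hunit : ∀ m : ℕ, ¬ p ∣ m → ‖(m : K)‖ = 1 := by
    intro m hm
    have := norm_int_eq_one (K := K) hp hpn (a := (m : ℤ)) (fun h => hm (by exact_mod_cast h))
    simpa using this
  have hσ : ∀ x : K, ‖σ x‖ = ‖x‖ := fun x => rfl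
  have hmL : ∀ m : ℕ, ¬ p ∣ m → ‖(m : PadicAlgCl p)‖ = 1 := by
    intro m hm
    have := hunit m hm
    rw [hnorm, map_natCast] at this
    exact this
  have hdvd : ∀ e ∈ l, e.2 ∣ d := by
    intro e he
    rw [← hd]
    exact List.dvd_prod (List.mem_map_of_mem he)
  suffices hstp : ∀ e ∈ l, Stp σ e from
    ⟨app_injective l hstp, fun x q hq4 hx hmin v m hqm hm =>
      list_period σ hσ hε0 hε1 hQ l hl hstp hd hq4 hx hmin hp.pos hqm (hmL m hm)⟩
  intro e he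
  obtain ⟨φ, n⟩ := e
  have hg : Gen K (2 * D + 1) φ n := hs _ he
  have hnd : n ∣ d := hdvd _ he
  -- coprimality for power maps
  have hcD : ∀ f : ℕ, 1 ≤ f → f ≤ D → Nat.Coprime n (p * (p ^ f - 1)) :=
    hcop D n hnd (fun ℓ hℓ hℓn => hdD ℓ hℓ (hℓn.trans hnd))
  cases hg with
  | mob inst g =>
    refine ⟨le_rfl, ?_⟩
    exact mobius_isStep σ g (2 ≤ 1)
  | pow _ hn =>
    refine ⟨hn, ?_⟩
    obtain ⟨k, rfl⟩ : ∃ k, n = k + 1 := ⟨n - 1, by omega⟩
    have e1 : (fun x : K => x ^ (k + 1)) =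
        (fun x : K => (Polynomial.dickson 1 (0 : K) (k + 1)).eval x) := by
      funext x; rw [dk_eval, dk_zero_param]
    have H : ∀ x y : K, x ≠ y → ‖dd (0 : K) (k + 1) x y‖ =
        (scl (Real.sqrt ‖(0 : K)‖) x y) ^ k := by
      intro x y hxy
      have h1 := power_dd K hD σ hcD x y hxy
      rw [hnorm, dd_map, map_zero, h1]
      unfold scl
      rw [hnorm x, hnorm y, hnorm 0, map_zero]
    have h2 := dickson_isStep (0 : K) σ hσ H
    simp only
    rw [e1]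
    exact h2
  | dick h _ hn hE =>
    refine ⟨hn, ?_⟩
    have hc : ∀ f : ℕ, 1 ≤ f → f ≤ 2 * D → Nat.Coprime n (p * (p ^ f - 1)) :=
      hcop (2 * D) n hnd (fun ℓ hℓ hℓn => hE ℓ hℓ hℓn)
    have hc1 := hc f0 hf1 (by omega)
    have hc2 := hc (2 * f0) (by omega) (by omega)
    have hm1 := hunit _ (card_ne_zero_of_coprime hp hc1)
    have hc' : Nat.Coprime n (Nat.card (ResField K) ^ 2 - 1) := by
      rw [hcard, ← pow_mul, Nat.mul_comm f0 2]; exact Nat.Coprime.coprime_mul_left_right hc2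
    have hodd : Odd n := by
      rw [← Nat.not_even_iff_odd]
      intro hev
      have := hE 2 Nat.prime_two hev.two_dvd
      omega
    obtain ⟨j, hj⟩ := hodd
    subst hj
    exact dickson_isStep h σ hσ (fun x y hxy => norm_dd_eq hm1 hc' hxy)
  | red α _ hα hn hE =>
    refine ⟨hn, ?_⟩
    have hc : ∀ f : ℕ, 1 ≤ f → f ≤ 2 * D → Nat.Coprime n (p * (p ^ f - 1)) :=
      hcop (2 * D) n hnd (fun ℓ hℓ hℓn => hE ℓ hℓ hℓn)
    obtain ⟨k, rfl⟩ : ∃ k, n = k + 1 := ⟨n - 1, by omega⟩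
    have hfact : Fact (∀ r : K, r ^ 2 ≠ α + 0 * r) := by
      refine ⟨fun r hr => hα ⟨r, ?_⟩⟩
      rw [zero_mul, add_zero] at hr
      rw [← hr]; ring
    obtain ⟨δ, hδ⟩ := IsAlgClosed.exists_pow_nat_eq (σ α) (n := 2) (by norm_num)
    let : Algebra K (PadicAlgCl p) := σ.toAlgebra
    have hδ' : δ * δ = α • (1 : PadicAlgCl p) + (0 : K) • δ := by
      rw [zero_smul, add_zero, Algebra.smul_def, mul_one, ← pow_two, hδ]
      rfl
    let τ : QuadraticAlgebra K α 0 →+* PadicAlgCl p :=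
      ((QuadraticAlgebra.lift ⟨δ, hδ'⟩ : QuadraticAlgebra K α 0 →ₐ[K] PadicAlgCl p)).toRingHom
    have hτ : ∀ x : K, τ (algebraMap K _ x) = σ x := by
      intro x
      exact AlgHom.commutes _ x
    have hfr : Module.finrank ℚ (QuadraticAlgebra K α 0) ≤ 2 * D := by
      have h1 := Module.finrank_mul_finrank ℚ K (QuadraticAlgebra K α 0)
      rw [QuadraticAlgebra.finrank_eq_two] at h1
      omega
    have hfd : FiniteDimensional ℚ (QuadraticAlgebra K α 0) :=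
      FiniteDimensional.trans ℚ K (QuadraticAlgebra K α 0)
    apply redei_isStep σ hα two_ne_zero τ hτ hσ
    intro u v huv
    exact power_dd (QuadraticAlgebra K α 0) hfr τ hc u v huv

end gens

end Pool.Agent.UBC
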