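import Pool.Agent.UBC.PLine.NF
import Pool.Agent.UBC.Choice
import Pool.Agent.UBC.RelRes

set_option autoImplicit false
set_option linter.unusedSectionVars false

/-!
# Periods for compositions of Möbius, power, Dickson and Rédei maps over number fields whose degree
is not in a given submonoid
-/

namespace Pool.Agent.UBC

open OnePoint

section fields
variable {p : ℕ} [Fact p.Prime]

/-- Power maps on a field with an embedding into the closure of the `p`-adic numbers. -/
theorem power_dd_card (F : Type*) [Field F] [CharZero F] (τ : F →+* PadicAlgCl p) {k : ℕ}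
    (hc0 : letI _nf : NormedField F := NormedField.induced F (PadicAlgCl p) τ τ.injective
      ∀ (_ : IsUltrametricDist F), ∃ f : ℕ, Nat.card (ResField F) = p ^ f ∧
        Nat.Coprime (k + 1) (p * (p ^ f - 1))) (u v : F)
    (huv : u ≠ v) : ‖dd (0 : PadicAlgCl p) (k + 1) (τ u) (τ v)‖ =
      (scl (Real.sqrt ‖(0 : PadicAlgCl p)‖) (τ u) (τ v)) ^ k := by
  have hp : p.Prime := Fact.out
  let nf : NormedField F := NormedField.induced F (PadicAlgCl p) τ τ.injective
  have hnorm : ∀ x : F, ‖x‖ = ‖τ x‖ := fun x => rfl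
  have hult : IsUltrametricDist F := by
    apply IsUltrametricDist.isUltrametricDist_of_forall_norm_add_le_max_norm
    intro x y
    rw [hnorm, hnorm, hnorm, map_add]
    exact IsUltrametricDist.norm_add_le_max _ _
  have hpn : ‖(p : F)‖ < 1 := by rw [hnorm]; exact norm_p_lt_one τ
  obtain ⟨f0, hcard, hc⟩ := hc0 hult
  have hfin : Finite (ResField F) := by
    apply Nat.finite_of_card_ne_zero
    rw [hcard]
    exact pow_ne_zero _ hp.ne_zero
  have hm1 : ‖((k + 1 : ℕ) : F)‖ = 1 := by
    have := norm_int_eq_one (K := F) hp hpn (a := ((k + 1 : ℕ) : ℤ))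
      (fun h => card_ne_zero_of_coprime hp hc (by exact_mod_cast h))
    simpa using this
  have hc' : Nat.Coprime (k + 1) (Nat.card (ResField F) - 1) := by
    rw [hcard]; exact Nat.Coprime.coprime_mul_left_right hc
  have hmain := norm_dd_zero_param (k := k)
    (fun ρ hρ => norm_pow_sub_one (p := p) hm1 hc' hρ) huv
  rw [hnorm, dd_map, map_zero] at hmain
  rw [hmain]
  unfold scl
  rw [hnorm u, hnorm v, hnorm 0, map_zero]

/-- The residue field of a quadratic extension. -/
theorem card_quadratic {K L : Type*} [Field K] [Field L] [CharZero K] [CharZero L]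
    [Algebra ℚ L] [FiniteDimensional ℚ L] [Algebra K L]
    (hdim : Module.finrank K L = 2) (σ : K →+* PadicAlgCl p) (τ : L →+* PadicAlgCl p)
    (hτ : ∀ x : K, τ (algebraMap K L x) = σ x) {f : ℕ}
    (hK : letI _nf : NormedField K := NormedField.induced K (PadicAlgCl p) σ σ.injective
      ∀ (_ : IsUltrametricDist K), Nat.card (ResField K) = p ^ f) :
    letI _nf : NormedField L := NormedField.induced L (PadicAlgCl p) τ τ.injective
      ∀ (_ : IsUltrametricDist L), ∃ r : ℕ, 1 ≤ r ∧ r ≤ 2 ∧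
        Nat.card (ResField L) = p ^ (f * r) := by
  have hp : p.Prime := Fact.out
  let nfL : NormedField L := NormedField.induced L (PadicAlgCl p) τ τ.injective
  intro hultL
  let nf : NormedField K := NormedField.induced K (PadicAlgCl p) σ σ.injective
  have hnorm : ∀ x : K, ‖x‖ = ‖σ x‖ := fun x => rfl
  have hnormL : ∀ x : L, ‖x‖ = ‖τ x‖ := fun x => rfl
  have hult : IsUltrametricDist K := by
    apply IsUltrametricDist.isUltrametricDist_of_forall_norm_add_le_max_norm
    intro x y
    rw [hnorm, hnorm, hnorm, map_add]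
    exact IsUltrametricDist.norm_add_le_max _ _
  have hpn : ‖(p : L)‖ < 1 := by rw [hnormL]; exact norm_p_lt_one τ
  obtain ⟨f1, _, _, hcard1⟩ := res_finite_card (K := L) hp hpn le_rfl
  have hfin : Finite (ResField L) := by
    apply Nat.finite_of_card_ne_zero
    rw [hcard1]
    exact pow_ne_zero _ hp.ne_zero
  have hfd : FiniteDimensional K L := by
    apply FiniteDimensional.of_finrank_pos
    rw [hdim]; norm_num
  have hn : ∀ x : K, ‖algebraMap K L x‖ = ‖x‖ := by
    intro x
    rw [hnormL, hτ, hnorm]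
  obtain ⟨r, hr1, hr2, hr⟩ := card_rel hn
  rw [hdim] at hr2
  refine ⟨r, hr1, hr2, ?_⟩
  rw [hr, hK hult, ← pow_mul]

end fields

section gens

/-- The generators: Möbius transformations, power maps, Dickson maps and Rédei maps, with
conditions on the prime factors of the degrees in terms of `A`. -/
inductive GenA (K : Type) [Field K] (A : AddSubmonoid ℕ) : (OnePoint K → OnePoint K) → ℕ → Prop
  | mob (_ : DecidableEq K) (g : GL (Fin 2) K) : GenA K A (fun z => g • z) 1
  | pow (n : ℕ) (hn : 1 ≤ n) (h : ∀ ℓ : ℕ, ℓ.Prime → ℓ ∣ n → ℓ - 1 ∈ A) :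
      GenA K A (OnePoint.map fun x => x ^ n) n
  | dick (c : K) (n : ℕ) (hn : 1 ≤ n)
      (h : ∀ ℓ : ℕ, ℓ.Prime → ℓ ∣ n → ℓ ≠ 2 ∧ (ℓ - 1) / 2 ∈ A) :
      GenA K A (OnePoint.map fun x => (Polynomial.dickson 1 c n).eval x) n
  | red (α : K) (n : ℕ) (hα : ¬ IsSquare α) (hn : 1 ≤ n)
      (h : ∀ ℓ : ℕ, ℓ.Prime → ℓ ∣ n → ℓ ≠ 2 ∧ (ℓ - 1) / 2 ∈ A) : GenA K A (redeiMap α n) n

theorem GenA.isRat {K : Type} [Field K] (h2 : (2 : K) ≠ 0) {A : AddSubmonoid ℕ} {n : ℕ}
    {φ : OnePoint K → OnePoint K} (h : GenA K A φ n) : IsRat n φ := by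
  cases h with
  | mob _ g => exact isRat_mobius g
  | pow _ hn _ =>
    have := isRat_monic hn (Polynomial.monic_X_pow (R := K) n) (Polynomial.natDegree_X_pow n)
    simpa using this
  | dick h _ hn _ => exact isRat_dickson h hn
  | red α _ hα _ _ => exact isRat_redei hα h2 n

/-- The main theorem on periods over number fields: prime-to-`p` parts of cycle lengths. -/
theorem nf_periodA {p : ℕ} (hp : p.Prime) (D d : ℕ) (hprim : Prim p d) (K : Type) [Field K]
    [NumberField K] (hD : Module.finrank ℚ K ≤ D) (A : AddSubmonoid ℕ)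
    (hA : Module.finrank ℚ K ∉ A)
    (l : List ((OnePoint K → OnePoint K) × ℕ)) (hl : l ≠ [])
    (hs : ∀ e ∈ l, GenA K A e.1 e.2) (hd : (l.map Prod.snd).prod = d) :
    Function.Injective (app l) ∧
    ∀ (x : OnePoint K) (q : ℕ), 4 ≤ q → (app l)^[q] x = x →
      (∀ k, 0 < k → k < q → (app l)^[k] x ≠ x) → ∀ v m : ℕ, q = p ^ v * m → ¬ p ∣ m →
        m ∣ (p ^ (2 * D) + 1).factorial ^ (2 * d + 2) := by
  classical
  have : Fact p.Prime := ⟨hp⟩
  obtain ⟨σ, f0, hf0, hcard'⟩ := exists_place_card (p := p) K A hA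
  let nf : NormedField K := NormedField.induced K (PadicAlgCl p) σ σ.injective
  have hnorm : ∀ x : K, ‖x‖ = ‖σ x‖ := fun x => rfl
  have hult : IsUltrametricDist K := by
    apply IsUltrametricDist.isUltrametricDist_of_forall_norm_add_le_max_norm
    intro x y
    rw [hnorm, hnorm, hnorm, map_add]
    exact IsUltrametricDist.norm_add_le_max _ _
  have hcard : Nat.card (ResField K) = p ^ f0 := hcard' hult
  have hpn : ‖(p : K)‖ < 1 := by rw [hnorm]; exact norm_p_lt_one σ
  have hQ := fewClasses (K := K) hp hpn hD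
  have hε0 : 0 ≤ ‖(p : K)‖ ^ 2 := by positivity
  have hε1 : ‖(p : K)‖ ^ 2 < 1 := by nlinarith [norm_nonneg (p : K)]
  have hfin : Finite (ResField K) := by
    apply Nat.finite_of_card_ne_zero
    rw [hcard]
    exact pow_ne_zero _ hp.ne_zero
  have hunit : ∀ m : ℕ, ¬ p ∣ m → ‖(m : K)‖ = 1 := by
    intro m hm
    have := norm_int_eq_one (K := K) hp hpn (a := (m : ℤ)) (fun h => hm (by exact_mod_cast h))
    simpa using this
  have hσ : ∀ x : K, ‖σ x‖ = ‖x‖ := fun x => rfl
  have hmL : ∀ m : ℕ, ¬ p ∣ m → ‖(m : PadicAlgCl p)‖ = 1 := by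
    intro m hm
    have := hunit m hm
    rw [hnorm, map_natCast] at this
    exact this
  have hdvd : ∀ e ∈ l, e.2 ∣ d := by
    intro e he
    rw [← hd]
    exact List.dvd_prod (List.mem_map_of_mem he)
  suffices hstp : ∀ e ∈ l, Stp σ e from
    ⟨app_injective l hstp, fun x q hq4 hx hmin v m hqm hm =>
      list_period σ hσ hε0 hε1 hQ l hl hstp hd hq4 hx hmin hp.pos hqm (hmL m hm)⟩
  intro e he
  obtain ⟨φ, n⟩ := e
  have hg : GenA K A φ n := hs _ he
  have hnd : n ∣ d := hdvd _ he
  cases hg with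
  | mob inst g =>
    refine ⟨le_rfl, ?_⟩
    exact mobius_isStep σ g (2 ≤ 1)
  | pow _ hn hA' =>
    refine ⟨hn, ?_⟩
    have hc := hprim.coprime_power hp hf0 hnd hA'
    obtain ⟨k, rfl⟩ : ∃ k, n = k + 1 := ⟨n - 1, by omega⟩
    have e1 : (fun x : K => x ^ (k + 1)) =
        (fun x : K => (Polynomial.dickson 1 (0 : K) (k + 1)).eval x) := by
      funext x; rw [dk_eval, dk_zero_param]
    have H : ∀ x y : K, x ≠ y → ‖dd (0 : K) (k + 1) x y‖ =
        (scl (Real.sqrt ‖(0 : K)‖) x y) ^ k := by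
      intro x y hxy
      have h1 := power_dd_card K σ (fun hu => ⟨f0, hcard' hu, hc⟩) x y hxy
      rw [hnorm, dd_map, map_zero, h1]
      unfold scl
      rw [hnorm x, hnorm y, hnorm 0, map_zero]
    have h2 := dickson_isStep (0 : K) σ hσ H
    simp only
    rw [e1]
    exact h2
  | dick h _ hn hA' =>
    refine ⟨hn, ?_⟩
    have hc2 := hprim.coprime_dickson hp hf0 hnd hA'
    have hm1 := hunit _ (card_ne_zero_of_coprime hp hc2)
    have hc' : Nat.Coprime n (Nat.card (ResField K) ^ 2 - 1) := by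
      rw [hcard, ← pow_mul, Nat.mul_comm f0 2]; exact Nat.Coprime.coprime_mul_left_right hc2
    have hodd : Odd n := by
      rw [← Nat.not_even_iff_odd]
      intro hev
      exact (hA' 2 Nat.prime_two hev.two_dvd).1 rfl
    obtain ⟨j, hj⟩ := hodd
    subst hj
    exact dickson_isStep h σ hσ (fun x y hxy => norm_dd_eq hm1 hc' hxy)
  | red α _ hα hn hA' =>
    refine ⟨hn, ?_⟩
    have hc2 := hprim.coprime_dickson hp hf0 hnd hA'
    -- coprimality for both residue degrees
    have hc12 : ∀ r : ℕ, 1 ≤ r → r ≤ 2 → Nat.Coprime n (p * (p ^ (f0 * r) - 1)) := by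
      intro r h1 h2
      rcases (by omega : r = 1 ∨ r = 2) with rfl | rfl
      · have hdv : p * (p ^ (f0 * 1) - 1) ∣ p * (p ^ (2 * f0) - 1) := by
          apply Nat.mul_dvd_mul_left
          rw [mul_one, Nat.mul_comm 2 f0, pow_mul]
          simpa using Nat.sub_dvd_pow_sub_pow (p ^ f0) 1 2
        exact Nat.Coprime.coprime_dvd_right hdv hc2
      · rw [Nat.mul_comm f0 2]; exact hc2
    obtain ⟨k, rfl⟩ : ∃ k, n = k + 1 := ⟨n - 1, by omega⟩
    have hfact : Fact (∀ r : K, r ^ 2 ≠ α + 0 * r) := by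
      refine ⟨fun r hr => hα ⟨r, ?_⟩⟩
      rw [zero_mul, add_zero] at hr
      rw [← hr]; ring
    obtain ⟨δ, hδ⟩ := IsAlgClosed.exists_pow_nat_eq (σ α) (n := 2) (by norm_num)
    let : Algebra K (PadicAlgCl p) := σ.toAlgebra
    have hδ' : δ * δ = α • (1 : PadicAlgCl p) + (0 : K) • δ := by
      rw [zero_smul, add_zero, Algebra.smul_def, mul_one, ← pow_two, hδ]
      rfl
    let τ : QuadraticAlgebra K α 0 →+* PadicAlgCl p :=
      ((QuadraticAlgebra.lift ⟨δ, hδ'⟩ : QuadraticAlgebra K α 0 →ₐ[K] PadicAlgCl p)).toRingHom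
    have hτ : ∀ x : K, τ (algebraMap K _ x) = σ x := by
      intro x
      exact AlgHom.commutes _ x
    have hfd : FiniteDimensional ℚ (QuadraticAlgebra K α 0) :=
      FiniteDimensional.trans ℚ K (QuadraticAlgebra K α 0)
    have hcz : CharZero (QuadraticAlgebra K α 0) :=
      charZero_of_injective_algebraMap (algebraMap K (QuadraticAlgebra K α 0)).injective
    apply redei_isStep σ hα two_ne_zero τ hτ hσ
    intro u v huv
    refine power_dd_card (QuadraticAlgebra K α 0) τ (fun hu => ?_) u v huv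
    obtain ⟨r, hr1, hr2, hr⟩ := card_quadratic (QuadraticAlgebra.finrank_eq_two α 0) σ τ hτ
      hcard' hu
    exact ⟨f0 * r, hr, hc12 r hr1 hr2⟩

end gens

end Pool.Agent.UBC
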