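import Pool.Agent.UBC.PLine.Steps

set_option autoImplicit false
set_option linter.unusedSectionVars false

/-!
# Rédei functions as steps
-/

namespace Pool.Agent.UBC

open OnePoint

section def_redei
variable {K : Type*} [Field K]

open Classical in
/-- The Rédei function: `x ↦ N / D` where `(x + √α) ^ n = N + D √α`. -/
noncomputable def redeiMap (α : K) (n : ℕ) (z : OnePoint K) : OnePoint K :=
  z.elim ∞ (fun x =>
    if ((⟨x, 1⟩ : QuadraticAlgebra K α 0) ^ n).im = 0 then ∞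
    else ((((⟨x, 1⟩ : QuadraticAlgebra K α 0) ^ n).re /
      ((⟨x, 1⟩ : QuadraticAlgebra K α 0) ^ n).im : K) : OnePoint K))

variable {α : K}

/-- homogeneous coordinate of a point -/
def qA (α : K) (z : OnePoint K) : QuadraticAlgebra K α 0 := ⟨c1 z, c2 z⟩
/-- conjugate homogeneous coordinate of a point -/
def qB (α : K) (z : OnePoint K) : QuadraticAlgebra K α 0 := ⟨c1 z, - c2 z⟩

theorem star_qA (z : OnePoint K) : star (qA α z) = qB α z := by
  ext <;> simp [qA, qB]

theorem star_qA_pow (z : OnePoint K) (n : ℕ) : star (qA α z ^ n) = qB α z ^ n := by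
  rw [star_pow, star_qA]

theorem qB_pow (z : OnePoint K) (n : ℕ) :
    qB α z ^ n = ⟨(qA α z ^ n).re, - (qA α z ^ n).im⟩ := by
  rw [← star_qA_pow]
  generalize qA α z ^ n = u
  ext <;> simp

theorem qA_ne (hα : ¬ IsSquare α) (z : OnePoint K) : QuadraticAlgebra.norm (qA α z) ≠ 0 := by
  rw [QuadraticAlgebra.norm_def]
  simp only [qA]
  induction z using OnePoint.rec with
  | infty => simp
  | coe x =>
    simp only [c1_coe, c2_coe, zero_mul, add_zero, mul_one]
    intro h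
    apply hα
    exact ⟨x, by linear_combination -h⟩

open Classical in
theorem redei_coords (hα : ¬ IsSquare α) (n : ℕ) (z : OnePoint K) :
    ∃ c : K, c ≠ 0 ∧ c1 (redeiMap α n z) = c * (qA α z ^ n).re ∧
      c2 (redeiMap α n z) = c * (qA α z ^ n).im := by
  induction z using OnePoint.rec with
  | infty =>
    refine ⟨1, one_ne_zero, ?_, ?_⟩
    · have : qA α (∞ : OnePoint K) = 1 := by
        ext <;> simp [qA, QuadraticAlgebra.re_one, QuadraticAlgebra.im_one]
      rw [this, one_pow]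
      simp [redeiMap, QuadraticAlgebra.re_one]
    · have : qA α (∞ : OnePoint K) = 1 := by
        ext <;> simp [qA, QuadraticAlgebra.re_one, QuadraticAlgebra.im_one]
      rw [this, one_pow]
      simp [redeiMap, QuadraticAlgebra.im_one]
  | coe x =>
    have hq : qA α (x : OnePoint K) = ⟨x, 1⟩ := rfl
    rw [hq]
    set u : QuadraticAlgebra K α 0 := (⟨x, 1⟩ : QuadraticAlgebra K α 0) ^ n with hu
    have hnorm : QuadraticAlgebra.norm u ≠ 0 := by
      rw [hu, map_pow, ← hq]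
      exact pow_ne_zero _ (qA_ne hα _)
    have hr : redeiMap α n (x : OnePoint K) =
        if u.im = 0 then ∞ else ((u.re / u.im : K) : OnePoint K) := by
      simp only [redeiMap, OnePoint.elim_some]
      rfl
    rw [hr]
    by_cases h : u.im = 0
    · rw [if_pos h]
      have hre : u.re ≠ 0 := by
        intro h'
        apply hnorm
        rw [QuadraticAlgebra.norm_def, h, h']; ring
      refine ⟨u.re⁻¹, inv_ne_zero hre, ?_, ?_⟩
      · simp [hre]
      · simp [h]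
    · rw [if_neg h]
      refine ⟨u.im⁻¹, inv_ne_zero h, ?_, ?_⟩
      · simp [div_eq_inv_mul]
      · simp [h]

end def_redei

section step
variable {K : Type*} [NormedField K] [IsUltrametricDist K] {L : Type*} [NormedField L]
  [IsUltrametricDist L]

theorem redei_isStep (σ : K →+* L) {α : K} (hα : ¬ IsSquare α) (h2 : (2 : K) ≠ 0)
    [Fact (∀ r : K, r ^ 2 ≠ α + 0 * r)] (τ : QuadraticAlgebra K α 0 →+* L)
    (hτ : ∀ x : K, τ (algebraMap K _ x) = σ x) (hσ : ∀ x, ‖σ x‖ = ‖x‖) {k : ℕ}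
    (H : ∀ u v : QuadraticAlgebra K α 0, u ≠ v →
      ‖dd (0 : L) (k + 1) (τ u) (τ v)‖ = (scl (Real.sqrt ‖(0 : L)‖) (τ u) (τ v)) ^ k) :
    ∃ j P rel, IsStep σ (redeiMap α (k + 1)) (2 ≤ k + 1) j P rel := by
  classical
  choose c hc0 hc1 hc2 using redei_coords hα (k + 1)
  have hA0 : ∀ z : OnePoint K, qA α z ≠ 0 := by
    intro z h
    apply qA_ne hα z
    rw [h]; simp
  have hB0 : ∀ z : OnePoint K, qB α z ≠ 0 := by
    intro z h
    apply hA0 z
    rw [← star_qA] at h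
    exact star_eq_zero.mp h
  set ζ : OnePoint K → QuadraticAlgebra K α 0 := fun z => qA α z / qB α z with hζ
  -- the wedge product in terms of the coordinates
  have hω : (⟨0, -2⟩ : QuadraticAlgebra K α 0) ≠ 0 := by
    intro h
    have := congrArg QuadraticAlgebra.im h
    simp at this
    exact h2 this
  set ω : QuadraticAlgebra K α 0 := ⟨0, -2⟩ with hωdef
  have w1 : ∀ z z' : OnePoint K, qA α z * qB α z' - qB α z * qA α z' =
      ω * algebraMap K _ (wd z z') := by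
    intro z z'
    ext
    · simp [qA, qB, hωdef, wd]
    · simp [qA, qB, hωdef, wd]; ring
  have w2 : ∀ z z' : OnePoint K, algebraMap K _ (c z) * algebraMap K _ (c z') *
      (qA α z ^ (k + 1) * qB α z' ^ (k + 1) - qB α z ^ (k + 1) * qA α z' ^ (k + 1)) =
      ω * algebraMap K _ (wd (redeiMap α (k + 1) z) (redeiMap α (k + 1) z')) := by
    intro z z'
    rw [qB_pow, qB_pow]
    ext
    · simp [hωdef, wd]
    · simp [hωdef, wd, hc1, hc2]
      ring
  have hζsub : ∀ z z' : OnePoint K, ζ z - ζ z' =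
      ω * algebraMap K _ (wd z z') / (qB α z * qB α z') := by
    intro z z'
    rw [← w1]
    have := hB0 z
    have := hB0 z'
    simp only [hζ]
    field_simp
  have hζne : ∀ z z' : OnePoint K, z ≠ z' → ζ z ≠ ζ z' := by
    intro z z' hne
    rw [← sub_ne_zero, hζsub]
    refine div_ne_zero (mul_ne_zero hω ?_) (mul_ne_zero (hB0 z) (hB0 z'))
    rw [Ne, map_eq_zero, wd_eq_zero]; exact hne
  have hstepF : ∀ z z' : OnePoint K,
      algebraMap K _ (wd (redeiMap α (k + 1) z) (redeiMap α (k + 1) z')) =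
      dd (0 : QuadraticAlgebra K α 0) (k + 1) (ζ z) (ζ z') * algebraMap K _ (wd z z') *
        ((algebraMap K _ (c z) * qB α z ^ k) * (algebraMap K _ (c z') * qB α z' ^ k)) := by
    intro z z'
    apply mul_left_cancel₀ hω
    rw [← w2]
    have hd := dk_sub (0 : QuadraticAlgebra K α 0) (k + 1) (ζ z) (ζ z')
    rw [dk_zero_param, dk_zero_param] at hd
    have b1 := hB0 z
    have b2 := hB0 z'
    have e1 : ζ z ^ (k + 1) - ζ z' ^ (k + 1) =
        (qA α z ^ (k + 1) * qB α z' ^ (k + 1) - qB α z ^ (k + 1) * qA α z' ^ (k + 1)) /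
          (qB α z ^ (k + 1) * qB α z' ^ (k + 1)) := by
      simp only [hζ, div_pow]
      field_simp
    rw [e1, hζsub] at hd
    have e2 : qA α z ^ (k + 1) * qB α z' ^ (k + 1) - qB α z ^ (k + 1) * qA α z' ^ (k + 1) =
        ω * algebraMap K _ (wd z z') * (qB α z ^ k * qB α z' ^ k) *
          dd (0 : QuadraticAlgebra K α 0) (k + 1) (ζ z) (ζ z') := by
      rw [div_eq_iff (mul_ne_zero (pow_ne_zero _ b1) (pow_ne_zero _ b2))] at hd
      rw [hd]
      field_simp
      ring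
    rw [e2]; ring
  -- norms
  have hτ0 : ∀ u : QuadraticAlgebra K α 0, u ≠ 0 → τ u ≠ 0 := fun u hu => (map_ne_zero τ).mpr hu
  have hN : ∀ z z' : OnePoint K, z ≠ z' →
      ‖dd (0 : L) (k + 1) (τ (ζ z)) (τ (ζ z'))‖ =
        (Mx (0 : L) ((τ (ζ z) : L) : OnePoint L) ((τ (ζ z') : L) : OnePoint L)) ^ k := by
    intro z z' hne
    rw [Mx_coe]
    exact H _ _ (hζne z z' hne)
  have hnz : ∀ z z' : OnePoint K, ‖wd ((τ (ζ z) : L) : OnePoint L) ((τ (ζ z') : L) : OnePoint L)‖ =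
      ‖τ ω‖ * ‖wd z z'‖ * (‖τ (qB α z)‖⁻¹ * ‖τ (qB α z')‖⁻¹) := by
    intro z z'
    have e : wd ((τ (ζ z) : L) : OnePoint L) ((τ (ζ z') : L) : OnePoint L) = τ (ζ z - ζ z') := by
      simp [wd]
    rw [e, hζsub, map_div₀, map_mul, map_mul, hτ, norm_div, norm_mul, norm_mul, hσ, div_eq_mul_inv,
      mul_inv]
  have hMpos : ∀ z z' : OnePoint K, z ≠ z' →
      0 < Mx (0 : L) ((τ (ζ z) : L) : OnePoint L) ((τ (ζ z') : L) : OnePoint L) := by
    intro z z' hne
    refine lt_of_lt_of_le ?_ (norm_wd_le (0 : L) _ _)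
    rw [norm_pos_iff, Ne, wd_eq_zero, OnePoint.coe_eq_coe]
    intro h
    exact hζne z z' hne (τ.injective h)
  have hωpos : 0 < ‖τ ω‖ := norm_pos_iff.mpr (hτ0 _ hω)
  have hbpos : ∀ z : OnePoint K, 0 < ‖τ (qB α z)‖⁻¹ := fun z =>
    inv_pos.mpr (norm_pos_iff.mpr (hτ0 _ (hB0 z)))
  refine ⟨fun z => τ (algebraMap K _ (c z) * qB α z ^ k),
    fun z z' => dd (0 : L) (k + 1) (τ (ζ z)) (τ (ζ z')),
    fun z z' => k = 0 ∨ ‖τ (ζ z) - τ (ζ z')‖ < scl (Real.sqrt ‖(0 : L)‖) (τ (ζ z)) (τ (ζ z')), ?_⟩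
  refine ⟨?_, ?_, ?_, ?_, ?_, ?_, ?_, ?_⟩
  · intro z z'
    have h1 := congrArg τ (hstepF z z')
    rw [hτ, map_mul, map_mul, map_mul, dd_map, map_zero, hτ] at h1
    exact h1
  · intro z
    exact hτ0 _ (mul_ne_zero ((map_ne_zero _).mpr (hc0 z)) (pow_ne_zero _ (hB0 z)))
  · intro z z' hne
    rw [← norm_pos_iff, hN z z' hne]
    exact pow_pos (hMpos z z' hne) k
  · intro z z'
    exact dd_symm _ _ _ _
  · intro a b x y e1 e2 e3 e4 e5 e6 hle
    rw [hN a b e1, hN x y e6, hN a x e2, hN b y e5, ← mul_pow, ← mul_pow]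
    apply pow_le_pow_left₀ (mul_nonneg (Mx_nonneg _ _ _) (Mx_nonneg _ _ _))
    apply Mx_mono
    rw [hnz, hnz, hnz, hnz]
    have p : 0 ≤ ‖τ ω‖ * ‖τ ω‖ * (‖τ (qB α a)‖⁻¹ * ‖τ (qB α b)‖⁻¹ * ‖τ (qB α x)‖⁻¹ *
        ‖τ (qB α y)‖⁻¹) := by
      have := hbpos a
      have := hbpos b
      have := hbpos x
      have := hbpos y
      positivity
    have := mul_le_mul_of_nonneg_left hle p
    linarith
  · intro a b x hbx hr
    rcases hr with hk | hr
    · subst hk
      rw [zero_add, dd_one, dd_one]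
      exact near_refl one_ne_zero
    · have inj : ∀ z z' : OnePoint K, τ (ζ z) ≠ τ (ζ z') → ζ z ≠ ζ z' := fun z z' h e => h (by rw [e])
      exact near_dd (fun e => hζne b x hbx (τ.injective e)) hr
        (fun hne => H _ _ (inj _ _ hne)) (fun hne => H _ _ (inj _ _ hne))
  · intro a b x y e1 e2 e3 e4 e5 e6 r1 r2 hlt
    push Not at r1 r2
    rw [hN a b e1, hN x y e6, hN a x e2, hN b y e5, ← mul_pow, ← mul_pow]
    apply pow_lt_pow_left₀ _ (mul_nonneg (Mx_nonneg _ _ _) (Mx_nonneg _ _ _)) r1.1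
    have s1 : Mx (0 : L) ((τ (ζ a) : L) : OnePoint L) ((τ (ζ b) : L) : OnePoint L) ≤
        ‖wd ((τ (ζ a) : L) : OnePoint L) ((τ (ζ b) : L) : OnePoint L)‖ := by
      rw [Mx_coe]; simpa [wd] using r1.2
    have s2 : Mx (0 : L) ((τ (ζ x) : L) : OnePoint L) ((τ (ζ y) : L) : OnePoint L) ≤
        ‖wd ((τ (ζ x) : L) : OnePoint L) ((τ (ζ y) : L) : OnePoint L)‖ := by
      rw [Mx_coe]; simpa [wd] using r2.2
    refine lt_of_le_of_lt (mul_le_mul s1 s2 (Mx_nonneg _ _ _) (norm_nonneg _)) ?_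
    refine lt_of_lt_of_le ?_ (mul_le_mul (norm_wd_le (0 : L) _ _) (norm_wd_le (0 : L) _ _)
      (norm_nonneg _) (Mx_nonneg _ _ _))
    rw [hnz, hnz, hnz, hnz]
    have p : 0 < ‖τ ω‖ * ‖τ ω‖ * (‖τ (qB α a)‖⁻¹ * ‖τ (qB α b)‖⁻¹ * ‖τ (qB α x)‖⁻¹ *
        ‖τ (qB α y)‖⁻¹) := by
      have := hbpos a
      have := hbpos b
      have := hbpos x
      have := hbpos y
      positivity
    have := mul_lt_mul_of_pos_left hlt p
    linarith
  · intro hw a b
    left
    omega

end step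

end Pool.Agent.UBC
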