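import Pool.Agent.UBC.PLine.Main
import Pool.Agent.UBC.PLine.Redei

set_option autoImplicit false
set_option linter.unusedSectionVars false

/-!
# Periods of compositions of steps
-/

namespace Pool.Agent.UBC

open OnePoint

section lists
variable {X : Type*}

/-- Apply the maps of a list one after the other. -/
def app : List ((X → X) × ℕ) → X → X
  | [] => id
  | e :: l => app l ∘ e.1

theorem app_append (l l' : List ((X → X) × ℕ)) : app (l ++ l') = app l' ∘ app l := by
  induction l with
  | nil => rfl
  | cons e l ih => rw [List.cons_append, app, app, ih]; rfl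

/-- Apply the first `T` maps of a sequence. -/
def seqApp (s : ℕ → X → X) : ℕ → X → X
  | 0 => id
  | T + 1 => s T ∘ seqApp s T

theorem seqApp_add (s : ℕ → X → X) (R : ℕ) (hper : ∀ i, s (i + R) = s i) (T : ℕ) :
    seqApp s (T + R) = seqApp s T ∘ seqApp s R := by
  induction T with
  | zero => rw [zero_add]; rfl
  | succ T ih =>
    have e : T + 1 + R = (T + R) + 1 := by ring
    rw [e, seqApp, ih, hper]; rfl

theorem seqApp_list (l : List ((X → X) × ℕ)) : ∀ s : ℕ → X → X,
    (∀ (i : ℕ) (h : i < l.length), s i = (l[i]).1) → seqApp s l.length = app l := by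
  induction l using List.reverseRecOn with
  | nil => intro s _; rfl
  | append_singleton l a ih =>
    intro s hs
    have e : (l ++ [a]).length = l.length + 1 := by simp
    rw [e, seqApp, app_append]
    have h1 : seqApp s l.length = app l := by
      apply ih
      intro i h
      have := hs i (by rw [e]; omega)
      rw [this, List.getElem_append_left h]
    have h2 : s l.length = a.1 := by
      have := hs l.length (by rw [e]; omega)
      rw [this]
      simp
    rw [h1, h2]
    rfl

end lists

section
variable {K : Type*} [NormedField K] [IsUltrametricDist K] {L : Type*} [NormedField L]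
  [IsUltrametricDist L]

/-- A step together with its degree. -/
def Stp (σ : K →+* L) (e : (OnePoint K → OnePoint K) × ℕ) : Prop :=
  1 ≤ e.2 ∧ ∃ j P rel, IsStep σ e.1 (2 ≤ e.2) j P rel

theorem app_injective {σ : K →+* L} (l : List ((OnePoint K → OnePoint K) × ℕ))
    (hs : ∀ e ∈ l, Stp σ e) : Function.Injective (app l) := by
  induction l with
  | nil => exact Function.injective_id
  | cons e l ih =>
    obtain ⟨_, j, P, rel, h⟩ := hs e List.mem_cons_self
    exact (ih (fun e' he' => hs e' (List.mem_cons_of_mem _ he'))).comp h.injective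

theorem list_period (σ : K →+* L) (hσ : ∀ x, ‖σ x‖ = ‖x‖) {ε : ℝ} (hε0 : 0 ≤ ε) (hε1 : ε < 1)
    {Q : ℕ} (hQ : FewClasses K ε Q) (l : List ((OnePoint K → OnePoint K) × ℕ)) (hl : l ≠ [])
    (hs : ∀ e ∈ l, Stp σ e) {d : ℕ} (hd : (l.map Prod.snd).prod = d) {x : OnePoint K} {q : ℕ}
    (hq4 : 4 ≤ q) (hx : (app l)^[q] x = x) (hmin : ∀ k, 0 < k → k < q → (app l)^[k] x ≠ x)
    {p v m : ℕ} (hp : 0 < p) (hqm : q = p ^ v * m) (hm : ‖(m : L)‖ = 1) :
    m ∣ (Q + 1).factorial ^ (2 * d + 2) := by
  classical
  have : NeZero q := ⟨by omega⟩
  set R := l.length with hRdef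
  have hR : 0 < R := List.length_pos_iff.mpr hl
  set f : ℕ → (OnePoint K → OnePoint K) × ℕ := fun T => l[T % R]'(Nat.mod_lt T hR) with hf
  have hfs : ∀ T, Stp σ (f T) := fun T => hs _ (List.getElem_mem _)
  choose j P rel hstep using fun T => (hfs T).2
  set s : ℕ → OnePoint K → OnePoint K := fun T => (f T).1 with hsdef
  have hper : ∀ i, s (i + R) = s i := by
    intro i
    simp only [hsdef, hf, Nat.add_mod_right]
  set φ := app l with hφ
  have hφs : seqApp s R = φ := by
    apply seqApp_list
    intro i h
    simp only [hsdef, hf]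
    congr 2
    exact Nat.mod_eq_of_lt h
  have hsinj : ∀ T, Function.Injective (s T) := fun T => (hstep T).injective
  have hTinj : ∀ T, Function.Injective (seqApp s T) := by
    intro T
    induction T with
    | zero => exact Function.injective_id
    | succ T ih => exact (hsinj T).comp ih
  have hφinj : Function.Injective φ := by rw [← hφs]; exact hTinj R
  set pt : ZMod q → OnePoint K := fun a => φ^[a.val] x with hpt
  have hpc : ∀ n : ℕ, pt (n : ZMod q) = φ^[n] x := by
    intro n
    simp only [hpt]
    rw [ZMod.val_natCast]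
    exact Function.IsPeriodicPt.iterate_mod_apply hx n
  have hpsucc : ∀ a, φ (pt a) = pt (a + 1) := by
    intro a
    have e : a + 1 = ((a.val + 1 : ℕ) : ZMod q) := by
      push_cast; rw [ZMod.natCast_zmod_val]
    rw [e, hpc, Function.iterate_succ_apply']
  have hpinj : Function.Injective pt := by
    have aux : ∀ a b : ZMod q, a.val < b.val → pt a ≠ pt b := by
      intro a b hab e
      simp only [hpt] at e
      have hb := ZMod.val_lt b
      have e2 : b.val = a.val + (b.val - a.val) := by omega
      rw [e2, Function.iterate_add_apply] at e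
      exact hmin (b.val - a.val) (by omega) (by omega) ((hφinj.iterate a.val) e).symm
    intro a b e
    rcases lt_trichotomy a.val b.val with h | h | h
    · exact absurd e (aux a b h)
    · exact ZMod.val_injective q h
    · exact absurd e.symm (aux b a h)
  set V : ℕ → ZMod q → OnePoint K := fun T a => seqApp s T (pt a) with hV
  have hVinj : ∀ T a b, a ≠ b → V T a ≠ V T b := fun T a b hab e => hab (hpinj (hTinj T e))
  have hVs : ∀ T a, V (T + 1) a = s T (V T a) := fun T a => rfl
  have hVR : ∀ T a, V (T + R) a = V T (a + 1) := by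
    intro T a
    simp only [hV]
    rw [seqApp_add s R hper, Function.comp_apply, hφs, hpsucc]
  let C : Cyc L q :=
    { R := R
      W := fun T a b => σ (wd (V T a) (V T b))
      P := fun T a b => P T (V T a) (V T b)
      j := fun T a => j T (V T a)
      rel := fun T a b => rel T (V T a) (V T b)
      R_pos := hR
      W_eq_zero := by
        intro T a b
        rw [map_eq_zero, wd_eq_zero]
        constructor
        · intro e
          by_contra hne
          exact hVinj T a b hne e
        · rintro rfl; rfl
      W_swap := by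
        intro T a b
        rw [wd_swap, map_neg]
      plucker := by
        intro T a b c d
        rw [← map_mul, ← map_mul, ← map_mul, ← map_sub, ← map_add, wd_plucker, map_zero]
      step := by
        intro T a b
        rw [hVs, hVs]
        exact (hstep T).step _ _
      cyc := by
        intro T a b
        rw [hVR, hVR]
      j_ne := fun T a => (hstep T).j_ne _
      P_ne := fun T a b hab => (hstep T).P_ne _ _ (hVinj T a b hab)
      P_symm := fun T a b => (hstep T).P_symm _ _
      mono := by
        intro T a b c d e1 e2 e3 e4 e5 e6 h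
        rw [hσ, hσ, hσ, hσ] at h
        exact (hstep T).mono _ _ _ _ (hVinj T _ _ e1) (hVinj T _ _ e2) (hVinj T _ _ e3)
          (hVinj T _ _ e4) (hVinj T _ _ e5) (hVinj T _ _ e6) h
      near := fun T a b c hbc hr => (hstep T).near _ _ _ (hVinj T _ _ hbc) hr
      tri := by
        intro T a b c d e1 e2 e3 e4 e5 e6 r1 r2 h
        rw [hσ, hσ, hσ, hσ] at h
        exact (hstep T).tri _ _ _ _ (hVinj T _ _ e1) (hVinj T _ _ e2) (hVinj T _ _ e3)
          (hVinj T _ _ e4) (hVinj T _ _ e5) (hVinj T _ _ e6) r1 r2 h }
  set bad : Finset ℕ := (Finset.range R).filter (fun T => 2 ≤ (f T).2) with hbad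
  have hcard : bad.card ≤ d := by
    have h1 : ∏ T ∈ Finset.range R, (f T).2 = d := by
      rw [← hd, Finset.prod_range, ← Fin.prod_univ_fun_getElem]
      apply Finset.prod_congr rfl
      intro i _
      simp only [hf]
      congr 2
      exact Nat.mod_eq_of_lt i.2
    have h2 : 2 ^ bad.card ≤ ∏ T ∈ bad, (f T).2 := by
      rw [← Finset.prod_const]
      apply Finset.prod_le_prod'
      intro i hi
      exact (Finset.mem_filter.mp hi).2
    have h3 : ∏ T ∈ bad, (f T).2 ≤ ∏ T ∈ Finset.range R, (f T).2 := by
      apply Finset.prod_le_prod_of_subset_of_one_le' (Finset.filter_subset _ _)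
      intro i _ _
      exact (hfs i).1
    have h4 : bad.card < 2 ^ bad.card := Nat.lt_two_pow_self
    omega
  refine C.period hq4 σ hσ (fun a b => ⟨_, rfl⟩) hε0 hε1 hQ hp hqm hm bad hcard ?_
  intro T hT hTb a b hab
  apply (hstep T).tame
  intro h2
  apply hTb
  rw [hbad, Finset.mem_filter, Finset.mem_range]
  exact ⟨hT, h2⟩

end

end Pool.Agent.UBC
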