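import Pool.Agent.UBC.PLine.Cyc
import Pool.Agent.UBC.Periodic

set_option autoImplicit false
set_option linter.unusedSectionVars false

/-!
# The period of a cycle
-/

namespace Pool.Agent.UBC

namespace Cyc

variable {L : Type*} [NormedField L] [IsUltrametricDist L] {q : ℕ} [NeZero q] (C : Cyc L q)

/-- The difference of `a` and `b` in the coordinate with pole `c`. -/
noncomputable def del (T : ℕ) (a b c : ZMod q) : L := C.W T a b / (C.W T a c * C.W T b c)

theorem del_add (T : ℕ) {a b e c : ZMod q} (ha : a ≠ c) (hb : b ≠ c) (he : e ≠ c) :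
    C.del T a b c + C.del T b e c = C.del T a e c := by
  have h1 := C.W_ne T ha
  have h2 := C.W_ne T hb
  have h3 := C.W_ne T he
  have hp := C.plucker T a b c e
  rw [C.W_swap T e c] at hp
  unfold del
  field_simp
  linear_combination -hp

theorem del_self (T : ℕ) (a c : ZMod q) : C.del T a a c = 0 := by
  unfold del; rw [(C.W_eq_zero T a a).mpr rfl, zero_div]

theorem del_ne (T : ℕ) {a b c : ZMod q} (h1 : a ≠ b) (h2 : a ≠ c) (h3 : b ≠ c) :
    C.del T a b c ≠ 0 :=
  div_ne_zero (C.W_ne T h1) (mul_ne_zero (C.W_ne T h2) (C.W_ne T h3))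

/-- sum of consecutive differences -/
theorem del_sum (T : ℕ) (c g : ZMod q) (hc : ∀ k : ℕ, (k : ZMod q) * g ≠ c) (m : ℕ) :
    ∑ k ∈ Finset.range m, C.del T ((k : ZMod q) * g) ((k : ZMod q) * g + g) c =
      C.del T 0 ((m : ZMod q) * g) c := by
  induction m with
  | zero => simp [del_self]
  | succ m ih =>
    rw [Finset.sum_range_succ, ih]
    have e : (((m + 1 : ℕ)) : ZMod q) * g = (m : ZMod q) * g + g := by push_cast; ring
    rw [e]
    apply C.del_add
    · have := hc 0
      simpa using this
    · exact hc m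
    · rw [← e]; exact hc (m + 1)

/-- the ratio of the factors -/
noncomputable def rat (T : ℕ) (g w n h : ZMod q) : L :=
  C.P T (n + h) (n + h + g) / (C.P T (n + h) (n + w) * C.P T (n + h + g) (n + w))

variable {C}

/-- the factor is nearly constant on a coset contained in a class -/
theorem rat_near_of_coset {H : AddSubgroup (ZMod q)} {T : ℕ} {g w n : ZMod q} (hg : g ∈ H)
    (hw : w ∉ H) (hg0 : g ≠ 0) (hn : ∀ a b, a - n ∈ H → b - n ∈ H → a ≠ b → C.rel T a b)
    {h : ZMod q} (hh : h ∈ H) : Near (C.rat T g w n h) (C.rat T g w n 0) := by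
  have hnh : n + h - n ∈ H := by rw [add_sub_cancel_left]; exact hh
  have hnhg : n + h + g - n ∈ H := by
    have : n + h + g - n = h + g := by ring
    rw [this]; exact H.add_mem hh hg
  have hn0 : n - n ∈ H := by rw [sub_self]; exact H.zero_mem
  have hng : n + g - n ∈ H := by rw [add_sub_cancel_left]; exact hg
  have hout : ∀ a, a - n ∈ H → a ≠ n + w := by
    intro a ha e
    rw [e, add_sub_cancel_left] at ha
    exact hw ha
  -- changing the second argument inside the coset
  have chg : ∀ a b c, b - n ∈ H → c - n ∈ H → C.P T a c ≠ 0 → Near (C.P T a b) (C.P T a c) := by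
    intro a b c hb hc hne
    by_cases hbc : b = c
    · rw [hbc]; exact near_refl hne
    · exact C.near T a b c hbc (hn b c hb hc hbc)
  have chg' : ∀ a b c, b - n ∈ H → c - n ∈ H → C.P T c a ≠ 0 → Near (C.P T b a) (C.P T c a) := by
    intro a b c hb hc hne
    rw [C.P_symm T b a, C.P_symm T c a]
    rw [C.P_symm T c a] at hne
    exact chg a b c hb hc hne
  unfold rat
  simp only [add_zero]
  have p1 : C.P T n (n + g) ≠ 0 := C.P_ne T _ _ (fun e => hg0 (by simpa using e.symm))
  have n1 : Near (C.P T (n + h) (n + h + g)) (C.P T n (n + g)) := by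
    have s1 : Near (C.P T (n + h) (n + g)) (C.P T n (n + g)) := chg' _ _ _ hnh hn0 p1
    exact (chg _ _ _ hnhg hng s1.ne_left).trans s1
  have n2 : Near (C.P T (n + h) (n + w)) (C.P T n (n + w)) :=
    chg' _ _ _ hnh hn0 (C.P_ne T _ _ (hout n hn0))
  have n3 : Near (C.P T (n + h + g) (n + w)) (C.P T (n + g) (n + w)) :=
    chg' _ _ _ hnhg hng (C.P_ne T _ _ (hout _ hng))
  exact n1.div (n2.mul n3)

theorem rat_near {H H' : AddSubgroup (ZMod q)} (hle : H' ≤ H) {T : ℕ} {g w : ZMod q} (hg : g ∈ H)
    (hg' : g ∉ H') (hw : w ∉ H)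
    (hAB : (∀ a b, b - a ∈ H → a ≠ b → C.rel T a b) ∨
      (∃ c, ∀ a b, a - c ∉ H' → b - c ∉ H' → a ≠ b → C.rel T a b)) (n : ZMod q) {h : ZMod q}
    (hh : h ∈ H) : Near (C.rat T g w n h) (C.rat T g w n 0) := by
  have hg0 : g ≠ 0 := fun e => hg' (by rw [e]; exact H'.zero_mem)
  rcases hAB with hA | ⟨c, hB⟩
  · apply rat_near_of_coset hg hw hg0 _ hh
    intro a b ha hb hab
    apply hA a b _ hab
    have : b - a = (b - n) - (a - n) := by ring
    rw [this]; exact H.sub_mem hb ha
  · by_cases hc : n + w - c ∈ H'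
    · apply rat_near_of_coset hg hw hg0 _ hh
      have out : ∀ a, a - n ∈ H → a - c ∉ H' := by
        intro a ha hac
        apply hw
        have : w = (n + w - c) - (a - c) + (a - n) := by ring
        rw [this]
        exact H.add_mem (H.sub_mem (hle hc) (hle hac)) ha
      intro a b ha hb hab
      exact hB a b (out a ha) (out b hb) hab
    · have key : ∀ h ∈ H, Near (C.rat T g w n h) (1 / C.P T (n + w) (n + w)) := by
        intro h hh
        have o1 : n + h ≠ n + w := fun e => hw (by rw [← add_left_cancel e]; exact hh)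
        have o2 : n + h + g ≠ n + w := by
          intro e
          apply hw
          rw [add_assoc] at e
          rw [← add_left_cancel e]; exact H.add_mem hh hg
        have o3 : n + h ≠ n + h + g := fun e => hg0 (by simpa using e.symm)
        unfold rat
        by_cases hin : n + h - c ∈ H'
        · have hin2 : n + h + g - c ∉ H' := by
            intro h'
            apply hg'
            have : g = (n + h + g - c) - (n + h - c) := by ring
            rw [this]; exact H'.sub_mem h' hin
          have r := hB _ _ hin2 hc o2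
          have s1 : Near (C.P T (n + h) (n + h + g)) (C.P T (n + h) (n + w)) := C.near T _ _ _ o2 r
          have s2 : Near (C.P T (n + h + g) (n + w)) (C.P T (n + w) (n + w)) := by
            rw [C.P_symm T (n + h + g)]; exact C.near T _ _ _ o2 r
          have s3 := s1.div ((near_refl (C.P_ne T _ _ o1)).mul s2)
          have e : C.P T (n + h) (n + w) / (C.P T (n + h) (n + w) * C.P T (n + w) (n + w)) =
              1 / C.P T (n + w) (n + w) := by
            have := C.P_ne T _ _ o1
            have := s2.ne_right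
            field_simp
          rw [e] at s3
          exact s3
        · have r := hB _ _ hin hc o1
          have s1 : Near (C.P T (n + h) (n + h + g)) (C.P T (n + h + g) (n + w)) := by
            rw [C.P_symm T (n + h)]; exact C.near T _ _ _ o1 r
          have s2 : Near (C.P T (n + h) (n + w)) (C.P T (n + w) (n + w)) := by
            rw [C.P_symm T (n + h)]; exact C.near T _ _ _ o1 r
          have s3 := s1.div (s2.mul (near_refl (C.P_ne T _ _ o2)))
          have e : C.P T (n + h + g) (n + w) / (C.P T (n + w) (n + w) * C.P T (n + h + g) (n + w)) =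
              1 / C.P T (n + w) (n + w) := by
            have := C.P_ne T _ _ o2
            have := s2.ne_right
            field_simp
          rw [e] at s3
          exact s3
      exact (key h hh).trans (key 0 H.zero_mem).symm

/-- transport of quotients of differences through one step -/
theorem del_step (T : ℕ) {g w n h : ZMod q} (o1 : n + h ≠ n + w) (o2 : n + h + g ≠ n + w) :
    C.del (T + 1) (n + h) (n + h + g) (n + w) =
      C.rat T g w n h * C.del T (n + h) (n + h + g) (n + w) * (1 / C.j T (n + w) ^ 2) := by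
  have := C.P_ne T _ _ o1
  have := C.P_ne T _ _ o2
  have := C.W_ne T o1
  have := C.W_ne T o2
  have := C.j_ne T (n + h)
  have := C.j_ne T (n + h + g)
  have := C.j_ne T (n + w)
  unfold del rat
  rw [C.step, C.step, C.step]
  field_simp

/-- The heart of the matter. -/
theorem quot_near {H : AddSubgroup (ZMod q)} {g w : ZMod q} (hg : g ∈ H) (hg0 : g ≠ 0) (hw : w ∉ H)
    (hrat : ∀ T < C.R, ∀ n, ∀ h ∈ H, Near (C.rat T g w n h) (C.rat T g w n 0)) (n h : ZMod q)
    (hh : h ∈ H) :
    Near (C.del 0 (n + h) (n + h + g) (n + w) / C.del 0 n (n + g) (n + w))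
      (C.del 0 h (h + g) w / C.del 0 0 g w) := by
  have o1 : ∀ n, ∀ h ∈ H, n + h ≠ n + w := by
    intro n h hh e
    apply hw; rw [← add_left_cancel e]; exact hh
  have o2 : ∀ n, ∀ h ∈ H, n + h + g ≠ n + w := by
    intro n h hh e
    apply hw
    rw [add_assoc] at e
    rw [← add_left_cancel e]; exact H.add_mem hh hg
  have o3 : ∀ n h : ZMod q, n + h ≠ n + h + g := fun n h e => hg0 (by simpa using e.symm)
  have dne : ∀ T n, ∀ h ∈ H, C.del T (n + h) (n + h + g) (n + w) ≠ 0 := fun T n h hh =>
    C.del_ne T (o3 n h) (o1 n h hh) (o2 n h hh)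
  -- the quotients
  set Qt : ℕ → ZMod q → ZMod q → L := fun T n h =>
    C.del T (n + h) (n + h + g) (n + w) / C.del T (n + 0) (n + 0 + g) (n + w) with hQt
  have hstep : ∀ T < C.R, ∀ n, ∀ h ∈ H, Near (Qt (T + 1) n h) (Qt T n h) := by
    intro T hT n h hh
    have r := hrat T hT n h hh
    have hj := C.j_ne T (n + w)
    have d1 := dne T n h hh
    have d0 := dne T n 0 H.zero_mem
    have e : Qt (T + 1) n h = (C.rat T g w n h / C.rat T g w n 0) * Qt T n h := by
      simp only [hQt]
      rw [del_step T (o1 n h hh) (o2 n h hh), del_step T (o1 n 0 H.zero_mem) (o2 n 0 H.zero_mem)]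
      have := r.ne_right
      field_simp
    rw [e]
    have s1 : Near (C.rat T g w n h / C.rat T g w n 0) 1 := by
      have := r.div (near_refl r.ne_right)
      rwa [div_self r.ne_right] at this
    have s2 := s1.mul (near_refl (div_ne_zero d1 d0))
    rw [one_mul] at s2
    exact s2
  have hT : ∀ T, T ≤ C.R → ∀ n, ∀ h ∈ H, Near (Qt T n h) (Qt 0 n h) := by
    intro T
    induction T with
    | zero =>
      intro _ n h hh
      exact near_refl (div_ne_zero (dne 0 n h hh) (dne 0 n 0 H.zero_mem))
    | succ T ih =>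
      intro hT n h hh
      exact (hstep T (by omega) n h hh).trans (ih (by omega) n h hh)
  have hcyc : ∀ n h, Qt C.R n h = Qt 0 (n + 1) h := by
    intro n h
    have hW : ∀ a b, C.W C.R a b = C.W 0 (a + 1) (b + 1) := by
      intro a b
      have := C.cyc 0 a b
      rwa [zero_add] at this
    simp only [hQt, del, hW]
    have e1 : n + h + 1 = n + 1 + h := by ring
    have e2 : n + h + g + 1 = n + 1 + h + g := by ring
    have e3 : n + w + 1 = n + 1 + w := by ring
    have e4 : n + 0 + 1 = n + 1 + 0 := by ring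
    have e5 : n + 0 + g + 1 = n + 1 + 0 + g := by ring
    rw [e1, e2, e3, e4, e5]
  have hn : ∀ k : ℕ, ∀ h ∈ H, Near (Qt 0 (k : ZMod q) h) (Qt 0 0 h) := by
    intro k
    induction k with
    | zero =>
      intro h hh
      rw [Nat.cast_zero]
      exact near_refl (div_ne_zero (dne 0 0 h hh) (dne 0 0 0 H.zero_mem))
    | succ k ih =>
      intro h hh
      have s1 := hT C.R le_rfl (k : ZMod q) h hh
      rw [hcyc] at s1
      push_cast
      exact s1.trans (ih h hh)
  have hfin := hn n.val h hh
  rw [ZMod.natCast_zmod_val] at hfin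
  simp only [hQt, add_zero, zero_add] at hfin
  exact hfin

variable {ν u : ZMod q → ℝ} (N : C.Normal ν u)
include N

theorem Normal.trans_near {H : AddSubgroup (ZMod q)} (hH : IsBall ν H) {w : ZMod q} (hw : w ∉ H)
    {a b g : ZMod q} (ha : a ∈ H) (hb : b ∈ H) (hg : g ∈ H) :
    Near (C.W 0 a w / C.W 0 a (g + w)) (C.W 0 b w / C.W 0 b (g + w)) := by
  have o1 : ∀ a ∈ H, a ≠ w := fun a ha e => hw (by rw [← e]; exact ha)
  have o2 : ∀ a ∈ H, a ≠ g + w := by
    intro a ha e
    apply hw
    have : w = a - g := by rw [e]; ring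
    rw [this]; exact H.sub_mem ha hg
  rw [near_div_iff (C.W_ne 0 (o2 a ha)) (C.W_ne 0 (o1 b hb)) (C.W_ne 0 (o2 b hb))]
  have hpos : 0 < ‖C.W 0 b w * C.W 0 a (g + w)‖ :=
    norm_pos_iff.mpr (mul_ne_zero (C.W_ne 0 (o1 b hb)) (C.W_ne 0 (o2 a ha)))
  by_cases hab : a = b
  · rw [hab] at hpos ⊢
    rw [sub_self, norm_zero]; exact hpos
  by_cases hg0 : g = 0
  · rw [hg0, zero_add] at hpos ⊢
    rw [mul_comm, sub_self, norm_zero]; exact hpos
  have hp := C.plucker 0 a w b (g + w)
  rw [C.W_swap 0 b w] at hp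
  have e : C.W 0 a w * C.W 0 b (g + w) - C.W 0 b w * C.W 0 a (g + w) =
      C.W 0 a b * C.W 0 w (g + w) := by linear_combination hp
  rw [e, norm_mul, norm_mul, ← C.W_norm_swap 0 a b]
  have e6 : w ≠ g + w := fun e => hg0 (by simpa using e.symm)
  apply N.W_lt (Ne.symm hab) (o1 b hb) (o2 b hb) (o1 a ha) (o2 a ha) e6
  have h1 : a - b ∈ H := H.sub_mem ha hb
  have h2 : w - b ∉ H := by
    intro h; apply hw
    have : w = (w - b) + b := by ring
    rw [this]; exact H.add_mem h hb
  have h3 : g + w - a ∉ H := by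
    intro h; apply hw
    have : w = (g + w - a) + a - g := by ring
    rw [this]; exact H.sub_mem (H.add_mem h ha) hg
  have k1 := hH _ h1 (sub_ne_zero.mpr hab) _ h2
  have k2 := hH _ hg hg0 _ h3
  have e7 : g + w - w = g := by ring
  rw [e7]
  linarith

/-- The multiplier is nearly a homomorphism. -/
theorem Normal.hom {H : AddSubgroup (ZMod q)} (hH : IsBall ν H) {g w : ZMod q} (hg : g ∈ H)
    (hg0 : g ≠ 0) (hw : w ∉ H)
    (hrat : ∀ T < C.R, ∀ n, ∀ h ∈ H, Near (C.rat T g w n h) (C.rat T g w n 0)) {x y : ZMod q}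
    (hx : x ∈ H) (hy : y ∈ H) :
    Near (C.del 0 (x + y) (x + y + g) w / C.del 0 0 g w)
      ((C.del 0 x (x + g) w / C.del 0 0 g w) * (C.del 0 y (y + g) w / C.del 0 0 g w)) := by
  have o : ∀ a ∈ H, a ≠ w := fun a ha e => hw (by rw [← e]; exact ha)
  have o' : ∀ a ∈ H, a ≠ x + w := by
    intro a ha e
    apply hw
    have : w = a - x := by rw [e]; ring
    rw [this]; exact H.sub_mem ha hx
  have o3 : ∀ h : ZMod q, h ≠ h + g := fun h e => hg0 (by simpa using e.symm)
  have hxy : x + y ∈ H := H.add_mem hx hy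
  have dne : ∀ h ∈ H, C.del 0 h (h + g) w ≠ 0 := fun h hh =>
    C.del_ne 0 (o3 h) (o h hh) (o _ (H.add_mem hh hg))
  have dne' : ∀ h ∈ H, C.del 0 h (h + g) (x + w) ≠ 0 := fun h hh =>
    C.del_ne 0 (o3 h) (o' h hh) (o' _ (H.add_mem hh hg))
  have d0 : C.del 0 0 g w ≠ 0 := by
    have := dne 0 H.zero_mem
    rwa [zero_add] at this
  set ρ := C.W 0 0 w / C.W 0 0 (x + w) with hρ
  -- change of pole
  have chg : ∀ h ∈ H, Near (C.del 0 h (h + g) (x + w)) (C.del 0 h (h + g) w * (ρ * ρ)) := by
    intro h hh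
    have t1 := N.trans_near hH hw hh H.zero_mem hx
    have t2 := N.trans_near hH hw (H.add_mem hh hg) H.zero_mem hx
    have e : C.del 0 h (h + g) (x + w) = C.del 0 h (h + g) w *
        ((C.W 0 h w / C.W 0 h (x + w)) * (C.W 0 (h + g) w / C.W 0 (h + g) (x + w))) := by
      have := C.W_ne 0 (o h hh)
      have := C.W_ne 0 (o _ (H.add_mem hh hg))
      have := C.W_ne 0 (o' h hh)
      have := C.W_ne 0 (o' _ (H.add_mem hh hg))
      unfold del
      field_simp
    rw [e]
    exact (near_refl (dne h hh)).mul (t1.mul t2)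
  have q1 := quot_near hg hg0 hw hrat x y hy
  have c1 := chg (x + y) hxy
  have c2 := chg x hx
  have c3 := c1.div c2
  have hρ0 : ρ ≠ 0 := div_ne_zero (C.W_ne 0 (o 0 H.zero_mem)) (C.W_ne 0 (o' 0 H.zero_mem))
  have e : C.del 0 (x + y) (x + y + g) w * (ρ * ρ) / (C.del 0 x (x + g) w * (ρ * ρ)) =
      C.del 0 (x + y) (x + y + g) w / C.del 0 x (x + g) w := by
    have := dne x hx
    field_simp
  rw [e] at c3
  have q2 : Near (C.del 0 (x + y) (x + y + g) w / C.del 0 x (x + g) w)
      (C.del 0 y (y + g) w / C.del 0 0 g w) := c3.symm.trans q1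
  have q3 := (near_refl (div_ne_zero (dne x hx) d0)).mul q2
  have e2 : C.del 0 x (x + g) w / C.del 0 0 g w *
      (C.del 0 (x + y) (x + y + g) w / C.del 0 x (x + g) w) =
      C.del 0 (x + y) (x + y + g) w / C.del 0 0 g w := by
    have := dne x hx
    field_simp
  rw [e2] at q3
  exact q3

end Cyc

end Pool.Agent.UBC
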