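import Pool.Agent.UBC.PLine.Redei

set_option autoImplicit false
set_option linter.unusedSectionVars false

/-!
# Rational functions on the projective line
-/

namespace Pool.Agent.UBC

open OnePoint Polynomial

variable {K : Type*} [Field K]

/-- value of a polynomial of formal degree `e` at a point of the projective line -/
noncomputable def ev (e : ℕ) (F : K[X]) (z : OnePoint K) : K := z.elim (F.coeff e) (fun x => F.eval x)

theorem ev_coe (e : ℕ) (F : K[X]) (x : K) : ev e F (x : OnePoint K) = F.eval x := rfl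
theorem ev_infty (e : ℕ) (F : K[X]) : ev e F (∞ : OnePoint K) = F.coeff e := rfl

/-- The map `ψ` is given by the coprime polynomials `F, G` of formal degree `e`. -/
structure RatRep (e : ℕ) (F G : K[X]) (ψ : OnePoint K → OnePoint K) : Prop where
  dF : F.natDegree ≤ e
  dG : G.natDegree ≤ e
  cop : IsCoprime F G
  rep : ∀ z, ∃ c : K, c ≠ 0 ∧ ev e F z = c * c1 (ψ z) ∧ ev e G z = c * c2 (ψ z)

/-- homogeneous substitution -/
noncomputable def hcomp (n : ℕ) (F A B : K[X]) : K[X] :=
  ∑ i ∈ Finset.range (n + 1), C (F.coeff i) * (A ^ i * B ^ (n - i))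

theorem natDegree_hcomp_le {n e : ℕ} {F A B : K[X]} (hA : A.natDegree ≤ e) (hB : B.natDegree ≤ e) :
    (hcomp n F A B).natDegree ≤ n * e := by
  apply natDegree_sum_le_of_forall_le
  intro i hi
  have hi' : i ≤ n := by simpa [Nat.lt_succ_iff] using hi
  refine (natDegree_C_mul_le _ _).trans (natDegree_mul_le.trans ?_)
  have h1 : (A ^ i).natDegree ≤ i * e := natDegree_pow_le.trans (Nat.mul_le_mul_left _ hA)
  have h2 : (B ^ (n - i)).natDegree ≤ (n - i) * e := natDegree_pow_le.trans (Nat.mul_le_mul_left _ hB)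
  have h3 : i * e + (n - i) * e = n * e := by rw [← Nat.add_mul]; congr 1; omega
  omega

theorem ev_hcomp {n e : ℕ} {F A B : K[X]} (hA : A.natDegree ≤ e) (hB : B.natDegree ≤ e)
    (z : OnePoint K) : ev (n * e) (hcomp n F A B) z =
      ∑ i ∈ Finset.range (n + 1), F.coeff i * (ev e A z ^ i * ev e B z ^ (n - i)) := by
  induction z using OnePoint.rec with
  | coe x =>
    simp only [ev_coe, hcomp, eval_finsetSum, eval_mul, eval_C, eval_pow]
  | infty =>
    simp only [ev_infty, hcomp, finsetSum_coeff, coeff_C_mul]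
    apply Finset.sum_congr rfl
    intro i hi
    have hi' : i ≤ n := by simpa [Nat.lt_succ_iff] using hi
    congr 1
    have h1 : (A ^ i).natDegree ≤ i * e := natDegree_pow_le.trans (Nat.mul_le_mul_left _ hA)
    have h2 : (B ^ (n - i)).natDegree ≤ (n - i) * e :=
      natDegree_pow_le.trans (Nat.mul_le_mul_left _ hB)
    have h3 : n * e = i * e + (n - i) * e := by rw [← Nat.add_mul]; congr 1; omega
    rw [h3, coeff_mul_add_eq_of_natDegree_le h1 h2, coeff_pow_of_natDegree_le hA,
      coeff_pow_of_natDegree_le hB]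

theorem sum_coords {n : ℕ} {F : K[X]} (hF : F.natDegree ≤ n) (c : K) (y : OnePoint K) :
    ∑ i ∈ Finset.range (n + 1), F.coeff i * ((c * c1 y) ^ i * (c * c2 y) ^ (n - i)) =
      c ^ n * ev n F y := by
  have h1 : ∀ i ∈ Finset.range (n + 1), F.coeff i * ((c * c1 y) ^ i * (c * c2 y) ^ (n - i)) =
      c ^ n * (F.coeff i * (c1 y ^ i * c2 y ^ (n - i))) := by
    intro i hi
    have hi' : i ≤ n := by simpa [Nat.lt_succ_iff] using hi
    have h3 : c ^ n = c ^ i * c ^ (n - i) := by rw [← pow_add]; congr 1; omega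
    rw [mul_pow, mul_pow, h3]; ring
  rw [Finset.sum_congr rfl h1, ← Finset.mul_sum]
  congr 1
  induction y using OnePoint.rec with
  | coe x =>
    rw [ev_coe, eval_eq_sum_range' (Nat.lt_succ_of_le hF)]
    apply Finset.sum_congr rfl
    intro i _
    simp
  | infty =>
    rw [ev_infty, Finset.sum_range_succ]
    rw [Finset.sum_eq_zero]
    · simp
    · intro i hi
      have hi' : i < n := by simpa using hi
      have : n - i ≠ 0 := by omega
      simp [this]

theorem RatRep.coeff_ne {e : ℕ} {F G : K[X]} {ψ : OnePoint K → OnePoint K} (h : RatRep e F G ψ) :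
    F.coeff e ≠ 0 ∨ G.coeff e ≠ 0 := by
  obtain ⟨c, hc, h1, h2⟩ := h.rep ∞
  rw [ev_infty] at h1 h2
  rw [h1, h2]
  rcases coords_ne (ψ ∞) with h3 | h3
  · exact Or.inl (mul_ne_zero hc h3)
  · exact Or.inr (mul_ne_zero hc h3)

theorem RatRep.comp {n e : ℕ} {F G A B : K[X]} {φ ψ : OnePoint K → OnePoint K}
    (h : RatRep n F G φ) (h' : RatRep e A B ψ) :
    RatRep (n * e) (hcomp n F A B) (hcomp n G A B) (φ ∘ ψ) := by
  refine ⟨natDegree_hcomp_le h'.dF h'.dG, natDegree_hcomp_le h'.dF h'.dG, ?_, ?_⟩
  · refine (isCoprime_iff_aeval_ne_zero_of_isAlgClosed K (AlgebraicClosure K) _ _).mpr ?_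
    intro a
    by_contra hcon
    push Not at hcon
    obtain ⟨e1, e2⟩ := hcon
    have key : ∀ F : K[X], aeval a (hcomp n F A B) =
        ∑ i ∈ Finset.range (n + 1), algebraMap K (AlgebraicClosure K) (F.coeff i) *
          (aeval a A ^ i * aeval a B ^ (n - i)) := by
      intro F
      simp [hcomp]
    rw [key] at e1 e2
    have hAB := (isCoprime_iff_aeval_ne_zero_of_isAlgClosed K (AlgebraicClosure K) A B).mp h'.cop a
    have hFG := (isCoprime_iff_aeval_ne_zero_of_isAlgClosed K (AlgebraicClosure K) F G).mp h.cop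
    by_cases hv : aeval a B = 0
    · have hu : aeval a A ≠ 0 := by
        rcases hAB with h1 | h1
        · exact h1
        · exact absurd hv h1
      have k2 : ∀ F : K[X], ∑ i ∈ Finset.range (n + 1),
          algebraMap K (AlgebraicClosure K) (F.coeff i) * (aeval a A ^ i * aeval a B ^ (n - i)) =
          algebraMap K (AlgebraicClosure K) (F.coeff n) * aeval a A ^ n := by
        intro F
        rw [Finset.sum_range_succ, Finset.sum_eq_zero]
        · simp
        · intro i hi
          have hi' : i < n := by simpa using hi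
          have : n - i ≠ 0 := by omega
          simp [hv, this]
      rw [k2] at e1 e2
      have hun := pow_ne_zero n hu
      have f1 : F.coeff n = 0 := by
        rcases mul_eq_zero.mp e1 with h1 | h1
        · exact (map_eq_zero _).mp h1
        · exact absurd h1 hun
      have f2 : G.coeff n = 0 := by
        rcases mul_eq_zero.mp e2 with h1 | h1
        · exact (map_eq_zero _).mp h1
        · exact absurd h1 hun
      rcases h.coeff_ne with h1 | h1
      · exact h1 f1
      · exact h1 f2
    · have k2 : ∀ F : K[X], F.natDegree ≤ n → ∑ i ∈ Finset.range (n + 1),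
          algebraMap K (AlgebraicClosure K) (F.coeff i) * (aeval a A ^ i * aeval a B ^ (n - i)) =
          aeval a B ^ n * aeval (aeval a A / aeval a B) F := by
        intro F hF
        rw [aeval_eq_sum_range' (Nat.lt_succ_of_le hF), Finset.mul_sum]
        apply Finset.sum_congr rfl
        intro i hi
        have hi' : i ≤ n := by simpa [Nat.lt_succ_iff] using hi
        have h3 : aeval a B ^ n = aeval a B ^ i * aeval a B ^ (n - i) := by
          rw [← pow_add]; congr 1; omega
        rw [Algebra.smul_def, h3, div_pow]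
        field_simp
      rw [k2 F h.dF] at e1
      rw [k2 G h.dG] at e2
      have hvn := pow_ne_zero n hv
      rcases hFG (aeval a A / aeval a B) with h1 | h1
      · rcases mul_eq_zero.mp e1 with h2 | h2
        · exact hvn h2
        · exact h1 h2
      · rcases mul_eq_zero.mp e2 with h2 | h2
        · exact hvn h2
        · exact h1 h2
  · intro z
    obtain ⟨c, hc, h1, h2⟩ := h'.rep z
    obtain ⟨c', hc', h3, h4⟩ := h.rep (ψ z)
    refine ⟨c ^ n * c', mul_ne_zero (pow_ne_zero _ hc) hc', ?_, ?_⟩
    · rw [ev_hcomp h'.dF h'.dG, h1, h2, sum_coords h.dF, h3]; simp [mul_assoc]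
    · rw [ev_hcomp h'.dF h'.dG, h1, h2, sum_coords h.dG, h4]; simp [mul_assoc]

/-- the maps of degree `e` -/
def IsRat (e : ℕ) (ψ : OnePoint K → OnePoint K) : Prop := ∃ F G : K[X], RatRep e F G ψ

theorem IsRat.comp {n e : ℕ} {φ ψ : OnePoint K → OnePoint K} (h : IsRat n φ) (h' : IsRat e ψ) :
    IsRat (n * e) (φ ∘ ψ) := by
  obtain ⟨F, G, hFG⟩ := h
  obtain ⟨A, B, hAB⟩ := h'
  exact ⟨_, _, hFG.comp hAB⟩

theorem isRat_id : IsRat 1 (id : OnePoint K → OnePoint K) := by
  refine ⟨X, 1, by simp, by simp, isCoprime_one_right, ?_⟩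
  intro z
  refine ⟨1, one_ne_zero, ?_, ?_⟩
  · induction z using OnePoint.rec with
    | coe x => simp [ev_coe]
    | infty => simp [ev_infty]
  · induction z using OnePoint.rec with
    | coe x => simp [ev_coe]
    | infty => simp [ev_infty, coeff_one]

theorem IsRat.iterate {d : ℕ} {φ : OnePoint K → OnePoint K} (h : IsRat d φ) (n : ℕ) :
    IsRat (d ^ n) (φ^[n]) := by
  induction n with
  | zero => simpa using isRat_id
  | succ n ih =>
    rw [Function.iterate_succ', pow_succ']
    exact h.comp ih

theorem IsRat.fixed_card {e : ℕ} (he : 2 ≤ e) {ψ : OnePoint K → OnePoint K} (h : IsRat e ψ)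
    (S : Finset (OnePoint K)) (hS : ∀ z ∈ S, ψ z = z) : S.card ≤ e + 2 := by
  classical
  obtain ⟨F, G, hFG⟩ := h
  have hne : F - X * G ≠ 0 := by
    intro h0
    have hF : F = X * G := sub_eq_zero.mp h0
    have hu : IsUnit G := by
      have hc := hFG.cop
      rw [hF] at hc
      obtain ⟨a, b, hab⟩ := hc
      exact IsUnit.of_mul_eq_one (a * X + b) (by linear_combination hab)
    obtain ⟨g, hg, hgG⟩ := Polynomial.isUnit_iff.mp hu
    rcases hFG.coeff_ne with h1 | h1
    · apply h1
      rw [hF, ← hgG, mul_comm, coeff_C_mul, coeff_X, if_neg (by omega), mul_zero]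
    · apply h1
      rw [← hgG, coeff_C, if_neg (by omega)]
  have hdeg : (F - X * G).natDegree ≤ e + 1 := by
    refine (natDegree_sub_le _ _).trans (max_le (hFG.dF.trans (Nat.le_succ e)) ?_)
    refine natDegree_mul_le.trans ?_
    have := hFG.dG
    rw [natDegree_X]
    omega
  have hsub : S ⊆ insert ∞ ((F - X * G).roots.toFinset.image (fun x : K => (x : OnePoint K))) := by
    intro z hz
    induction z using OnePoint.rec with
    | infty => exact Finset.mem_insert_self _ _
    | coe x =>
      apply Finset.mem_insert_of_mem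
      rw [Finset.mem_image]
      refine ⟨x, ?_, rfl⟩
      rw [Multiset.mem_toFinset, mem_roots hne, IsRoot, eval_sub, eval_mul, eval_X]
      obtain ⟨c, _, h1, h2⟩ := hFG.rep (x : OnePoint K)
      rw [hS _ hz] at h1 h2
      rw [ev_coe] at h1 h2
      rw [h1, h2]
      simp
      ring
  calc S.card ≤ _ := Finset.card_le_card hsub
    _ ≤ ((F - X * G).roots.toFinset.image (fun x : K => (x : OnePoint K))).card + 1 :=
        Finset.card_insert_le _ _
    _ ≤ (F - X * G).roots.toFinset.card + 1 := Nat.add_le_add_right Finset.card_image_le 1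
    _ ≤ Multiset.card (F - X * G).roots + 1 := Nat.add_le_add_right (Multiset.toFinset_card_le _) 1
    _ ≤ (F - X * G).natDegree + 1 := Nat.add_le_add_right (card_roots' _) 1
    _ ≤ e + 2 := by omega

end Pool.Agent.UBC
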