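import Pool.Agent.UBC.PLine.Approx
import Pool.Agent.UBC.GoodMaps

set_option autoImplicit false
set_option linter.unusedSectionVars false

/-!
# Steps on the projective line
-/

namespace Pool.Agent.UBC

open OnePoint

section coords
variable {K : Type*} [Field K]

/-- first coordinate -/
def c1 (z : OnePoint K) : K := z.elim 1 id

/-- second coordinate -/
def c2 (z : OnePoint K) : K := z.elim 0 (fun _ => 1)

@[simp] theorem c1_infty : c1 (∞ : OnePoint K) = 1 := rfl
@[simp] theorem c2_infty : c2 (∞ : OnePoint K) = 0 := rfl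
@[simp] theorem c1_coe (x : K) : c1 (x : OnePoint K) = x := rfl
@[simp] theorem c2_coe (x : K) : c2 (x : OnePoint K) = 1 := rfl

/-- the wedge product -/
def wd (z z' : OnePoint K) : K := c1 z * c2 z' - c2 z * c1 z'

theorem wd_swap (z z' : OnePoint K) : wd z' z = - wd z z' := by unfold wd; ring

theorem wd_plucker (a b c d : OnePoint K) :
    wd a b * wd c d - wd a c * wd b d + wd a d * wd b c = 0 := by unfold wd; ring

theorem wd_eq_zero {z z' : OnePoint K} : wd z z' = 0 ↔ z = z' := by
  induction z using OnePoint.rec with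
  | infty =>
    induction z' using OnePoint.rec with
    | infty => simp [wd]
    | coe y => simp [wd]
  | coe x =>
    induction z' using OnePoint.rec with
    | infty => simp [wd]
    | coe y => simp [wd, sub_eq_zero]

/-- A point is determined by its coordinates up to a factor. -/
theorem eq_of_coords {z z' : OnePoint K} {c : K} (h1 : c1 z = c * c1 z') (h2 : c2 z = c * c2 z') :
    z = z' := by
  rw [← wd_eq_zero]
  unfold wd
  rw [h1, h2]; ring

theorem coords_ne (z : OnePoint K) : c1 z ≠ 0 ∨ c2 z ≠ 0 := by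
  induction z using OnePoint.rec with
  | infty => left; simp
  | coe x => right; simp

end coords

section step
variable {K : Type*} [NormedField K] [IsUltrametricDist K] {L : Type*} [NormedField L]
  [IsUltrametricDist L]

/-- A good step: the wedge products are multiplied by a factor `P z z'` and by a factor depending
on the single points. -/
structure IsStep (σ : K →+* L) (s : OnePoint K → OnePoint K) (wild : Prop) (j : OnePoint K → L)
    (P : OnePoint K → OnePoint K → L) (rel : OnePoint K → OnePoint K → Prop) : Prop where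
  step : ∀ z z', σ (wd (s z) (s z')) = P z z' * σ (wd z z') * (j z * j z')
  j_ne : ∀ z, j z ≠ 0
  P_ne : ∀ z z', z ≠ z' → P z z' ≠ 0
  P_symm : ∀ z z', P z z' = P z' z
  mono : ∀ a b c d, a ≠ b → a ≠ c → a ≠ d → b ≠ c → b ≠ d → c ≠ d →
    ‖wd a b‖ * ‖wd c d‖ ≤ ‖wd a c‖ * ‖wd b d‖ → ‖P a b‖ * ‖P c d‖ ≤ ‖P a c‖ * ‖P b d‖
  near : ∀ a b c, b ≠ c → rel b c → Near (P a b) (P a c)
  tri : ∀ a b c d, a ≠ b → a ≠ c → a ≠ d → b ≠ c → b ≠ d → c ≠ d → ¬ rel a b → ¬ rel c d →
    ‖wd a b‖ * ‖wd c d‖ < ‖wd a c‖ * ‖wd b d‖ → ‖P a b‖ * ‖P c d‖ < ‖P a c‖ * ‖P b d‖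
  tame : ¬ wild → ∀ a b, rel a b

theorem IsStep.injective {σ : K →+* L} {s : OnePoint K → OnePoint K} {wild : Prop}
    {j : OnePoint K → L} {P : OnePoint K → OnePoint K → L} {rel : OnePoint K → OnePoint K → Prop}
    (h : IsStep σ s wild j P rel) : Function.Injective s := by
  intro z z' e
  by_contra hne
  have h1 := h.step z z'
  rw [e, wd_eq_zero.mpr rfl, map_zero] at h1
  have h2 : σ (wd z z') ≠ 0 := by
    rw [Ne, map_eq_zero, wd_eq_zero]; exact hne
  exact (mul_ne_zero (mul_ne_zero (h.P_ne z z' hne) h2) (mul_ne_zero (h.j_ne z) (h.j_ne z'))) h1.symm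

section mobius
/-- coordinates of a Möbius transformation -/
theorem mobius_coords {F : Type*} [Field F] [DecidableEq F] (g : GL (Fin 2) F) (z : OnePoint F) :
    ∃ c : F, c ≠ 0 ∧ c1 (g • z) = c * (g 0 0 * c1 z + g 0 1 * c2 z) ∧
      c2 (g • z) = c * (g 1 0 * c1 z + g 1 1 * c2 z) := by
  have hdet : g 0 0 * g 1 1 - g 0 1 * g 1 0 ≠ 0 := by
    have := g.det_ne_zero
    rwa [Matrix.det_fin_two] at this
  induction z using OnePoint.rec with
  | infty =>
    rw [smul_infty_eq_ite]
    by_cases h : g 1 0 = 0
    · rw [if_pos h]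
      have h0 : g 0 0 ≠ 0 := by
        intro h'; apply hdet; rw [h, h']; ring
      refine ⟨(g 0 0)⁻¹, inv_ne_zero h0, ?_, ?_⟩
      · simp [h0]
      · simp [h]
    · rw [if_neg h]
      refine ⟨(g 1 0)⁻¹, inv_ne_zero h, ?_, ?_⟩
      · simp [div_eq_inv_mul]
      · simp [h]
  | coe x =>
    rw [smul_some_eq_ite]
    by_cases h : g 1 0 * x + g 1 1 = 0
    · rw [if_pos h]
      have h0 : g 0 0 * x + g 0 1 ≠ 0 := by
        intro h'
        apply hdet
        by_cases hx : g 1 0 = 0
        · have h11 : g 1 1 = 0 := by rw [hx] at h; simpa using h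
          rw [hx, h11]; ring
        · have e1 : g 1 1 = - (g 1 0 * x) := by linear_combination h
          have e2 : g 0 1 = - (g 0 0 * x) := by linear_combination h'
          rw [e1, e2]; ring
      refine ⟨(g 0 0 * x + g 0 1)⁻¹, inv_ne_zero h0, ?_, ?_⟩
      · simp [h0]
      · simp [h]
    · rw [if_neg h]
      refine ⟨(g 1 0 * x + g 1 1)⁻¹, inv_ne_zero h, ?_, ?_⟩
      · simp [div_eq_inv_mul]
      · simp [h]

theorem mobius_isStep [DecidableEq K] (σ : K →+* L) (g : GL (Fin 2) K) (wild : Prop) :
    ∃ j P rel, IsStep σ (fun z => g • z) wild j P rel := by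
  have hdet : g 0 0 * g 1 1 - g 0 1 * g 1 0 ≠ 0 := by
    have := g.det_ne_zero
    rwa [Matrix.det_fin_two] at this
  choose c hc0 h1 h2 using mobius_coords g
  have hσd : σ (g 0 0 * g 1 1 - g 0 1 * g 1 0) ≠ 0 := (map_ne_zero σ).mpr hdet
  refine ⟨fun z => σ (c z), fun _ _ => σ (g 0 0 * g 1 1 - g 0 1 * g 1 0), fun _ _ => True, ?_⟩
  refine ⟨?_, ?_, ?_, ?_, ?_, ?_, ?_, ?_⟩
  · intro z z'
    rw [← map_mul, ← map_mul, ← map_mul]
    congr 1
    unfold wd
    rw [h1, h2, h1, h2]
    ring
  · intro z; exact (map_ne_zero σ).mpr (hc0 z)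
  · intro _ _ _; exact hσd
  · intro _ _; rfl
  · intro _ _ _ _ _ _ _ _ _ _ _; exact le_rfl
  · intro _ _ _ _ _; exact near_refl hσd
  · intro _ _ _ _ _ _ _ _ _ _ h; exact absurd trivial h
  · intro _ _ _; trivial

end mobius

section weights

/-- Weights in a fixed chart. -/
theorem weight_lemma {mx nx my ny mz nz mu nu : ℝ} (h1 : 0 ≤ mx) (h2 : 0 ≤ nx) (h3 : 0 ≤ my)
    (h4 : 0 ≤ ny) (h5 : 0 ≤ mz) (h6 : 0 ≤ nz) (h7 : 0 ≤ mu) (h8 : 0 ≤ nu)
    (e : mx * ny = nx * my) :
    max (mx * ny) (nx * my) * max (mz * nu) (nz * mu) ≤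
      max (mx * nz) (nx * mz) * max (my * nu) (ny * mu) := by
  rw [← e, max_self]
  rw [mul_max_of_nonneg _ _ (mul_nonneg h1 h4)]
  refine max_le ?_ ?_
  · calc mx * ny * (mz * nu) = (nx * mz) * (my * nu) := by rw [e]; ring
      _ ≤ _ := mul_le_mul (le_max_right _ _) (le_max_left _ _) (by positivity) (by positivity)
  · calc mx * ny * (nz * mu) = (mx * nz) * (ny * mu) := by ring
      _ ≤ _ := mul_le_mul (le_max_left _ _) (le_max_right _ _) (by positivity) (by positivity)

end weights

section dickson
variable (h : K)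

/-- weights for the Dickson map -/
noncomputable def wm (z : OnePoint K) : ℝ := z.elim 1 (fun x => max ‖x‖ (Real.sqrt ‖h‖))
/-- weights for the Dickson map -/
noncomputable def wn (z : OnePoint K) : ℝ := z.elim 0 (fun _ => 1)

/-- the maximal possible distance for the given weights -/
noncomputable def Mx (z z' : OnePoint K) : ℝ := max (wm h z * wn z') (wn z * wm h z')

theorem wm_nonneg (z : OnePoint K) : 0 ≤ wm h z := by
  induction z using OnePoint.rec with
  | infty => exact zero_le_one
  | coe x => exact le_max_of_le_left (norm_nonneg _)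

omit [IsUltrametricDist K] in
theorem wn_nonneg (z : OnePoint K) : 0 ≤ wn z := by
  induction z using OnePoint.rec with
  | infty => exact le_rfl
  | coe x => exact zero_le_one

theorem Mx_coe (x y : K) : Mx h (x : OnePoint K) (y : OnePoint K) =
    scl (Real.sqrt ‖h‖) x y := by
  unfold Mx wm wn scl
  simp only [OnePoint.elim_some, mul_one, one_mul]
  apply le_antisymm
  · refine max_le (max_le ?_ (le_max_right _ _)) (max_le ?_ (le_max_right _ _))
    · exact le_max_of_le_left (le_max_left _ _)
    · exact le_max_of_le_left (le_max_right _ _)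
  · refine max_le (max_le ?_ ?_) ?_
    · exact le_max_of_le_left (le_max_left _ _)
    · exact le_max_of_le_right (le_max_left _ _)
    · exact le_max_of_le_left (le_max_right _ _)

theorem Mx_infty_coe (y : K) : Mx h (∞ : OnePoint K) (y : OnePoint K) = 1 := by
  unfold Mx wm wn
  simp

theorem Mx_coe_infty (y : K) : Mx h (y : OnePoint K) (∞ : OnePoint K) = 1 := by
  unfold Mx wm wn
  simp

theorem Mx_nonneg (z z' : OnePoint K) : 0 ≤ Mx h z z' :=
  le_max_of_le_left (mul_nonneg (wm_nonneg h z) (wn_nonneg z'))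

theorem norm_wd_le (z z' : OnePoint K) : ‖wd z z'‖ ≤ Mx h z z' := by
  induction z using OnePoint.rec with
  | infty =>
    induction z' using OnePoint.rec with
    | infty => simp [wd, Mx, wn]
    | coe y => rw [Mx_infty_coe]; simp [wd]
  | coe x =>
    induction z' using OnePoint.rec with
    | infty => rw [Mx_coe_infty]; simp [wd]
    | coe y =>
      rw [Mx_coe]
      simp only [wd, c1_coe, c2_coe, mul_one, one_mul]
      have := norm_sub_le_max' x 0 y
      rw [sub_zero, zero_sub, norm_neg] at this
      exact this.trans (le_max_left _ _)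

theorem norm_wd_eq {z z' : OnePoint K} (hne : wm h z * wn z' ≠ wn z * wm h z') :
    ‖wd z z'‖ = Mx h z z' := by
  induction z using OnePoint.rec with
  | infty =>
    induction z' using OnePoint.rec with
    | infty => simp [wd, Mx, wn]
    | coe y => rw [Mx_infty_coe]; simp [wd]
  | coe x =>
    induction z' using OnePoint.rec with
    | infty => rw [Mx_coe_infty]; simp [wd]
    | coe y =>
      apply le_antisymm (norm_wd_le h _ _)
      rw [Mx_coe]
      simp only [wd, c1_coe, c2_coe, mul_one, one_mul]
      have hne' : max ‖x‖ (Real.sqrt ‖h‖) ≠ max ‖y‖ (Real.sqrt ‖h‖) := by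
        intro e
        apply hne
        unfold wm wn
        simp only [OnePoint.elim_some, mul_one, one_mul]
        exact e
      unfold scl
      rcases lt_trichotomy ‖x‖ ‖y‖ with hlt | heq | hlt
      · have h1 : ‖x - y‖ = ‖y‖ := by
          have : ‖0 - x‖ < ‖0 - y‖ := by simpa using hlt
          have := norm_sub_eq_of_lt this
          simpa using this
        rw [h1]
        refine max_le (max_le hlt.le le_rfl) ?_
        by_contra hcon
        rw [not_le] at hcon
        apply hne'
        rw [max_eq_right (hlt.le.trans hcon.le), max_eq_right hcon.le]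
      · exact absurd (by rw [heq]) hne'
      · have h1 : ‖x - y‖ = ‖x‖ := by
          have : ‖0 - y‖ < ‖0 - x‖ := by simpa using hlt
          have := norm_sub_eq_of_lt this
          rw [norm_sub_rev]
          simpa using this
        rw [h1]
        refine max_le (max_le le_rfl hlt.le) ?_
        by_contra hcon
        rw [not_le] at hcon
        apply hne'
        rw [max_eq_right (hlt.le.trans hcon.le), max_eq_right hcon.le]

theorem Mx_mono {a b c d : OnePoint K}
    (hle : ‖wd a b‖ * ‖wd c d‖ ≤ ‖wd a c‖ * ‖wd b d‖) :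
    Mx h a b * Mx h c d ≤ Mx h a c * Mx h b d := by
  by_contra hcon
  have n1 : wm h a * wn b ≠ wn a * wm h b := by
    intro e
    apply hcon
    exact weight_lemma (wm_nonneg h a) (wn_nonneg a) (wm_nonneg h b) (wn_nonneg b) (wm_nonneg h c)
      (wn_nonneg c) (wm_nonneg h d) (wn_nonneg d) e
  have n2 : wm h c * wn d ≠ wn c * wm h d := by
    intro e
    apply hcon
    have := weight_lemma (wm_nonneg h c) (wn_nonneg c) (wm_nonneg h d) (wn_nonneg d)
      (wm_nonneg h a) (wn_nonneg a) (wm_nonneg h b) (wn_nonneg b) e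
    have e1 : Mx h a c = Mx h c a := by unfold Mx; rw [max_comm]; congr 1 <;> ring
    have e2 : Mx h b d = Mx h d b := by unfold Mx; rw [max_comm]; congr 1 <;> ring
    rw [e1, e2]
    calc Mx h a b * Mx h c d = Mx h c d * Mx h a b := mul_comm _ _
      _ ≤ _ := this
  rw [norm_wd_eq h n1, norm_wd_eq h n2] at hle
  exact hcon (hle.trans (mul_le_mul (norm_wd_le h _ _) (norm_wd_le h _ _) (norm_nonneg _)
    (Mx_nonneg h _ _)))

/-- the factor of the Dickson map -/
noncomputable def Pd (n : ℕ) (z z' : OnePoint K) : K :=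
  z.elim 1 (fun x => z'.elim 1 (fun y => dd h n x y))

theorem Pd_coe (n : ℕ) (x y : K) : Pd h n (x : OnePoint K) (y : OnePoint K) = dd h n x y := rfl
theorem Pd_infty (n : ℕ) (z : OnePoint K) : Pd h n (∞ : OnePoint K) z = 1 := rfl
theorem Pd_infty' (n : ℕ) (z : OnePoint K) : Pd h n z (∞ : OnePoint K) = 1 := by
  induction z using OnePoint.rec with
  | infty => rfl
  | coe x => rfl

theorem dd_symm {R : Type*} [CommRing R] (h : R) (n : ℕ) (x y : R) : dd h n x y = dd h n y x := by
  have gen : ∀ n, dd h n x y = dd h n y x ∧ dd h (n + 1) x y = dd h (n + 1) y x ∧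
      dk h (n + 1) x + y * dd h (n + 1) x y = dk h (n + 1) y + x * dd h (n + 1) y x := by
    intro n
    induction n with
    | zero =>
      refine ⟨by rw [dd_zero, dd_zero], by rw [dd_one, dd_one], ?_⟩
      rw [dd_one, dd_one, dk_one, dk_one]; ring
    | succ n ih =>
      obtain ⟨i1, i2, i3⟩ := ih
      have k2 : dd h (n + 2) x y = dd h (n + 2) y x := by
        rw [dd_add_two, dd_add_two, i3, i1]
      refine ⟨i2, k2, ?_⟩
      have s1 := dk_sub h (n + 2) x y
      rw [← k2]
      linear_combination s1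
  exact (gen n).1

/-- Changing an argument inside a class changes the divided difference only slightly. -/
theorem near_dd {F : Type*} [NormedField F] [IsUltrametricDist F] {h : F} {k : ℕ} {x y y' : F}
    (hyy : y ≠ y') (hr : ‖y - y'‖ < scl (Real.sqrt ‖h‖) y y')
    (H1 : x ≠ y → ‖dd h (k + 1) x y‖ = (scl (Real.sqrt ‖h‖) x y) ^ k)
    (H2 : x ≠ y' → ‖dd h (k + 1) x y'‖ = (scl (Real.sqrt ‖h‖) x y') ^ k) :
    Near (dd h (k + 1) x y) (dd h (k + 1) x y') := by
  set s := Real.sqrt ‖h‖ with hs
  set M := scl s y y' with hM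
  have hM0 : 0 < M := lt_of_le_of_lt (norm_nonneg _) hr
  have hyM : ‖y‖ ≤ M := le_max_of_le_left (le_max_left _ _)
  have hy'M : ‖y'‖ ≤ M := le_max_of_le_left (le_max_right _ _)
  have hsM : s ≤ M := le_max_right _ _
  have m1 : max ‖y'‖ s = M := by
    apply le_antisymm (max_le hy'M hsM)
    by_contra hcon
    rw [not_le, max_lt_iff] at hcon
    have hy : ‖y‖ = M := by
      apply le_antisymm hyM
      by_contra hcon2
      rw [not_le] at hcon2
      exact lt_irrefl M (max_lt (max_lt hcon2 hcon.1) hcon.2)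
    have h1 : ‖y' - y‖ = ‖y‖ := by
      have : ‖0 - y'‖ < ‖0 - y‖ := by
        rw [zero_sub, zero_sub, norm_neg, norm_neg, hy]; exact hcon.1
      have := norm_sub_eq_of_lt this
      simpa using this
    rw [norm_sub_rev, h1, hy] at hr
    exact lt_irrefl _ hr
  have m2 : max ‖y‖ s = M := by
    apply le_antisymm (max_le hyM hsM)
    by_contra hcon
    rw [not_le, max_lt_iff] at hcon
    have hy : ‖y'‖ = M := by
      apply le_antisymm hy'M
      by_contra hcon2
      rw [not_le] at hcon2
      exact lt_irrefl M (max_lt (max_lt hcon.1 hcon2) hcon.2)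
    have h1 : ‖y - y'‖ = ‖y'‖ := by
      have : ‖0 - y‖ < ‖0 - y'‖ := by
        rw [zero_sub, zero_sub, norm_neg, norm_neg, hy]; exact hcon.1
      have := norm_sub_eq_of_lt this
      simpa using this
    rw [h1, hy] at hr
    exact lt_irrefl _ hr
  set M' := max ‖x‖ M with hM'
  have hM'0 : 0 < M' := lt_of_lt_of_le hM0 (le_max_right _ _)
  have hh : ‖h‖ ≤ M' ^ 2 := by
    rw [← Real.sq_sqrt (norm_nonneg h)]
    exact pow_le_pow_left₀ (Real.sqrt_nonneg _) (hsM.trans (le_max_right _ _)) 2
  have hd := norm_dd_sub_le hM'0 hh (k + 1) (x := x) (y := y) (x' := x) (y' := y')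
    (le_max_left _ _) (hyM.trans (le_max_right _ _)) (le_max_left _ _)
    (hy'M.trans (le_max_right _ _))
  rw [sub_self, norm_zero, max_eq_right (norm_nonneg _)] at hd
  have hd2 : ‖dd h (k + 1) x y - dd h (k + 1) x y'‖ < M' ^ k := by
    have : ‖dd h (k + 1) x y - dd h (k + 1) x y'‖ * M' ^ 2 < M' ^ k * M' ^ 2 := by
      refine lt_of_le_of_lt hd ?_
      calc M' ^ (k + 1) * ‖y - y'‖ < M' ^ (k + 1) * M' :=
            mul_lt_mul_of_pos_left (lt_of_lt_of_le hr (le_max_right _ _)) (by positivity)
        _ = _ := by ring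
    exact lt_of_mul_lt_mul_right this (by positivity)
  have s1 : scl s x y' = M' := by
    unfold scl; rw [max_assoc, m1]
  have s2 : scl s x y = M' := by
    unfold scl; rw [max_assoc, m2]
  by_cases hxy' : x = y'
  · have hxy : x ≠ y := fun e => hyy (by rw [← e, hxy'])
    apply Near.symm
    unfold Near
    rw [norm_sub_rev, H1 hxy, s2]
    exact hd2
  · unfold Near
    rw [H2 hxy', s1]
    exact hd2

theorem dickson_isStep (σ : K →+* L) (hσ : ∀ x, ‖σ x‖ = ‖x‖) {k : ℕ}
    (H : ∀ x y : K, x ≠ y → ‖dd h (k + 1) x y‖ = (scl (Real.sqrt ‖h‖) x y) ^ k) :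
    ∃ j P rel, IsStep σ (OnePoint.map (fun x => (Polynomial.dickson 1 h (k + 1)).eval x))
      (2 ≤ k + 1) j P rel := by
  have hN : ∀ z z' : OnePoint K, z ≠ z' → ‖Pd h (k + 1) z z'‖ = (Mx h z z') ^ k := by
    intro z z' hne
    induction z using OnePoint.rec with
    | infty =>
      induction z' using OnePoint.rec with
      | infty => exact absurd rfl hne
      | coe y => rw [Mx_infty_coe, Pd_infty, norm_one, one_pow]
    | coe x =>
      induction z' using OnePoint.rec with
      | infty => rw [Mx_coe_infty, Pd_infty', norm_one, one_pow]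
      | coe y =>
        rw [Mx_coe, Pd_coe]
        exact H x y (fun e => hne (by rw [e]))
  have hMpos : ∀ z z' : OnePoint K, z ≠ z' → 0 < Mx h z z' := by
    intro z z' hne
    refine lt_of_lt_of_le ?_ (norm_wd_le h z z')
    exact norm_pos_iff.mpr (fun e => hne (wd_eq_zero.mp e))
  refine ⟨fun _ => 1, fun z z' => σ (Pd h (k + 1) z z'),
    fun z z' => k = 0 ∨ ‖wd z z'‖ < Mx h z z', ?_⟩
  refine ⟨?_, ?_, ?_, ?_, ?_, ?_, ?_, ?_⟩
  · intro z z'
    rw [mul_one, mul_one, ← map_mul]
    congr 1
    induction z using OnePoint.rec with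
    | infty =>
      induction z' using OnePoint.rec with
      | infty => simp [wd]
      | coe y => simp [wd, Pd_infty]
    | coe x =>
      induction z' using OnePoint.rec with
      | infty => simp [wd, Pd_infty']
      | coe y =>
        rw [Pd_coe]
        simp only [OnePoint.map_some, wd, c1_coe, c2_coe, mul_one, one_mul, dk_eval]
        rw [dk_sub]; ring
  · intro _; exact one_ne_zero
  · intro z z' hne
    rw [Ne, map_eq_zero, ← norm_eq_zero, hN z z' hne]
    exact (pow_pos (hMpos z z' hne) k).ne'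
  · intro z z'
    congr 1
    induction z using OnePoint.rec with
    | infty => rw [Pd_infty, Pd_infty']
    | coe x =>
      induction z' using OnePoint.rec with
      | infty => rw [Pd_infty, Pd_infty']
      | coe y => rw [Pd_coe, Pd_coe]; exact dd_symm h _ _ _
  · intro a b c d e1 e2 e3 e4 e5 e6 hle
    rw [hσ, hσ, hσ, hσ, hN a b e1, hN c d e6, hN a c e2, hN b d e5, ← mul_pow, ← mul_pow]
    exact pow_le_pow_left₀ (mul_nonneg (Mx_nonneg h _ _) (Mx_nonneg h _ _)) (Mx_mono h hle) k
  · intro a b c hbc hr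
    have goal : Near (Pd h (k + 1) a b) (Pd h (k + 1) a c) := by
      rcases hr with hk | hr
      · subst hk
        have : ∀ z z' : OnePoint K, Pd h (0 + 1) z z' = 1 := by
          intro z z'
          induction z using OnePoint.rec with
          | infty => rw [Pd_infty]
          | coe x =>
            induction z' using OnePoint.rec with
            | infty => rw [Pd_infty']
            | coe y => rw [Pd_coe, zero_add, dd_one]
        rw [this, this]
        exact near_refl one_ne_zero
      · induction b using OnePoint.rec with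
        | infty =>
          induction c using OnePoint.rec with
          | infty => exact absurd rfl hbc
          | coe y' => rw [Mx_infty_coe] at hr; simp [wd] at hr
        | coe y =>
          induction c using OnePoint.rec with
          | infty => rw [Mx_coe_infty] at hr; simp [wd] at hr
          | coe y' =>
            induction a using OnePoint.rec with
            | infty => rw [Pd_infty, Pd_infty]; exact near_refl one_ne_zero
            | coe x =>
              rw [Pd_coe, Pd_coe]
              rw [Mx_coe] at hr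
              simp only [wd, c1_coe, c2_coe, mul_one, one_mul] at hr
              exact near_dd (fun e => hbc (by rw [e])) hr (H x y) (H x y')
    unfold Near at goal ⊢
    rw [← map_sub, hσ, hσ]
    exact goal
  · intro a b c d e1 e2 e3 e4 e5 e6 r1 r2 hlt
    push Not at r1 r2
    rw [hσ, hσ, hσ, hσ, hN a b e1, hN c d e6, hN a c e2, hN b d e5, ← mul_pow, ← mul_pow]
    apply pow_lt_pow_left₀ _ (mul_nonneg (Mx_nonneg h _ _) (Mx_nonneg h _ _)) r1.1
    calc Mx h a b * Mx h c d ≤ ‖wd a b‖ * ‖wd c d‖ :=
          mul_le_mul r1.2 r2.2 (Mx_nonneg h _ _) (norm_nonneg _)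
      _ < ‖wd a c‖ * ‖wd b d‖ := hlt
      _ ≤ _ := mul_le_mul (norm_wd_le h _ _) (norm_wd_le h _ _) (norm_nonneg _) (Mx_nonneg h _ _)
  · intro hw a b
    left
    omega

end dickson

end step

end Pool.Agent.UBC
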